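import Pool.Agent.Y868.TF.A8

/-! Rectangles and sign patterns. -/

set_option autoImplicit false

namespace Pool.Agent.Y868.TF

open Finset Filter
open Pool.Agent.H373R2.T7
open Pool.Agent.Y868.TA Pool.Agent.Y868.TE Pool.Agent.Y868.TD

/-- sums over quadrants -/
noncomputable def quad (X : ℕ) (g : ℤ × ℤ → ℝ) (b c : ℤ) : ℝ := ∑ P ∈ (sqr X).filter (fun P => P.1 ≤ b ∧ P.2 ≤ c), g P

lemma rect_quad (X : ℕ) (g : ℤ × ℤ → ℝ) (a b a' b' : ℤ) (h : a ≤ b) (h' : a' ≤ b') :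
    ∑ P ∈ (sqr X).filter (fun P => (a < P.1 ∧ P.1 ≤ b) ∧ (a' < P.2 ∧ P.2 ≤ b')), g P =
      quad X g b b' - quad X g a b' - quad X g b a' + quad X g a a' := by
  unfold quad
  simp_rw [sum_filter]
  rw [← sum_sub_distrib, ← sum_sub_distrib, ← sum_add_distrib]
  refine sum_congr rfl fun P _ => ?_
  by_cases h1 : P.1 ≤ a
  · have h2 : P.1 ≤ b := h1.trans h
    by_cases h3 : P.2 ≤ a'
    · have h4 : P.2 ≤ b' := h3.trans h'
      simp [h1, h2, h3, h4, not_lt.2 h1]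
    · simp [h1, h2, h3, not_lt.2 h1]
  · by_cases h3 : P.2 ≤ a'
    · have h4 : P.2 ≤ b' := h3.trans h'
      simp [h1, h3, h4, not_lt.2 h3]
    · simp [h1, h3, not_le.1 h1, not_le.1 h3]

/-- the grid -/
def gam (X h i : ℕ) : ℤ := -(X : ℤ) - 1 + i * h

lemma clamp (X h R : ℕ) (hh : 1 ≤ h) (hR : 2 * X + 1 ≤ R * h) (b : ℤ) : ∃ i, i ≤ R ∧ ∃ b' : ℤ,
    (∀ z : ℤ, |z| ≤ X → (z ≤ b ↔ z ≤ b')) ∧ gam X h i ≤ b' ∧ b' ≤ gam X h i + h := by
  have hhp : (0 : ℤ) < h := by exact_mod_cast (by omega : 0 < h)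
  have hX0 : (0 : ℤ) ≤ X := Int.natCast_nonneg _
  refine ⟨((max (-(X : ℤ) - 1) (min b X) + X + 1) / h).toNat, ?_, max (-(X : ℤ) - 1) (min b X), ?_, ?_, ?_⟩
  · have h1 : (max (-(X : ℤ) - 1) (min b X) + X + 1) / h ≤ R := by
      apply Int.ediv_le_of_le_mul hhp
      have h2 : ((2 * X + 1 : ℕ) : ℤ) ≤ ((R * h : ℕ) : ℤ) := by exact_mod_cast hR
      push_cast at h2
      have h3 : max (-(X : ℤ) - 1) (min b X) ≤ X := max_le (by linarith) (min_le_right _ _)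
      linarith
    omega
  · intro z hz
    rw [abs_le] at hz
    constructor
    · intro h1
      exact le_max_of_le_right (le_min h1 hz.2)
    · intro h1
      rcases le_max_iff.1 h1 with h2 | h2
      · linarith [hz.1]
      · exact h2.trans (min_le_left _ _)
  · unfold gam
    have h1 : 0 ≤ max (-(X : ℤ) - 1) (min b X) + X + 1 := by
      have := le_max_left (-(X : ℤ) - 1) (min b X)
      linarith
    rw [Int.toNat_of_nonneg (Int.ediv_nonneg h1 hhp.le)]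
    have h2 := Int.ediv_mul_le (max (-(X : ℤ) - 1) (min b X) + X + 1) hhp.ne'
    linarith
  · unfold gam
    have h1 : 0 ≤ max (-(X : ℤ) - 1) (min b X) + X + 1 := by
      have := le_max_left (-(X : ℤ) - 1) (min b X)
      linarith
    rw [Int.toNat_of_nonneg (Int.ediv_nonneg h1 hhp.le)]
    have h2 := Int.lt_ediv_add_one_mul_self (max (-(X : ℤ) - 1) (min b X) + X + 1) hhp
    linarith

lemma strip1 (X h : ℕ) (γ b' : ℤ) (h1 : b' ≤ γ + h) : #((sqr X).filter (fun P => γ < P.1 ∧ P.1 ≤ b')) ≤ h * (2 * X + 1) := by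
  have h2 : (sqr X).filter (fun P => γ < P.1 ∧ P.1 ≤ b') ⊆ Ioc γ (γ + h) ×ˢ Icc (-(X : ℤ)) X := by
    intro P hP
    rw [mem_filter] at hP
    unfold sqr at hP
    rw [mem_product] at hP ⊢
    rw [mem_Ioc]
    exact ⟨⟨hP.2.1, hP.2.2.trans h1⟩, hP.1.2⟩
  refine (card_le_card h2).trans (le_of_eq ?_)
  rw [card_product, Int.card_Ioc, Int.card_Icc]
  congr 1
  · omega
  · omega

lemma strip2 (X h : ℕ) (γ b' : ℤ) (h1 : b' ≤ γ + h) : #((sqr X).filter (fun P => γ < P.2 ∧ P.2 ≤ b')) ≤ h * (2 * X + 1) := by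
  have h2 : (sqr X).filter (fun P => γ < P.2 ∧ P.2 ≤ b') ⊆ Icc (-(X : ℤ)) X ×ˢ Ioc γ (γ + h) := by
    intro P hP
    rw [mem_filter] at hP
    unfold sqr at hP
    rw [mem_product] at hP ⊢
    rw [mem_Ioc]
    exact ⟨hP.1.1, ⟨hP.2.1, hP.2.2.trans h1⟩⟩
  refine (card_le_card h2).trans (le_of_eq ?_)
  rw [card_product, Int.card_Ioc, Int.card_Icc, mul_comm]
  congr 1
  · omega
  · omega

lemma quad_grid (X h R : ℕ) (hh : 1 ≤ h) (hR : 2 * X + 1 ≤ R * h) (g : ℤ × ℤ → ℝ) (hg : ∀ P, |g P| ≤ 1) (b c : ℤ) :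
    ∃ i ≤ R, ∃ j ≤ R, |quad X g b c - quad X g (gam X h i) (gam X h j)| ≤ 2 * (h * (2 * X + 1) : ℕ) := by
  obtain ⟨i, hi, b', e1, e2, e3⟩ := clamp X h R hh hR b
  obtain ⟨j, hj, c', f1, f2, f3⟩ := clamp X h R hh hR c
  refine ⟨i, hi, j, hj, ?_⟩
  have h1 : (sqr X).filter (fun P => P.1 ≤ b ∧ P.2 ≤ c) = (sqr X).filter (fun P => P.1 ≤ b' ∧ P.2 ≤ c') := by
    apply filter_congr
    intro P hP
    rw [mem_sqr] at hP
    rw [e1 P.1 hP.1, f1 P.2 hP.2]
  unfold quad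
  rw [h1]
  have h2 : (sqr X).filter (fun P => P.1 ≤ gam X h i ∧ P.2 ≤ gam X h j) ⊆ (sqr X).filter (fun P => P.1 ≤ b' ∧ P.2 ≤ c') := by
    intro P hP
    rw [mem_filter] at hP ⊢
    exact ⟨hP.1, hP.2.1.trans e2, hP.2.2.trans f2⟩
  rw [← sum_sdiff_eq_sub h2]
  have h3 : (sqr X).filter (fun P => P.1 ≤ b' ∧ P.2 ≤ c') \ (sqr X).filter (fun P => P.1 ≤ gam X h i ∧ P.2 ≤ gam X h j) ⊆
      (sqr X).filter (fun P => gam X h i < P.1 ∧ P.1 ≤ b') ∪ (sqr X).filter (fun P => gam X h j < P.2 ∧ P.2 ≤ c') := by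
    intro P hP
    rw [Finset.mem_sdiff, mem_filter, mem_filter] at hP
    rw [mem_union, mem_filter, mem_filter]
    obtain ⟨⟨p1, p2, p3⟩, p4⟩ := hP
    by_cases p5 : P.1 ≤ gam X h i
    · right
      refine ⟨p1, ?_, p3⟩
      by_contra p6
      exact p4 ⟨p1, p5, not_lt.1 p6⟩
    · left
      exact ⟨p1, not_le.1 p5, p2⟩
  refine (abs_sum_le_sum_abs _ _).trans ?_
  have h4 := (card_le_card h3).trans (card_union_le _ _)
  have h5 := strip1 X h (gam X h i) b' e3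
  have h6 := strip2 X h (gam X h j) c' f3
  have h7 : #((sqr X).filter (fun P => P.1 ≤ b' ∧ P.2 ≤ c') \ (sqr X).filter (fun P => P.1 ≤ gam X h i ∧ P.2 ≤ gam X h j)) ≤
      2 * (h * (2 * X + 1)) := by omega
  calc ∑ P ∈ (sqr X).filter (fun P => P.1 ≤ b' ∧ P.2 ≤ c') \ (sqr X).filter (fun P => P.1 ≤ gam X h i ∧ P.2 ≤ gam X h j), |g P| ≤
      ∑ _P ∈ (sqr X).filter (fun P => P.1 ≤ b' ∧ P.2 ≤ c') \ (sqr X).filter (fun P => P.1 ≤ gam X h i ∧ P.2 ≤ gam X h j), (1 : ℝ) :=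
        sum_le_sum fun P _ => hg P
    _ = (#((sqr X).filter (fun P => P.1 ≤ b' ∧ P.2 ≤ c') \ (sqr X).filter (fun P => P.1 ≤ gam X h i ∧ P.2 ≤ gam X h j)) : ℝ) := by simp
    _ ≤ _ := by exact_mod_cast h7

/-- **Rectangles.** -/
theorem rectF (d : ℕ) (hd : 2 ≤ d) (k U K : ℕ) : ∃ C X0 : ℕ, ∀ X : ℕ, X0 ≤ X → ∀ H : ℕ, (X : ℝ) ^ 2 * Real.log X ^ C ≤ H →
    (H : ℝ) ≤ (X : ℝ) ^ K → ∀ A : Fin k → Fin (d + 1) → ℤ, (∀ i j, |(A i j : ℝ)| ≤ H * Real.log X ^ K) →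
    ∀ N : ℕ, (N : ℝ) ≤ Real.log X ^ K → ∀ w : ℕ → ℤ × ℤ → ℝ, (∀ t P, |w t P| ≤ 1) →
    ∃ Bad ⊆ bk d k A H, (#Bad : ℝ) ≤ ((H : ℝ) ^ (d + 1)) ^ k / Real.log X ^ U ∧
      ∀ e ∈ bk d k A H, e ∉ Bad → ∀ t < N, ∀ a b a' b' : ℤ, a ≤ b → a' ≤ b' → ∀ I : Finset (Fin k), I.Nonempty →
        |∑ P ∈ (sqr X).filter (fun P => (a < P.1 ∧ P.1 ≤ b) ∧ (a' < P.2 ∧ P.2 ≤ b')), w t P * ∏ i ∈ I, lam (evf d (e i) P.1 P.2)| ≤
          X ^ 2 / Real.log X ^ U := by
  classical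
  obtain ⟨C, X1, h0⟩ := sysF d hd k (U + 2) (K + 2 * U + 6)
  obtain ⟨n1, h1⟩ := ev_L' 100
  obtain ⟨n2, h2⟩ := evp (U + 2)
  refine ⟨C, max X1 (max n1 (max n2 1)), fun X hX H hH1 hH2 A hA N hN w hw => ?_⟩
  have hX1 : X1 ≤ X := (le_max_left _ _).trans hX
  have a1 := h1 X (((le_max_left _ _).trans (le_max_right _ _)).trans hX)
  have a2 := h2 X (((le_max_left _ _).trans ((le_max_right _ _).trans (le_max_right _ _))).trans hX)
  have hXn : 1 ≤ X := (((le_max_right _ _).trans ((le_max_right _ _).trans (le_max_right _ _)))).trans hX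
  set L := Real.log X with hL
  have hL1 : 1 ≤ L := by linarith
  have hL0 : 0 < L := by linarith
  have hLp : ∀ n : ℕ, 0 < L ^ n := fun n => by positivity
  have hLp1 : ∀ n : ℕ, 1 ≤ L ^ n := fun n => one_le_pow₀ hL1
  have hXr : (1 : ℝ) ≤ X := by exact_mod_cast hXn
  have hX0 : (0 : ℝ) < X := by linarith
  obtain ⟨h, hhd⟩ : ∃ h : ℕ, h = ⌈(X : ℝ) / L ^ (U + 2)⌉₊ := ⟨_, rfl⟩
  have hh1 : (X : ℝ) / L ^ (U + 2) ≤ h := by rw [hhd]; exact Nat.le_ceil _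
  have hXL : (1 : ℝ) ≤ X / L ^ (U + 2) := by rw [le_div_iff₀ (hLp _), one_mul]; exact a2
  have hh2 : (h : ℝ) ≤ 2 * (X / L ^ (U + 2)) := by
    have : (h : ℝ) ≤ X / L ^ (U + 2) + 1 := by rw [hhd]; exact (Nat.ceil_lt_add_one (by positivity)).le
    linarith
  have hh3 : 1 ≤ h := by
    have : (1 : ℝ) ≤ h := hXL.trans hh1
    exact_mod_cast this
  obtain ⟨R, hRd⟩ : ∃ R : ℕ, R = ⌈4 * L ^ (U + 2)⌉₊ := ⟨_, rfl⟩
  have hR1 : 4 * L ^ (U + 2) ≤ R := by rw [hRd]; exact Nat.le_ceil _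
  have hR2 : (R : ℝ) + 1 ≤ L ^ (U + 3) := by
    have e1 : (R : ℝ) ≤ 4 * L ^ (U + 2) + 1 := by rw [hRd]; exact (Nat.ceil_lt_add_one (by positivity)).le
    have e2 : L ^ (U + 3) = L * L ^ (U + 2) := by rw [pow_succ L (U + 2)]; ring
    have e3 := hLp1 (U + 2)
    rw [e2]
    nlinarith
  have hR3 : 2 * X + 1 ≤ R * h := by
    have e1 : 4 * (X : ℝ) ≤ R * h := by
      calc 4 * (X : ℝ) = (4 * L ^ (U + 2)) * (X / L ^ (U + 2)) := by field_simp
        _ ≤ R * h := mul_le_mul hR1 hh1 (by positivity) (Nat.cast_nonneg _)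
    have e2 : 4 * X ≤ R * h := by exact_mod_cast e1
    omega
  set T : Finset (ℕ × ℕ × ℕ) := range N ×ˢ (range (R + 1) ×ˢ range (R + 1)) with hT
  have hTc : (#T : ℝ) ≤ L ^ (K + 2 * U + 6) := by
    rw [hT, card_product, card_product, card_range, card_range]
    push_cast
    calc (N : ℝ) * (((R : ℝ) + 1) * ((R : ℝ) + 1)) ≤ L ^ K * (L ^ (U + 3) * L ^ (U + 3)) := by
          apply mul_le_mul hN _ (by positivity) (by positivity)
          exact mul_le_mul hR2 hR2 (by positivity) (by positivity)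
      _ = _ := by rw [← pow_add, ← pow_add]; congr 1; ring
  set w' : ℕ × ℕ × ℕ → ℤ × ℤ → ℝ := fun τ P => if P.1 ≤ gam X h τ.2.1 ∧ P.2 ≤ gam X h τ.2.2 then w τ.1 P else 0 with hw'
  obtain ⟨Bad, hB1, hB2, hB3⟩ := h0 X hX1 H hH1 (hH2.trans (pow_le_pow_right₀ hXr (by omega))) A
    (fun i j => (hA i j).trans (mul_le_mul_of_nonneg_left (pow_le_pow_right₀ hL1 (by omega)) (Nat.cast_nonneg _)))
    (ℕ × ℕ × ℕ) T hTc w' (fun τ P => by
      rw [hw']
      simp only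
      split_ifs
      · exact hw _ _
      · simp)
  refine ⟨Bad, hB1, ?_, ?_⟩
  · refine hB2.trans ?_
    apply div_le_div_of_nonneg_left (by positivity) (hLp _)
    exact pow_le_pow_right₀ hL1 (by omega)
  · intro e he hbad t ht a b a' b' hab hab' I hI
    set g : ℤ × ℤ → ℝ := fun P => w t P * ∏ i ∈ I, lam (evf d (e i) P.1 P.2) with hg
    have hg1 : ∀ P, |g P| ≤ 1 := by
      intro P
      rw [hg]
      simp only
      rw [abs_mul, abs_prod]
      exact mul_le_one₀ (hw t P) (prod_nonneg fun _ _ => abs_nonneg _) (prod_le_one (fun _ _ => abs_nonneg _) (fun i _ => lam_abs _))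
    have hq : ∀ b c : ℤ, |quad X g b c| ≤ 13 * X ^ 2 / L ^ (U + 2) := by
      intro b c
      obtain ⟨i, hi, j, hj, h3⟩ := quad_grid X h R hh3 hR3 g hg1 b c
      have h4 := hB3 e he hbad (t, i, j) (by
        rw [hT, mem_product, mem_product, mem_range, mem_range, mem_range]
        exact ⟨ht, Nat.lt_succ_of_le hi, Nat.lt_succ_of_le hj⟩) I hI
      have h5 : ∑ P ∈ sqr X, w' (t, i, j) P * ∏ i ∈ I, lam (evf d (e i) P.1 P.2) = quad X g (gam X h i) (gam X h j) := by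
        unfold quad
        rw [sum_filter]
        refine sum_congr rfl fun P _ => ?_
        rw [hw', hg]
        simp only
        split_ifs <;> simp
      rw [h5] at h4
      have h6 : |quad X g b c| ≤ |quad X g (gam X h i) (gam X h j)| + |quad X g b c - quad X g (gam X h i) (gam X h j)| := by
        have := abs_add_le (quad X g (gam X h i) (gam X h j)) (quad X g b c - quad X g (gam X h i) (gam X h j))
        rwa [add_sub_cancel] at this
      have h7 : (2 : ℝ) * (h * (2 * X + 1) : ℕ) ≤ 12 * X ^ 2 / L ^ (U + 2) := by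
        push_cast
        calc (2 : ℝ) * (h * (2 * X + 1)) ≤ 2 * ((2 * (X / L ^ (U + 2))) * (3 * X)) := by
              apply mul_le_mul_of_nonneg_left _ (by norm_num)
              exact mul_le_mul hh2 (by linarith) (by positivity) (by positivity)
          _ = _ := by ring
      have h8 : 13 * (X : ℝ) ^ 2 / L ^ (U + 2) = X ^ 2 / L ^ (U + 2) + 12 * X ^ 2 / L ^ (U + 2) := by ring
      rw [h8]
      linarith
    have h3 : ∑ P ∈ (sqr X).filter (fun P => (a < P.1 ∧ P.1 ≤ b) ∧ (a' < P.2 ∧ P.2 ≤ b')), g P =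
      quad X g b b' - quad X g a b' - quad X g b a' + quad X g a a' := rect_quad X g a b a' b' hab hab'
    rw [h3]
    have q1 := abs_le.1 (hq b b')
    have q2 := abs_le.1 (hq a b')
    have q3 := abs_le.1 (hq b a')
    have q4 := abs_le.1 (hq a a')
    have h4 : 4 * (13 * (X : ℝ) ^ 2 / L ^ (U + 2)) ≤ X ^ 2 / L ^ U := by
      have e1 : 4 * (13 * (X : ℝ) ^ 2 / L ^ (U + 2)) = (52 / L ^ 2) * (X ^ 2 / L ^ U) := by
        rw [pow_add L U 2]
        have := (hLp U).ne'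
        field_simp
        ring
      rw [e1]
      have e2 : (52 : ℝ) / L ^ 2 ≤ 1 := by
        rw [div_le_one (by positivity)]
        nlinarith
      have e3 : 0 ≤ (X : ℝ) ^ 2 / L ^ U := by positivity
      nlinarith
    rw [abs_le]
    constructor <;> linarith

/-- **Products and sign patterns.** -/
theorem final (d : ℕ) (hd : 2 ≤ d) (k U K : ℕ) : ∃ C X0 : ℕ, ∀ X : ℕ, X0 ≤ X → ∀ H : ℕ, (X : ℝ) ^ 2 * Real.log X ^ C ≤ H →
    (H : ℝ) ≤ (X : ℝ) ^ K → ∀ A : Fin k → Fin (d + 1) → ℤ, (∀ i j, |(A i j : ℝ)| ≤ H * Real.log X ^ K) →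
    ∀ N : ℕ, (N : ℝ) ≤ Real.log X ^ K → ∀ w : ℕ → ℤ × ℤ → ℝ, (∀ t P, |w t P| ≤ 1) →
    ∃ Bad ⊆ bk d k A H, (#Bad : ℝ) ≤ ((H : ℝ) ^ (d + 1)) ^ k / Real.log X ^ U ∧
      ∀ e ∈ bk d k A H, e ∉ Bad → ∀ t < N, ∀ a b a' b' : ℤ, a ≤ b → a' ≤ b' →
        (∀ I : Finset (Fin k), I.Nonempty →
          |∑ P ∈ (sqr X).filter (fun P => (a < P.1 ∧ P.1 ≤ b) ∧ (a' < P.2 ∧ P.2 ≤ b')), w t P * ∏ i ∈ I, lam (evf d (e i) P.1 P.2)| ≤
            X ^ 2 / Real.log X ^ U) ∧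
        ∀ ε : Fin k → ℝ, (∀ i, ε i = 1 ∨ ε i = -1) →
          |∑ P ∈ ((sqr X).filter (fun P => (a < P.1 ∧ P.1 ≤ b) ∧ (a' < P.2 ∧ P.2 ≤ b'))).filter
              (fun P => ∀ i, lam (evf d (e i) P.1 P.2) = ε i), w t P -
            (1 / 2) ^ k * ∑ P ∈ (sqr X).filter (fun P => (a < P.1 ∧ P.1 ≤ b) ∧ (a' < P.2 ∧ P.2 ≤ b')), w t P| ≤
            X ^ 2 / Real.log X ^ U := by
  classical
  obtain ⟨C1, X1, h1⟩ := rectF d hd k (U + 1) K
  obtain ⟨C2, X2, h2⟩ := zeroF d k (U + 1)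
  obtain ⟨n1, h3⟩ := ev_L' 10
  refine ⟨max C1 C2, max X1 (max X2 (max n1 1)), fun X hX H hH1 hH2 A hA N hN w hw => ?_⟩
  have hX1 : X1 ≤ X := (le_max_left _ _).trans hX
  have hX2 : X2 ≤ X := ((le_max_left _ _).trans (le_max_right _ _)).trans hX
  have a1 := h3 X (((le_max_left _ _).trans ((le_max_right _ _).trans (le_max_right _ _))).trans hX)
  have hXn : 1 ≤ X := (((le_max_right _ _).trans ((le_max_right _ _).trans (le_max_right _ _)))).trans hX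
  set L := Real.log X with hL
  have hL1 : 1 ≤ L := by linarith
  have hL0 : 0 < L := by linarith
  have hLp : ∀ n : ℕ, 0 < L ^ n := fun n => by positivity
  have hX2p : (0 : ℝ) ≤ (X : ℝ) ^ 2 := by positivity
  have hH1a : (X : ℝ) ^ 2 * L ^ C1 ≤ H := (mul_le_mul_of_nonneg_left (pow_le_pow_right₀ hL1 (le_max_left _ _)) hX2p).trans hH1
  have hH1b : (X : ℝ) ^ 2 * L ^ C2 ≤ H := (mul_le_mul_of_nonneg_left (pow_le_pow_right₀ hL1 (le_max_right _ _)) hX2p).trans hH1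
  obtain ⟨Bad1, b1, b2, b3⟩ := h1 X hX1 H hH1a hH2 A hA N hN w hw
  obtain ⟨Bad2, c1, c2, c3⟩ := h2 X hX2 H hH1b A
  have key : ∀ y : ℝ, 0 ≤ y → y / L ^ (U + 1) ≤ (1 / 2) * (y / L ^ U) := by
    intro y hy
    have e1 : y / L ^ (U + 1) = (1 / L) * (y / L ^ U) := by
      rw [pow_add L U 1, pow_one]
      have := (hLp U).ne'
      field_simp
    rw [e1]
    apply mul_le_mul_of_nonneg_right _ (by positivity)
    exact one_div_le_one_div_of_le (by norm_num) (by linarith)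
  refine ⟨Bad1 ∪ Bad2, union_subset b1 c1, ?_, ?_⟩
  · have h4 : ((#(Bad1 ∪ Bad2) : ℕ) : ℝ) ≤ (#Bad1 : ℝ) + #Bad2 := by exact_mod_cast card_union_le _ _
    have e1 := key (((H : ℝ) ^ (d + 1)) ^ k) (by positivity)
    linarith
  · intro e he hbad t ht a b a' b' hab hab'
    rw [mem_union, not_or] at hbad
    have hprod := b3 e he hbad.1 t ht a b a' b' hab hab'
    have hzero := c3 e he hbad.2
    have hkey := key _ hX2p
    have hyp : 0 ≤ (X : ℝ) ^ 2 / L ^ U := by positivity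
    refine ⟨fun I hI => (hprod I hI).trans (by linarith), fun ε hε => ?_⟩
    set Q := (sqr X).filter (fun P => (a < P.1 ∧ P.1 ≤ b) ∧ (a' < P.2 ∧ P.2 ≤ b')) with hQ
    set g : ℤ × ℤ → ℝ := fun P => (1 / 2) ^ k * ∑ I : Finset (Fin k), ∏ i ∈ I, ε i * lam (evf d (e i) P.1 P.2) with hg
    have e3 : ∑ P ∈ Q.filter (fun P => ∀ i, lam (evf d (e i) P.1 P.2) = ε i), w t P =
        ∑ P ∈ Q, w t P * (if ∀ i, lam (evf d (e i) P.1 P.2) = ε i then (1 : ℝ) else 0) := by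
      rw [sum_filter]
      refine sum_congr rfl fun P _ => ?_
      split_ifs <;> simp
    have e4 : |∑ P ∈ Q, w t P * (if ∀ i, lam (evf d (e i) P.1 P.2) = ε i then (1 : ℝ) else 0) - ∑ P ∈ Q, w t P * g P| ≤
        (#((sqr X).filter (fun P => ∃ i, evf d (e i) P.1 P.2 = 0)) : ℝ) := by
      rw [← sum_sub_distrib]
      calc |∑ P ∈ Q, (w t P * (if ∀ i, lam (evf d (e i) P.1 P.2) = ε i then (1 : ℝ) else 0) - w t P * g P)| ≤
          ∑ P ∈ Q, |w t P * (if ∀ i, lam (evf d (e i) P.1 P.2) = ε i then (1 : ℝ) else 0) - w t P * g P| := abs_sum_le_sum_abs _ _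
        _ ≤ ∑ P ∈ Q, (if ∃ i, evf d (e i) P.1 P.2 = 0 then (1 : ℝ) else 0) := by
            refine sum_le_sum fun P _ => ?_
            rw [← mul_sub, abs_mul]
            split_ifs with c1 c2 c2
            · exfalso
              obtain ⟨j, hj⟩ := c2
              have e5 := c1 j
              rw [hj, lam_zero] at e5
              rcases hε j with h | h <;> rw [h] at e5 <;> norm_num at e5
            · have e5 := ind_expand (fun i => lam (evf d (e i) P.1 P.2)) ε (fun i => lam_ne _ (fun h => c2 ⟨i, h⟩)) hε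
              rw [if_pos c1] at e5
              rw [hg]
              simp only
              rw [← e5]
              simp
            · rw [zero_sub, abs_neg]
              exact mul_le_one₀ (hw t P) (abs_nonneg _) (ind_bound _ ε (fun i => lam_abs _) hε)
            · have e5 := ind_expand (fun i => lam (evf d (e i) P.1 P.2)) ε (fun i => lam_ne _ (fun h => c2 ⟨i, h⟩)) hε
              rw [if_neg c1] at e5
              rw [hg]
              simp only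
              rw [← e5]
              simp
        _ ≤ ∑ P ∈ sqr X, (if ∃ i, evf d (e i) P.1 P.2 = 0 then (1 : ℝ) else 0) :=
            sum_le_sum_of_subset_of_nonneg (filter_subset _ _) (fun _ _ _ => by split_ifs <;> norm_num)
        _ = _ := by rw [card_filter]; push_cast; rfl
    have e5 : ∑ P ∈ Q, w t P * g P = (1 / 2) ^ k * ∑ I : Finset (Fin k), (∏ i ∈ I, ε i) * ∑ P ∈ Q, w t P * ∏ i ∈ I, lam (evf d (e i) P.1 P.2) := by
      rw [hg]
      simp only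
      simp_rw [prod_mul_distrib, mul_sum]
      rw [sum_comm]
      refine sum_congr rfl fun I _ => sum_congr rfl fun m _ => ?_
      ring
    have e6 : ∑ I : Finset (Fin k), (∏ i ∈ I, ε i) * ∑ P ∈ Q, w t P * ∏ i ∈ I, lam (evf d (e i) P.1 P.2) =
        ∑ P ∈ Q, w t P + ∑ I ∈ univ.erase (∅ : Finset (Fin k)), (∏ i ∈ I, ε i) * ∑ P ∈ Q, w t P * ∏ i ∈ I, lam (evf d (e i) P.1 P.2) := by
      rw [← add_sum_erase univ _ (mem_univ (∅ : Finset (Fin k)))]
      simp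
    have e7 : |∑ I ∈ univ.erase (∅ : Finset (Fin k)), (∏ i ∈ I, ε i) * ∑ P ∈ Q, w t P * ∏ i ∈ I, lam (evf d (e i) P.1 P.2)| ≤
        2 ^ k * (X ^ 2 / L ^ (U + 1)) := by
      calc |∑ I ∈ univ.erase (∅ : Finset (Fin k)), (∏ i ∈ I, ε i) * ∑ P ∈ Q, w t P * ∏ i ∈ I, lam (evf d (e i) P.1 P.2)| ≤
          ∑ I ∈ univ.erase (∅ : Finset (Fin k)), |(∏ i ∈ I, ε i) * ∑ P ∈ Q, w t P * ∏ i ∈ I, lam (evf d (e i) P.1 P.2)| := abs_sum_le_sum_abs _ _
        _ ≤ ∑ I ∈ univ.erase (∅ : Finset (Fin k)), (X ^ 2 / L ^ (U + 1) : ℝ) := by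
            refine sum_le_sum fun I hI => ?_
            rw [abs_mul, abs_prod]
            have h5 : ∏ i ∈ I, |ε i| = 1 := by
              apply prod_eq_one
              intro i _
              rcases hε i with h | h <;> rw [h] <;> simp
            rw [h5, one_mul]
            exact hprod I (nonempty_iff_ne_empty.2 (mem_erase.1 hI).1)
        _ ≤ ∑ _I : Finset (Fin k), (X ^ 2 / L ^ (U + 1) : ℝ) :=
            sum_le_sum_of_subset_of_nonneg (erase_subset _ _) (fun _ _ _ => by positivity)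
        _ = _ := by rw [sum_const, card_univ, Fintype.card_finset, Fintype.card_fin, nsmul_eq_mul]; push_cast; ring
    rw [e3]
    set B1 := ∑ P ∈ Q, w t P * (if ∀ i, lam (evf d (e i) P.1 P.2) = ε i then (1 : ℝ) else 0) with hB1
    set B2 := ∑ P ∈ Q, w t P * g P with hB2
    set B3 := ∑ I ∈ univ.erase (∅ : Finset (Fin k)), (∏ i ∈ I, ε i) * ∑ P ∈ Q, w t P * ∏ i ∈ I, lam (evf d (e i) P.1 P.2) with hB3
    have e8 : B1 - (1 / 2) ^ k * ∑ P ∈ Q, w t P = (B1 - B2) + (1 / 2) ^ k * B3 := by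
      rw [e5, e6]; ring
    rw [e8]
    refine (abs_add_le _ _).trans ?_
    have e9 : |(1 / 2) ^ k * B3| ≤ X ^ 2 / L ^ (U + 1) := by
      rw [abs_mul, abs_of_nonneg (by positivity : (0 : ℝ) ≤ (1 / 2) ^ k)]
      calc (1 / 2 : ℝ) ^ k * |B3| ≤ (1 / 2) ^ k * (2 ^ k * (X ^ 2 / L ^ (U + 1))) := mul_le_mul_of_nonneg_left e7 (by positivity)
        _ = ((1 / 2 : ℝ) * 2) ^ k * (X ^ 2 / L ^ (U + 1)) := by rw [mul_pow]; ring
        _ = _ := by norm_num
    have f5 := e4.trans hzero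
    linarith

end Pool.Agent.Y868.TF
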