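import Mathlib

/-! Binary forms: small integral forms with given values at two points. -/

set_option autoImplicit false

namespace Pool.Agent.Y868.TF

open Finset

/-- the value of the binary form with the coefficients `c_0, …, c_d` -/
def evn (d : ℕ) (c : ℕ → ℤ) (u v : ℤ) : ℤ := ∑ i ∈ range (d + 1), c i * u ^ i * v ^ (d - i)

lemma evn_add (d : ℕ) (c c' : ℕ → ℤ) (u v : ℤ) : evn d (fun i => c i + c' i) u v = evn d c u v + evn d c' u v := by
  unfold evn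
  rw [← sum_add_distrib]
  exact sum_congr rfl fun i _ => by ring

lemma evn_smul (d : ℕ) (a : ℤ) (c : ℕ → ℤ) (u v : ℤ) : evn d (fun i => a * c i) u v = a * evn d c u v := by
  unfold evn
  rw [mul_sum]
  exact sum_congr rfl fun i _ => by ring

lemma evn_lin (d : ℕ) (c : ℕ → ℤ) (r s : ℤ) : ∃ c' : ℕ → ℤ, ∀ u v, evn (d + 1) c' u v = (r * u + s * v) * evn d c u v := by
  refine ⟨fun i => (if i ≤ d then s * c i else 0) + (if 1 ≤ i then r * c (i - 1) else 0), fun u v => ?_⟩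
  rw [evn_add]
  have h1 : evn (d + 1) (fun i => if i ≤ d then s * c i else 0) u v = s * v * evn d c u v := by
    unfold evn
    rw [sum_range_succ]
    simp only [show ¬ (d + 1 ≤ d) by omega, if_false, zero_mul, add_zero]
    rw [mul_sum]
    refine sum_congr rfl fun i hi => ?_
    rw [mem_range] at hi
    rw [if_pos (by omega), show d + 1 - i = (d - i) + 1 by omega, pow_succ]
    ring
  have h2 : evn (d + 1) (fun i => if 1 ≤ i then r * c (i - 1) else 0) u v = r * u * evn d c u v := by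
    unfold evn
    rw [sum_range_succ']
    simp only [show ¬ (1 ≤ 0) by omega, if_false, zero_mul, add_zero]
    rw [mul_sum]
    refine sum_congr rfl fun i hi => ?_
    rw [if_pos (by omega), Nat.add_sub_cancel, show d + 1 - (i + 1) = d - i by omega, pow_succ]
    ring
  rw [h1, h2]
  ring

lemma pow_form (d : ℕ) (r s : ℤ) : ∃ c : ℕ → ℤ, ∀ u v, evn d c u v = (r * u + s * v) ^ d := by
  induction d with
  | zero => exact ⟨fun _ => 1, fun u v => by simp [evn]⟩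
  | succ d ih =>
    obtain ⟨c, hc⟩ := ih
    obtain ⟨c', hc'⟩ := evn_lin d c r s
    exact ⟨c', fun u v => by rw [hc', hc, pow_succ]; ring⟩

/-- **The values at two primitive points.** -/
lemma attain (d : ℕ) (hd : 1 ≤ d) (u v u' v' : ℤ) (h : IsCoprime u v) (h' : IsCoprime u' v') (δ : ℤ) :
    ∃ c0 : ℤ, ∀ y : ℤ, ∃ c : ℕ → ℤ, evn d c u v = δ ∧ evn d c u' v' = c0 + y * (v * u' - u * v') := by
  obtain ⟨r, s, hrs⟩ := h
  obtain ⟨r', s', hrs'⟩ := h'
  obtain ⟨e, rfl⟩ : ∃ e, d = e + 1 := ⟨d - 1, by omega⟩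
  obtain ⟨c1, hc1⟩ := pow_form (e + 1) r s
  obtain ⟨c2, hc2⟩ := pow_form e r' s'
  obtain ⟨c3, hc3⟩ := evn_lin e c2 v (-u)
  refine ⟨δ * (r * u' + s * v') ^ (e + 1), fun y => ⟨fun i => δ * c1 i + y * c3 i, ?_, ?_⟩⟩
  · rw [evn_add, evn_smul, evn_smul, hc1, hc3, hrs]
    ring
  · rw [evn_add, evn_smul, evn_smul, hc1, hc3, hc2, hrs']
    ring

lemma evn_ite (d j : ℕ) (hj : j ≤ d) (a u v : ℤ) : evn d (fun i => if i = j then a else 0) u v = a * u ^ j * v ^ (d - j) := by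
  unfold evn
  rw [sum_eq_single j]
  · simp
  · intro i _ hij
    simp [hij]
  · intro h
    exact absurd (mem_range.2 (by omega)) h

/-- one step of the division -/
lemma red_step (d : ℕ) (u v u' v' : ℤ) (ha : v * v' ≠ 0) (j : ℕ) (hj : 2 ≤ j) (hjd : j ≤ d) (h : ℕ → ℤ) :
    ∃ h' : ℕ → ℤ, evn d h' u v = evn d h u v ∧ evn d h' u' v' = evn d h u' v' ∧ (∀ i, j < i → h' i = h i) ∧
      |h' j| ≤ |v * v'| := by
  obtain ⟨e, rfl⟩ : ∃ e, j = e + 2 := ⟨j - 2, by omega⟩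
  obtain ⟨f, rfl⟩ : ∃ f, d = e + 2 + f := ⟨d - (e + 2), by omega⟩
  set q : ℤ := h (e + 2) / (v * v') with hq
  set g : ℕ → ℤ := fun i => (if i = e + 2 then v * v' else 0) + ((if i = e + 1 then -(u * v' + u' * v) else 0) +
    (if i = e then u * u' else 0)) with hg
  have hgv : ∀ U V : ℤ, evn (e + 2 + f) g U V = U ^ e * V ^ f * ((v * U - u * V) * (v' * U - u' * V)) := by
    intro U V
    rw [hg, evn_add, evn_add, evn_ite _ _ (by omega), evn_ite _ _ (by omega), evn_ite _ _ (by omega)]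
    rw [show e + 2 + f - (e + 2) = f by omega, show e + 2 + f - (e + 1) = f + 1 by omega, show e + 2 + f - e = f + 2 by omega]
    ring
  refine ⟨fun i => h i + (-q) * g i, ?_, ?_, ?_, ?_⟩
  · rw [evn_add, evn_smul, hgv]; ring
  · rw [evn_add, evn_smul, hgv]; ring
  · intro i hi
    have : g i = 0 := by
      rw [hg]
      simp only
      rw [if_neg (by omega), if_neg (by omega), if_neg (by omega)]
      ring
    simp only [this]
    ring
  · have h1 : g (e + 2) = v * v' := by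
      rw [hg]
      simp only
      rw [if_pos trivial, if_neg (by omega), if_neg (by omega)]
      ring
    simp only [h1]
    have h2 : h (e + 2) + -q * (v * v') = h (e + 2) % (v * v') := by
      rw [Int.emod_def, hq]; ring
    rw [h2, abs_of_nonneg (Int.emod_nonneg _ ha)]
    exact (Int.emod_lt_abs _ ha).le

lemma red_all (d : ℕ) (u v u' v' : ℤ) (ha : v * v' ≠ 0) (h : ℕ → ℤ) (t : ℕ) (ht : t + 1 ≤ d) :
    ∃ h' : ℕ → ℤ, evn d h' u v = evn d h u v ∧ evn d h' u' v' = evn d h u' v' ∧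
      (∀ i, d < i + t → i ≤ d → |h' i| ≤ |v * v'|) := by
  induction t with
  | zero => exact ⟨h, rfl, rfl, fun i h1 h2 => by omega⟩
  | succ t ih =>
    obtain ⟨h1, e1, e2, e3⟩ := ih (by omega)
    obtain ⟨h2, g1, g2, g3, g4⟩ := red_step d u v u' v' ha (d - t) (by omega) (by omega) h1
    refine ⟨h2, g1.trans e1, g2.trans e2, fun i hi hid => ?_⟩
    rcases Nat.lt_or_ge (d - t) i with h5 | h5
    · rw [g3 i h5]
      exact e3 i (by omega) hid
    · have h6 : i = d - t := by omega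
      rw [h6]
      exact g4

/-- reduction of all but two coefficients -/
lemma red (d : ℕ) (hd : 1 ≤ d) (u v u' v' : ℤ) (ha : v * v' ≠ 0) (h : ℕ → ℤ) :
    ∃ h' : ℕ → ℤ, evn d h' u v = evn d h u v ∧ evn d h' u' v' = evn d h u' v' ∧
      (∀ i, 2 ≤ i → i ≤ d → |h' i| ≤ |v * v'|) := by
  obtain ⟨h', h1, h2, h3⟩ := red_all d u v u' v' ha h (d - 1) (by omega)
  exact ⟨h', h1, h2, fun i hi hid => h3 i (by omega) hid⟩

/-- the two last coefficients at one point -/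
lemma two_last (e : ℕ) (h : ℕ → ℤ) (u v : ℤ) (A Y X T : ℝ) (hX : 0 < X) (hT : 1 ≤ T) (hA0 : 0 ≤ A)
    (hu : |(u : ℝ)| ≤ X) (hv : |(v : ℝ)| ≤ X) (hv1 : X / T ≤ |(v : ℝ)|)
    (hA : ∀ i, 2 ≤ i → i ≤ e + 1 → |(h i : ℝ)| ≤ A) (hY : |(evn (e + 1) h u v : ℝ)| ≤ Y) :
    |(h 1 : ℝ) * u + h 0 * v| ≤ (Y + (e + 1) * A * X ^ (e + 1)) * T ^ e / X ^ e := by
  have hT0 : 0 < T := by linarith
  have h1 : (evn (e + 1) h u v : ℝ) = ∑ i ∈ range e, (h (i + 2) : ℝ) * u ^ (i + 2) * v ^ (e + 1 - (i + 2)) +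
      (v : ℝ) ^ e * ((h 1 : ℝ) * u + h 0 * v) := by
    unfold evn
    rw [sum_range_succ', sum_range_succ', show e + 1 - (0 + 1) = e by omega, Nat.sub_zero]
    push_cast
    rw [add_assoc]
    congr 1
    ring
  have h2 : |∑ i ∈ range e, (h (i + 2) : ℝ) * u ^ (i + 2) * v ^ (e + 1 - (i + 2))| ≤ (e + 1) * A * X ^ (e + 1) := by
    calc |∑ i ∈ range e, (h (i + 2) : ℝ) * u ^ (i + 2) * v ^ (e + 1 - (i + 2))| ≤
        ∑ i ∈ range e, |(h (i + 2) : ℝ) * u ^ (i + 2) * v ^ (e + 1 - (i + 2))| := abs_sum_le_sum_abs _ _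
      _ ≤ ∑ _i ∈ range e, A * X ^ (e + 1) := by
          refine sum_le_sum fun i hi => ?_
          rw [mem_range] at hi
          rw [abs_mul, abs_mul, abs_pow, abs_pow, mul_assoc]
          have h3 : |(u : ℝ)| ^ (i + 2) * |(v : ℝ)| ^ (e + 1 - (i + 2)) ≤ X ^ (e + 1) := by
            calc |(u : ℝ)| ^ (i + 2) * |(v : ℝ)| ^ (e + 1 - (i + 2)) ≤ X ^ (i + 2) * X ^ (e + 1 - (i + 2)) :=
                  mul_le_mul (pow_le_pow_left₀ (abs_nonneg _) hu _) (pow_le_pow_left₀ (abs_nonneg _) hv _) (by positivity) (by positivity)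
              _ = X ^ (e + 1) := by rw [← pow_add]; congr 1; omega
          exact mul_le_mul (hA (i + 2) (by omega) (by omega)) h3 (by positivity) hA0
      _ = e * (A * X ^ (e + 1)) := by rw [sum_const, card_range, nsmul_eq_mul]
      _ ≤ (e + 1) * A * X ^ (e + 1) := by
          have : 0 ≤ A * X ^ (e + 1) := by positivity
          nlinarith
  have h3 : |(v : ℝ) ^ e * ((h 1 : ℝ) * u + h 0 * v)| ≤ Y + (e + 1) * A * X ^ (e + 1) := by
    have h4 : (v : ℝ) ^ e * ((h 1 : ℝ) * u + h 0 * v) = (evn (e + 1) h u v : ℝ) -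
        ∑ i ∈ range e, (h (i + 2) : ℝ) * u ^ (i + 2) * v ^ (e + 1 - (i + 2)) := by rw [h1]; ring
    rw [h4]
    refine (abs_sub _ _).trans ?_
    linarith
  rw [abs_mul, abs_pow] at h3
  have h4 : (X / T) ^ e ≤ |(v : ℝ)| ^ e := pow_le_pow_left₀ (by positivity) hv1 e
  have h5 : (X / T) ^ e * |(h 1 : ℝ) * u + h 0 * v| ≤ Y + (e + 1) * A * X ^ (e + 1) :=
    (mul_le_mul_of_nonneg_right h4 (abs_nonneg _)).trans h3
  rw [le_div_iff₀ (by positivity)]
  rw [div_pow, div_mul_eq_mul_div, div_le_iff₀ (by positivity)] at h5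
  linarith

/-- **Cramer.** -/
lemma cramer (e : ℕ) (h : ℕ → ℤ) (u v u' v' : ℤ) (A Y X T : ℝ) (hX : 0 < X) (hT : 1 ≤ T) (hA0 : 0 ≤ A)
    (hu : |(u : ℝ)| ≤ X) (hv : |(v : ℝ)| ≤ X) (hu' : |(u' : ℝ)| ≤ X) (hv' : |(v' : ℝ)| ≤ X)
    (hv1 : X / T ≤ |(v : ℝ)|) (hv1' : X / T ≤ |(v' : ℝ)|) (hk : X ^ 2 / T ≤ |(u : ℝ) * v' - u' * v|)
    (hA : ∀ i, 2 ≤ i → i ≤ e + 1 → |(h i : ℝ)| ≤ A) (hY : |(evn (e + 1) h u v : ℝ)| ≤ Y)
    (hY' : |(evn (e + 1) h u' v' : ℝ)| ≤ Y) :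
    |(h 0 : ℝ)| ≤ 2 * T ^ (e + 1) * (Y + (e + 1) * A * X ^ (e + 1)) / X ^ (e + 1) ∧
    |(h 1 : ℝ)| ≤ 2 * T ^ (e + 1) * (Y + (e + 1) * A * X ^ (e + 1)) / X ^ (e + 1) := by
  have hT0 : 0 < T := by linarith
  have m1 := two_last e h u v A Y X T hX hT hA0 hu hv hv1 hA hY
  have m2 := two_last e h u' v' A Y X T hX hT hA0 hu' hv' hv1' hA hY'
  set M := (Y + (e + 1) * A * X ^ (e + 1)) * T ^ e / X ^ e with hM
  have hM0 : 0 ≤ M := (abs_nonneg _).trans m1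
  have fin : ∀ z : ℝ, |z| * |(u : ℝ) * v' - u' * v| ≤ 2 * X * M →
      |z| ≤ 2 * T ^ (e + 1) * (Y + (e + 1) * A * X ^ (e + 1)) / X ^ (e + 1) := by
    intro z hz
    have h1 : |z| * (X ^ 2 / T) ≤ 2 * X * M := (mul_le_mul_of_nonneg_left hk (abs_nonneg _)).trans hz
    have h2 : |z| ≤ 2 * X * M / (X ^ 2 / T) := by rw [le_div_iff₀ (by positivity)]; exact h1
    refine h2.trans (le_of_eq ?_)
    rw [hM, pow_succ T e, pow_succ X e]
    field_simp
  constructor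
  · apply fin
    rw [← abs_mul]
    have h1 : (h 0 : ℝ) * ((u : ℝ) * v' - u' * v) = ((h 1 : ℝ) * u' + h 0 * v') * u - ((h 1 : ℝ) * u + h 0 * v) * u' := by ring
    rw [h1]
    refine (abs_sub _ _).trans ?_
    rw [abs_mul, abs_mul]
    have e1 := mul_le_mul m2 hu (abs_nonneg _) hM0
    have e2 := mul_le_mul m1 hu' (abs_nonneg _) hM0
    linarith
  · apply fin
    rw [← abs_mul]
    have h1 : (h 1 : ℝ) * ((u : ℝ) * v' - u' * v) = ((h 1 : ℝ) * u + h 0 * v) * v' - ((h 1 : ℝ) * u' + h 0 * v') * v := by ring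
    rw [h1]
    refine (abs_sub _ _).trans ?_
    rw [abs_mul, abs_mul]
    have e1 := mul_le_mul m1 hv' (abs_nonneg _) hM0
    have e2 := mul_le_mul m2 hv (abs_nonneg _) hM0
    linarith

/-- **Small forms with given values.** -/
lemma small_form (d : ℕ) (hd : 1 ≤ d) (u v u' v' : ℤ) (hc : IsCoprime u v) (hc' : IsCoprime u' v') (X T : ℝ) (hX : 0 < X) (hT : 1 ≤ T)
    (hu : |(u : ℝ)| ≤ X) (hv : |(v : ℝ)| ≤ X) (hu' : |(u' : ℝ)| ≤ X) (hv' : |(v' : ℝ)| ≤ X)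
    (hv1 : X / T ≤ |(v : ℝ)|) (hv1' : X / T ≤ |(v' : ℝ)|) (hk : X ^ 2 / T ≤ |(u : ℝ) * v' - u' * v|) (δ : ℤ) :
    ∃ c0 : ℤ, ∀ δ' : ℤ, (u * v' - u' * v) ∣ δ' - c0 → ∀ Y : ℝ, |(δ : ℝ)| ≤ Y → |(δ' : ℝ)| ≤ Y →
      ∃ h : ℕ → ℤ, evn d h u v = δ ∧ evn d h u' v' = δ' ∧
        ∀ i, i ≤ d → |(h i : ℝ)| ≤ X ^ 2 + 2 * T ^ d * (Y + d * X ^ 2 * X ^ d) / X ^ d := by
  have hT0 : 0 < T := by linarith
  obtain ⟨c0, h0⟩ := attain d hd u v u' v' hc hc' δ
  refine ⟨c0, fun δ' hδ' Y hY hY' => ?_⟩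
  obtain ⟨y, hy⟩ := hδ'
  obtain ⟨h1, e1, e2⟩ := h0 (-y)
  have e2' : evn d h1 u' v' = δ' := by rw [e2]; linarith
  have hv0 : (v : ℤ) ≠ 0 := by
    rintro rfl
    have : 0 < X / T := by positivity
    simp at hv1
    linarith
  have hv0' : (v' : ℤ) ≠ 0 := by
    rintro rfl
    have : 0 < X / T := by positivity
    simp at hv1'
    linarith
  obtain ⟨h, g1, g2, g3⟩ := red d hd u v u' v' (mul_ne_zero hv0 hv0') h1
  refine ⟨h, g1.trans e1, g2.trans e2', ?_⟩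
  have hA : ∀ i, 2 ≤ i → i ≤ d → |(h i : ℝ)| ≤ X ^ 2 := by
    intro i h2 h3
    have h4 : |(h i : ℝ)| ≤ |(v : ℝ) * v'| := by exact_mod_cast g3 i h2 h3
    refine h4.trans ?_
    rw [abs_mul, sq]
    exact mul_le_mul hv hv' (abs_nonneg _) hX.le
  obtain ⟨e, rfl⟩ : ∃ e, d = e + 1 := ⟨d - 1, by omega⟩
  have h5 := cramer e h u v u' v' (X ^ 2) Y X T hX hT (by positivity) hu hv hu' hv' hv1 hv1' hk hA
    (by rw [g1, e1]; exact hY) (by rw [g2, e2']; exact hY')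
  have hY0 : 0 ≤ Y := (abs_nonneg _).trans hY
  have h6 : 0 ≤ 2 * T ^ (e + 1) * (Y + ((e : ℝ) + 1) * X ^ 2 * X ^ (e + 1)) / X ^ (e + 1) := by positivity
  intro i hi
  push_cast
  rcases Nat.lt_or_ge i 2 with h7 | h7
  · interval_cases i
    · have := h5.1
      have : 0 ≤ X ^ 2 := by positivity
      linarith
    · have := h5.2
      have : 0 ≤ X ^ 2 := by positivity
      linarith
  · have := hA i h7 hi
    linarith

end Pool.Agent.Y868.TF
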