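import Pool.Agent.Y868.TF.A1

/-! Averages over a box of forms: translation, and the correlation at two points. -/

set_option autoImplicit false

namespace Pool.Agent.Y868.TF

open Finset

/-- the box of coefficients -/
noncomputable def bxA (d : ℕ) (A : Fin (d + 1) → ℤ) (H : ℕ) : Finset (Fin (d + 1) → ℤ) := Fintype.piFinset (fun i => Ioc (A i) (A i + H))

lemma mem_bxA (d : ℕ) (A : Fin (d + 1) → ℤ) (H : ℕ) (c : Fin (d + 1) → ℤ) : c ∈ bxA d A H ↔ ∀ i, A i < c i ∧ c i ≤ A i + H := by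
  unfold bxA
  simp [Fintype.mem_piFinset]

lemma bxA_card (d : ℕ) (A : Fin (d + 1) → ℤ) (H : ℕ) : #(bxA d A H) = H ^ (d + 1) := by
  unfold bxA
  rw [Fintype.card_piFinset]
  simp

/-- the value of the form -/
def evf (d : ℕ) (c : Fin (d + 1) → ℤ) (u v : ℤ) : ℤ := ∑ i : Fin (d + 1), c i * u ^ (i : ℕ) * v ^ (d - i)

lemma evf_add (d : ℕ) (c h : Fin (d + 1) → ℤ) (u v : ℤ) : evf d (fun i => c i + h i) u v = evf d c u v + evf d h u v := by
  unfold evf
  rw [← sum_add_distrib]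
  exact sum_congr rfl fun i _ => by ring

lemma evf_evn (d : ℕ) (h : ℕ → ℤ) (u v : ℤ) : evf d (fun i => h i) u v = evn d h u v := by
  unfold evf evn
  rw [← Fin.sum_univ_eq_sum_range (fun i => h i * u ^ i * v ^ (d - i)) (d + 1)]

lemma evf_abs (d : ℕ) (c : Fin (d + 1) → ℤ) (u v : ℤ) (M X : ℝ) (hM : ∀ i, |(c i : ℝ)| ≤ M) (hM0 : 0 ≤ M) (hu : |(u : ℝ)| ≤ X)
    (hv : |(v : ℝ)| ≤ X) : |(evf d c u v : ℝ)| ≤ (d + 1) * M * X ^ d := by
  have hX : 0 ≤ X := (abs_nonneg _).trans hu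
  unfold evf
  push_cast
  refine (abs_sum_le_sum_abs _ _).trans ?_
  calc ∑ i : Fin (d + 1), |(c i : ℝ) * u ^ (i : ℕ) * v ^ (d - (i : ℕ))| ≤ ∑ _i : Fin (d + 1), M * X ^ d := by
        refine sum_le_sum fun i _ => ?_
        rw [abs_mul, abs_mul, abs_pow, abs_pow, mul_assoc]
        have h3 : |(u : ℝ)| ^ (i : ℕ) * |(v : ℝ)| ^ (d - (i : ℕ)) ≤ X ^ d := by
          calc |(u : ℝ)| ^ (i : ℕ) * |(v : ℝ)| ^ (d - (i : ℕ)) ≤ X ^ (i : ℕ) * X ^ (d - (i : ℕ)) :=
                mul_le_mul (pow_le_pow_left₀ (abs_nonneg _) hu _) (pow_le_pow_left₀ (abs_nonneg _) hv _) (by positivity) (by positivity)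
            _ = X ^ d := by rw [← pow_add]; congr 1; omega
        exact mul_le_mul (hM i) h3 (by positivity) hM0
    _ = _ := by rw [sum_const, card_univ, Fintype.card_fin, nsmul_eq_mul]; push_cast; ring

lemma out_one (a t : ℤ) (H η : ℕ) (ht : |t| ≤ η) : #((Ioc a (a + H)).filter (fun x => x + t ∉ Ioc a (a + H))) ≤ η := by
  rcases le_total 0 t with h | h
  · have h1 : (Ioc a (a + H)).filter (fun x => x + t ∉ Ioc a (a + H)) ⊆ Ioc (a + H - η) (a + H) := by
      intro x hx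
      rw [mem_filter, mem_Ioc, mem_Ioc] at hx
      rw [mem_Ioc]
      rw [abs_of_nonneg h] at ht
      obtain ⟨⟨h2, h3⟩, h4⟩ := hx
      have h5 : a + H < x + t := by
        by_contra hc
        exact h4 ⟨by linarith, by linarith⟩
      exact ⟨by linarith, h3⟩
    refine (card_le_card h1).trans ?_
    rw [Int.card_Ioc]
    omega
  · have h1 : (Ioc a (a + H)).filter (fun x => x + t ∉ Ioc a (a + H)) ⊆ Ioc a (a + η) := by
      intro x hx
      rw [mem_filter, mem_Ioc, mem_Ioc] at hx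
      rw [mem_Ioc]
      rw [abs_of_nonpos h] at ht
      obtain ⟨⟨h2, h3⟩, h4⟩ := hx
      have h5 : x + t ≤ a := by
        by_contra hc
        exact h4 ⟨by linarith, by linarith⟩
      exact ⟨h2, by linarith⟩
    refine (card_le_card h1).trans ?_
    rw [Int.card_Ioc]
    omega

lemma out_card (d : ℕ) (A : Fin (d + 1) → ℤ) (H η : ℕ) (h : Fin (d + 1) → ℤ) (hη : ∀ i, |h i| ≤ η) :
    #((bxA d A H).filter (fun c => (fun i => c i + h i) ∉ bxA d A H)) ≤ (d + 1) * (η * H ^ d) := by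
  classical
  have h1 : (bxA d A H).filter (fun c => (fun i => c i + h i) ∉ bxA d A H) ⊆
      (univ : Finset (Fin (d + 1))).biUnion (fun i => Fintype.piFinset (Function.update (fun j => Ioc (A j) (A j + H)) i
        ((Ioc (A i) (A i + H)).filter (fun x => x + h i ∉ Ioc (A i) (A i + H))))) := by
    intro c hc
    rw [mem_filter, mem_bxA, mem_bxA] at hc
    obtain ⟨h2, h3⟩ := hc
    push Not at h3
    obtain ⟨i, hi⟩ := h3
    rw [mem_biUnion]
    refine ⟨i, mem_univ _, ?_⟩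
    rw [Fintype.mem_piFinset]
    intro j
    by_cases hij : j = i
    · subst hij
      rw [Function.update_self, mem_filter, mem_Ioc, mem_Ioc]
      refine ⟨h2 j, fun h4 => ?_⟩
      have h5 := hi h4.1
      linarith [h4.2]
    · rw [Function.update_of_ne hij, mem_Ioc]
      exact h2 j
  refine (card_le_card h1).trans (card_biUnion_le.trans ?_)
  calc ∑ i : Fin (d + 1), #(Fintype.piFinset (Function.update (fun j => Ioc (A j) (A j + (H : ℤ))) i
        ((Ioc (A i) (A i + H)).filter (fun x => x + h i ∉ Ioc (A i) (A i + H))))) ≤ ∑ _i : Fin (d + 1), η * H ^ d := by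
        refine sum_le_sum fun i _ => ?_
        rw [Fintype.card_piFinset, ← mul_prod_erase univ _ (mem_univ i), Function.update_self]
        have h2 : ∏ j ∈ univ.erase i, #(Function.update (fun j => Ioc (A j) (A j + (H : ℤ))) i
            ((Ioc (A i) (A i + H)).filter (fun x => x + h i ∉ Ioc (A i) (A i + H))) j) = H ^ d := by
          have h3 : ∀ j ∈ univ.erase i, #(Function.update (fun j => Ioc (A j) (A j + (H : ℤ))) i
            ((Ioc (A i) (A i + H)).filter (fun x => x + h i ∉ Ioc (A i) (A i + H))) j) = H := by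
            intro j hj
            rw [Function.update_of_ne (mem_erase.1 hj).1]
            simp
          rw [prod_congr rfl h3, prod_const, card_erase_of_mem (mem_univ i), card_univ, Fintype.card_fin, Nat.add_sub_cancel]
        rw [h2]
        exact Nat.mul_le_mul_right _ (out_one (A i) (h i) H η (hη i))
    _ = _ := by rw [sum_const, card_univ, Fintype.card_fin, smul_eq_mul]

/-- **Translation.** -/
lemma trans (d : ℕ) (A : Fin (d + 1) → ℤ) (H η : ℕ) (h : Fin (d + 1) → ℤ) (hη : ∀ i, |h i| ≤ η) (F : (Fin (d + 1) → ℤ) → ℝ)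
    (hF : ∀ c, |F c| ≤ 1) :
    |∑ c ∈ bxA d A H, F (fun i => c i + h i) - ∑ c ∈ bxA d A H, F c| ≤ 2 * ((d + 1) * (η * H ^ d) : ℕ) := by
  classical
  set φ : (Fin (d + 1) → ℤ) → (Fin (d + 1) → ℤ) := fun c i => c i + h i with hφ
  have hinj : Function.Injective φ := by
    intro a b hab
    funext i
    have := congrFun hab i
    simp only [hφ] at this
    linarith
  set B := bxA d A H with hB
  have h1 : ∑ c ∈ B, F (fun i => c i + h i) = ∑ c ∈ B.image φ, F c := by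
    rw [sum_image (fun a _ b _ hab => hinj hab)]
  rw [h1, ← sum_sdiff_sub_sum_sdiff]
  have h2 : |∑ c ∈ B.image φ \ B, F c| ≤ #((B.filter (fun c => φ c ∉ B))) := by
    calc |∑ c ∈ B.image φ \ B, F c| ≤ ∑ c ∈ B.image φ \ B, |F c| := abs_sum_le_sum_abs _ _
      _ ≤ ∑ _c ∈ B.image φ \ B, (1 : ℝ) := sum_le_sum fun c _ => hF c
      _ = #(B.image φ \ B) := by simp
      _ ≤ #((B.filter (fun c => φ c ∉ B))) := by
          have h3 : B.image φ \ B ⊆ (B.filter (fun c => φ c ∉ B)).image φ := by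
            intro c hc
            rw [mem_sdiff, mem_image] at hc
            obtain ⟨⟨b, hb, rfl⟩, hc2⟩ := hc
            exact mem_image.2 ⟨b, mem_filter.2 ⟨hb, hc2⟩, rfl⟩
          exact_mod_cast (card_le_card h3).trans card_image_le
  have h3 : |∑ c ∈ B \ B.image φ, F c| ≤ #((B.filter (fun c => (fun i => c i + (-h i)) ∉ B))) := by
    calc |∑ c ∈ B \ B.image φ, F c| ≤ ∑ c ∈ B \ B.image φ, |F c| := abs_sum_le_sum_abs _ _
      _ ≤ ∑ _c ∈ B \ B.image φ, (1 : ℝ) := sum_le_sum fun c _ => hF c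
      _ = #(B \ B.image φ) := by simp
      _ ≤ #((B.filter (fun c => (fun i => c i + (-h i)) ∉ B))) := by
          have h3 : B \ B.image φ ⊆ B.filter (fun c => (fun i => c i + (-h i)) ∉ B) := by
            intro c hc
            rw [mem_sdiff] at hc
            refine mem_filter.2 ⟨hc.1, fun h4 => hc.2 (mem_image.2 ⟨_, h4, ?_⟩)⟩
            rw [hφ]
            funext i
            simp
          exact_mod_cast card_le_card h3
  have h4 := out_card d A H η h hη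
  have h5 := out_card d A H η (fun i => -h i) (fun i => by rw [abs_neg]; exact hη i)
  have h4' : (#((B.filter (fun c => φ c ∉ B))) : ℝ) ≤ ((d + 1) * (η * H ^ d) : ℕ) := by exact_mod_cast h4
  have h5' : (#((B.filter (fun c => (fun i => c i + (-h i)) ∉ B))) : ℝ) ≤ ((d + 1) * (η * H ^ d) : ℕ) := by exact_mod_cast h5
  refine (abs_sub _ _).trans ?_
  linarith

lemma class_lower (Y k : ℕ) (hk : 1 ≤ k) (r : ℤ) : Y / k ≤ #((Icc 1 Y).filter (fun j : ℕ => (k : ℤ) ∣ (j : ℤ) - r)) := by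
  have hk0 : (k : ℤ) ≠ 0 := by exact_mod_cast (by omega : k ≠ 0)
  have hkp : (0 : ℤ) < k := by exact_mod_cast (by omega : 0 < k)
  set r0 : ℕ := ((r - 1) % (k : ℤ)).toNat + 1 with hr0
  have h1 : (((r - 1) % (k : ℤ)).toNat : ℤ) = (r - 1) % (k : ℤ) := Int.toNat_of_nonneg (Int.emod_nonneg _ hk0)
  have h2 := Int.emod_lt_of_pos (r - 1) hkp
  have h3 : r0 ≤ k := by
    have : (((r - 1) % (k : ℤ)).toNat : ℤ) < k := by rw [h1]; exact h2
    omega
  have h4 : (k : ℤ) ∣ (r0 : ℤ) - r := by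
    have h5 : (k : ℤ) ∣ (r - 1) - (r - 1) % (k : ℤ) := Int.dvd_self_sub_emod
    have h6 : (r0 : ℤ) - r = -((r - 1) - (r - 1) % (k : ℤ)) := by
      rw [hr0]; push_cast; rw [h1]; ring
    rw [h6]
    exact (dvd_neg).2 h5
  have h5 : (range (Y / k)).image (fun j => j * k + r0) ⊆ (Icc 1 Y).filter (fun j : ℕ => (k : ℤ) ∣ (j : ℤ) - r) := by
    intro n hn
    rw [mem_image] at hn
    obtain ⟨j, hj, rfl⟩ := hn
    rw [mem_range] at hj
    rw [mem_filter, mem_Icc]
    refine ⟨⟨by omega, ?_⟩, ?_⟩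
    · have h6 : (j + 1) * k ≤ (Y / k) * k := Nat.mul_le_mul_right k hj
      have h7 := Nat.div_mul_le_self Y k
      nlinarith
    · push_cast
      have h6 : (j : ℤ) * k + r0 - r = j * k + (r0 - r) := by ring
      rw [h6]
      exact dvd_add (dvd_mul_left _ _) h4
  have h6 : #((range (Y / k)).image (fun j => j * k + r0)) = Y / k := by
    rw [card_image_of_injective, card_range]
    intro a b hab
    simp only at hab
    exact Nat.eq_of_mul_eq_mul_right (by omega : 0 < k) (by omega)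
  rw [← h6]
  exact card_le_card h5

/-- **The correlation at two points.** -/
lemma pair (d : ℕ) (A : Fin (d + 1) → ℤ) (H η Y k : ℕ) (hk : 1 ≤ k) (hY : 2 * k ≤ Y) (u v u' v' : ℤ) (G G' : ℤ → ℝ)
    (hG : ∀ n, |G n| ≤ 1) (hG' : ∀ n, |G' n| ≤ 1) (c0 : ℤ → ℤ)
    (hh : ∀ δ ∈ Icc 1 Y, ∀ δ' ∈ Icc 1 Y, (k : ℤ) ∣ (δ' : ℤ) - c0 δ →
      ∃ h : ℕ → ℤ, evn d h u v = δ ∧ evn d h u' v' = δ' ∧ ∀ i, i ≤ d → |h i| ≤ η) (E : ℝ)
    (hE : ∀ c ∈ bxA d A H, ∀ r : ℤ, |∑ δ' ∈ (Icc 1 Y).filter (fun δ' : ℕ => (k : ℤ) ∣ (δ' : ℤ) - r), G' (evf d c u' v' + δ')| ≤ E) :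
    |∑ c ∈ bxA d A H, G (evf d c u v) * G' (evf d c u' v')| ≤ 2 * ((d + 1) * (η * H ^ d) : ℕ) + H ^ (d + 1) * (2 * k * E / Y) := by
  classical
  set S := ∑ c ∈ bxA d A H, G (evf d c u v) * G' (evf d c u' v') with hS
  set τ : ℝ := 2 * ((d + 1) * (η * H ^ d) : ℕ) with hτ
  set R : ℕ → Finset ℕ := fun δ => (Icc 1 Y).filter (fun δ' : ℕ => (k : ℤ) ∣ (δ' : ℤ) - c0 δ) with hR
  have hk0 : (0 : ℝ) < k := by exact_mod_cast hk
  have hY1 : 1 ≤ Y := by omega
  have hY0 : (0 : ℝ) < Y := by exact_mod_cast hY1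
  -- each translate
  have h1 : ∀ δ ∈ Icc 1 Y, ∀ δ' ∈ R δ, |S - ∑ c ∈ bxA d A H, G (evf d c u v + δ) * G' (evf d c u' v' + δ')| ≤ τ := by
    intro δ hδ δ' hδ'
    rw [hR, mem_filter] at hδ'
    obtain ⟨h, e1, e2, e3⟩ := hh δ hδ δ' hδ'.1 hδ'.2
    have h2 := trans d A H η (fun i => h i) (fun i => e3 i (by omega)) (fun c => G (evf d c u v) * G' (evf d c u' v'))
      (fun c => by rw [abs_mul]; exact mul_le_one₀ (hG _) (abs_nonneg _) (hG' _))
    rw [abs_sub_comm]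
    refine le_trans (le_of_eq ?_) h2
    congr 2
    refine sum_congr rfl fun c _ => ?_
    rw [evf_add, evf_add, evf_evn, evf_evn, e1, e2]
  -- the number of translates
  set n : ℝ := ∑ δ ∈ Icc 1 Y, (#(R δ) : ℝ) with hn
  have hn1 : (Y : ℝ) * (Y / (2 * k)) ≤ n := by
    have h2 : ∀ δ ∈ Icc 1 Y, (Y : ℝ) / (2 * k) ≤ (#(R δ) : ℝ) := by
      intro δ _
      have h3 := class_lower Y k hk (c0 δ)
      have h4 : ((Y / k : ℕ) : ℝ) ≤ (#(R δ) : ℝ) := by exact_mod_cast h3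
      refine le_trans ?_ h4
      have h5 : (Y : ℝ) < (((Y / k : ℕ) : ℝ) + 1) * k := by
        have := Nat.lt_div_mul_add (a := Y) (b := k) (by omega)
        have h6 : (Y : ℝ) < ((Y / k : ℕ) : ℝ) * k + k := by exact_mod_cast this
        linarith
      have h6 : (2 : ℝ) ≤ ((Y / k : ℕ) : ℝ) := by
        have : 2 ≤ Y / k := by rw [Nat.le_div_iff_mul_le (by omega)]; exact hY
        exact_mod_cast this
      rw [div_le_iff₀ (by positivity)]
      nlinarith
    calc (Y : ℝ) * (Y / (2 * k)) = ∑ _δ ∈ Icc 1 Y, (Y : ℝ) / (2 * k) := by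
          rw [sum_const, Nat.card_Icc, nsmul_eq_mul, Nat.add_sub_cancel]
      _ ≤ n := sum_le_sum h2
  have hn0 : 0 < n := lt_of_lt_of_le (by positivity) hn1
  -- the average
  have h2 : |n * S - ∑ δ ∈ Icc 1 Y, ∑ δ' ∈ R δ, ∑ c ∈ bxA d A H, G (evf d c u v + δ) * G' (evf d c u' v' + δ')| ≤ n * τ := by
    have h3 : n * S = ∑ δ ∈ Icc 1 Y, ∑ δ' ∈ R δ, S := by
      rw [hn, sum_mul]
      refine sum_congr rfl fun δ _ => ?_
      rw [sum_const, nsmul_eq_mul]
    rw [h3, ← sum_sub_distrib]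
    refine (abs_sum_le_sum_abs _ _).trans ?_
    rw [hn, sum_mul]
    refine sum_le_sum fun δ hδ => ?_
    rw [← sum_sub_distrib]
    refine (abs_sum_le_sum_abs _ _).trans ?_
    calc ∑ δ' ∈ R δ, |S - ∑ c ∈ bxA d A H, G (evf d c u v + δ) * G' (evf d c u' v' + δ')| ≤ ∑ _δ' ∈ R δ, τ :=
          sum_le_sum fun δ' hδ' => h1 δ hδ δ' hδ'
      _ = _ := by rw [sum_const, nsmul_eq_mul]
  have h3 : |∑ δ ∈ Icc 1 Y, ∑ δ' ∈ R δ, ∑ c ∈ bxA d A H, G (evf d c u v + δ) * G' (evf d c u' v' + δ')| ≤ H ^ (d + 1) * (Y * E) := by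
    have h4 : ∑ δ ∈ Icc 1 Y, ∑ δ' ∈ R δ, ∑ c ∈ bxA d A H, G (evf d c u v + δ) * G' (evf d c u' v' + δ') =
        ∑ c ∈ bxA d A H, ∑ δ ∈ Icc 1 Y, G (evf d c u v + δ) * ∑ δ' ∈ R δ, G' (evf d c u' v' + δ') := by
      rw [sum_comm (s := bxA d A H) (t := Icc 1 Y)]
      refine sum_congr rfl fun δ _ => ?_
      rw [sum_comm]
      refine sum_congr rfl fun c _ => ?_
      rw [mul_sum]
    rw [h4]
    refine (abs_sum_le_sum_abs _ _).trans ?_
    calc ∑ c ∈ bxA d A H, |∑ δ ∈ Icc 1 Y, G (evf d c u v + δ) * ∑ δ' ∈ R δ, G' (evf d c u' v' + δ')| ≤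
        ∑ _c ∈ bxA d A H, (Y : ℝ) * E := by
          refine sum_le_sum fun c hc => (abs_sum_le_sum_abs _ _).trans ?_
          calc ∑ δ ∈ Icc 1 Y, |G (evf d c u v + δ) * ∑ δ' ∈ R δ, G' (evf d c u' v' + δ')| ≤ ∑ _δ ∈ Icc 1 Y, E := by
                refine sum_le_sum fun δ _ => ?_
                rw [abs_mul]
                have h5 := hE c hc (c0 δ)
                calc |G (evf d c u v + δ)| * |∑ δ' ∈ R δ, G' (evf d c u' v' + δ')| ≤ 1 * |∑ δ' ∈ R δ, G' (evf d c u' v' + δ')| :=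
                      mul_le_mul_of_nonneg_right (hG _) (abs_nonneg _)
                  _ = |∑ δ' ∈ R δ, G' (evf d c u' v' + δ')| := one_mul _
                  _ ≤ E := h5
            _ = _ := by rw [sum_const, Nat.card_Icc, nsmul_eq_mul, Nat.add_sub_cancel]
      _ = _ := by rw [sum_const, bxA_card, nsmul_eq_mul]; push_cast; ring
  have h4 : n * |S| ≤ n * τ + H ^ (d + 1) * (Y * E) := by
    rw [← abs_of_pos hn0, ← abs_mul, abs_of_pos hn0]
    have h5 := abs_sub_abs_le_abs_sub (n * S) (∑ δ ∈ Icc 1 Y, ∑ δ' ∈ R δ, ∑ c ∈ bxA d A H, G (evf d c u v + δ) * G' (evf d c u' v' + δ'))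
    linarith
  have hE0 : 0 ≤ (H : ℝ) ^ (d + 1) * (Y * E) := (abs_nonneg _).trans h3
  have h5 : |S| ≤ τ + H ^ (d + 1) * (Y * E) / n := by
    have h6 : |S| * n ≤ (τ + H ^ (d + 1) * (Y * E) / n) * n := by
      rw [add_mul, div_mul_cancel₀ _ hn0.ne']
      linarith
    exact le_of_mul_le_mul_right h6 hn0
  refine h5.trans ?_
  have h6 : (H : ℝ) ^ (d + 1) * (Y * E) / n ≤ H ^ (d + 1) * (Y * E) / (Y * (Y / (2 * k))) :=
    div_le_div_of_nonneg_left hE0 (by positivity) hn1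
  have h7 : (H : ℝ) ^ (d + 1) * (Y * E) / (Y * (Y / (2 * k))) = H ^ (d + 1) * (2 * k * E / Y) := by
    field_simp
  linarith

end Pool.Agent.Y868.TF
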