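import Pool.Agent.Y868.TD.R3
import Pool.Agent.Y868.TF.A2

/-! The Liouville function in intervals and all residue classes, on average over the modulus. -/

set_option autoImplicit false

namespace Pool.Agent.Y868.TF

open Finset Filter
open Pool.Agent.H373R2.T7
open Pool.Agent.Y868.TA Pool.Agent.Y868.TE Pool.Agent.Y868.TD

lemma cs_mod (F : ℕ → ℝ) (Y k a : ℕ) : cs F Y k (a % k) = cs F Y k a := by
  unfold cs
  congr 1
  ext n
  simp only [mem_filter, Nat.ModEq, Nat.mod_mod]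

lemma exists_max (F : ℕ → ℝ) (Y k : ℕ) : ∃ a : ℕ, ∀ b : ℕ, 1 ≤ k → |cs F Y k b| ≤ |cs F Y k a| := by
  rcases Nat.eq_zero_or_pos k with h | h
  · exact ⟨0, fun b hk => by omega⟩
  · obtain ⟨a, _, ha⟩ := exists_max_image (range k) (fun b => |cs F Y k b|) ⟨0, mem_range.2 h⟩
    refine ⟨a, fun b _ => ?_⟩
    rw [← cs_mod F Y k b]
    exact ha _ (mem_range.2 (Nat.mod_lt _ h))

/-- the worst class -/
noncomputable def wc (F : ℕ → ℝ) (Y k : ℕ) : ℕ := (exists_max F Y k).choose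

lemma wc_spec (F : ℕ → ℝ) (Y k b : ℕ) (hk : 1 ≤ k) : |cs F Y k b| ≤ |cs F Y k (wc F Y k)| :=
  (exists_max F Y k).choose_spec b hk

/-- the bound for all prefixes -/
noncomputable def mxE (J H0 k : ℕ) : ℝ := ∑ i ∈ Icc 1 J, |cs lio (i * H0) k (wc lio (i * H0) k)| + ((H0 : ℝ) / k + 1)

lemma mxE_nonneg (J H0 k : ℕ) : 0 ≤ mxE J H0 k := by
  unfold mxE
  have : 0 ≤ ∑ i ∈ Icc 1 J, |cs lio (i * H0) k (wc lio (i * H0) k)| := sum_nonneg fun _ _ => abs_nonneg _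
  positivity

lemma le_mxE (J H0 k b Y : ℕ) (hk : 1 ≤ k) (hH : 1 ≤ H0) (hY : Y ≤ J * H0) : |cs lio Y k b| ≤ mxE J H0 k := by
  refine (grid_class lio 1 J H0 k b Y (fun n _ => lio_abs n) zero_le_one hk hH hY).trans ?_
  unfold mxE
  rw [mul_one]
  exact add_le_add (sum_le_sum fun i _ => wc_spec _ _ _ _ hk) le_rfl

lemma class_filter (Y k : ℕ) (hk : 1 ≤ k) (r : ℤ) :
    (Icc 1 Y).filter (fun j : ℕ => (k : ℤ) ∣ (j : ℤ) - r) = (Icc 1 Y).filter (fun j => j % k = (r % (k : ℤ)).toNat) := by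
  have hkp : (0 : ℤ) < k := by exact_mod_cast (by omega : 0 < k)
  apply filter_congr
  intro j _
  rw [← mem_class k hk r j, Nat.ModEq]
  have h1 : (r % (k : ℤ)).toNat % k = (r % (k : ℤ)).toNat := by
    apply Nat.mod_eq_of_lt
    have h2 := Int.emod_lt_of_pos r hkp
    have h3 := Int.emod_nonneg r hkp.ne'
    omega
  rw [h1]

lemma half (J H0 k Y : ℕ) (hk : 1 ≤ k) (hH : 1 ≤ H0) (e r : ℤ) (h1 : e + Y ≤ ((J * H0 : ℕ) : ℤ)) :
    |∑ j ∈ (Icc 1 Y).filter (fun j : ℕ => (k : ℤ) ∣ (j : ℤ) - r), lio (e + j).toNat| ≤ 2 * mxE J H0 k := by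
  have hkp : (0 : ℤ) < k := by exact_mod_cast (by omega : 0 < k)
  rw [class_filter Y k hk r]
  set r0 := (r % (k : ℤ)).toNat with hr0
  have hr : r0 < k := by
    have h2 := Int.emod_lt_of_pos r hkp
    have h3 := Int.emod_nonneg r hkp.ne'
    omega
  have h2 := prefix_class lio lio_zero e 1 k le_rfl hk r0 hr Y
  simp only [Nat.cast_one, one_mul] at h2
  rw [h2]
  refine (abs_sub _ _).trans ?_
  have h3 := le_mxE J H0 k ((e + r0) % (k : ℤ)).toNat (e + Y).toNat hk hH (by rw [Int.toNat_le]; exact h1)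
  have h4 := le_mxE J H0 k ((e + r0) % (k : ℤ)).toNat e.toNat hk hH (by
    rw [Int.toNat_le]
    have : (0 : ℤ) ≤ Y := Int.natCast_nonneg _
    linarith)
  linarith

/-- the Liouville function in an interval and a class -/
lemma lam_class (J H0 k Y : ℕ) (hk : 1 ≤ k) (hH : 1 ≤ H0) (n r : ℤ) (h1 : |n| + Y ≤ ((J * H0 : ℕ) : ℤ)) :
    |∑ j ∈ (Icc 1 Y).filter (fun j : ℕ => (k : ℤ) ∣ (j : ℤ) - r), lam (n + j)| ≤ 4 * mxE J H0 k := by
  have hY0 : (0 : ℤ) ≤ Y := Int.natCast_nonneg _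
  have h2 : ∑ j ∈ (Icc 1 Y).filter (fun j : ℕ => (k : ℤ) ∣ (j : ℤ) - r), lam (n + j) =
      ∑ j ∈ (Icc 1 Y).filter (fun j : ℕ => (k : ℤ) ∣ (j : ℤ) - r), lio (n + j).toNat +
      ∑ j ∈ (Icc 1 Y).filter (fun j : ℕ => (k : ℤ) ∣ (j : ℤ) - ((Y : ℤ) + 1 - r)), lio ((-n - Y - 1) + j).toNat := by
    have h3 : ∑ j ∈ (Icc 1 Y).filter (fun j : ℕ => (k : ℤ) ∣ (j : ℤ) - ((Y : ℤ) + 1 - r)), lio ((-n - Y - 1) + j).toNat =
        ∑ j ∈ (Icc 1 Y).filter (fun j : ℕ => (k : ℤ) ∣ (j : ℤ) - r), lio (-(n + j)).toNat := by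
      apply sum_nbij' (fun j => Y + 1 - j) (fun j => Y + 1 - j)
      · intro j hj
        rw [mem_filter, mem_Icc] at hj ⊢
        refine ⟨by omega, ?_⟩
        have h4 : (((Y + 1 - j : ℕ)) : ℤ) = Y + 1 - j := by omega
        rw [h4]
        have h5 : ((Y : ℤ) + 1 - j) - r = -((j : ℤ) - ((Y : ℤ) + 1 - r)) := by ring
        rw [h5]
        exact (dvd_neg).2 hj.2
      · intro j hj
        rw [mem_filter, mem_Icc] at hj ⊢
        refine ⟨by omega, ?_⟩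
        have h4 : (((Y + 1 - j : ℕ)) : ℤ) = Y + 1 - j := by omega
        rw [h4]
        have h5 : ((Y : ℤ) + 1 - j) - ((Y : ℤ) + 1 - r) = -((j : ℤ) - r) := by ring
        rw [h5]
        exact (dvd_neg).2 hj.2
      · intro j hj
        rw [mem_filter, mem_Icc] at hj
        omega
      · intro j hj
        rw [mem_filter, mem_Icc] at hj
        omega
      · intro j hj
        rw [mem_filter, mem_Icc] at hj
        have h4 : (((Y + 1 - j : ℕ)) : ℤ) = Y + 1 - j := by omega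
        rw [h4]
        congr 2
        ring
    rw [h3, ← sum_add_distrib]
    exact sum_congr rfl fun j _ => lam_split _
  rw [h2]
  refine (abs_add_le _ _).trans ?_
  have h3 := half J H0 k Y hk hH n r (by linarith [le_abs_self n])
  have h4 := half J H0 k Y hk hH (-n - Y - 1) ((Y : ℤ) + 1 - r) (by linarith [neg_abs_le n, le_abs_self n])
  linarith

/-- **The average over the modulus.** -/
theorem mxE_sum (U : ℕ) : ∃ B Y0 : ℕ, ∀ J H0 K : ℕ, Y0 ≤ H0 → 1 ≤ J → (K : ℝ) ≤ Real.sqrt H0 / Real.log (J * H0 : ℕ) ^ B →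
    ∑ k ∈ Icc 1 K, mxE J H0 k ≤ J * ((J * H0 : ℕ) / Real.log H0 ^ U) + H0 * (1 + Real.log K) + K := by
  obtain ⟨B, Y1, h⟩ := bv_all U
  refine ⟨B, max Y1 3, fun J H0 K hH hJ hK => ?_⟩
  have hY1 : Y1 ≤ H0 := (le_max_left _ _).trans hH
  have hH3 : 3 ≤ H0 := (le_max_right _ _).trans hH
  have hH0 : (0 : ℝ) < H0 := by exact_mod_cast (by omega : 0 < H0)
  have hH3r : (3 : ℝ) ≤ H0 := by exact_mod_cast hH3
  have hlH : 1 ≤ Real.log H0 := by
    rw [Real.le_log_iff_exp_le hH0]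
    exact (Real.exp_one_lt_d9.le.trans (by norm_num)).trans hH3r
  have h1 : ∀ i ∈ Icc 1 J, ∑ k ∈ Icc 1 K, |cs lio (i * H0) k (wc lio (i * H0) k)| ≤ (J * H0 : ℕ) / Real.log H0 ^ U := by
    intro i hi
    rw [mem_Icc] at hi
    have hi1 : H0 ≤ i * H0 := Nat.le_mul_of_pos_left _ hi.1
    have hi1r : (H0 : ℝ) ≤ ((i * H0 : ℕ) : ℝ) := by exact_mod_cast hi1
    have hi2 : ((i * H0 : ℕ) : ℝ) ≤ ((J * H0 : ℕ) : ℝ) := by exact_mod_cast Nat.mul_le_mul_right H0 hi.2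
    have hl1 : Real.log H0 ≤ Real.log (i * H0 : ℕ) := Real.log_le_log hH0 hi1r
    have hl2 : Real.log (i * H0 : ℕ) ≤ Real.log (J * H0 : ℕ) := Real.log_le_log (hH0.trans_le hi1r) hi2
    have h2 := h (i * H0) (hY1.trans hi1) K ?_ (fun k => wc lio (i * H0) k)
    · refine h2.trans ?_
      calc ((i * H0 : ℕ) : ℝ) / Real.log (i * H0 : ℕ) ^ U ≤ (J * H0 : ℕ) / Real.log (i * H0 : ℕ) ^ U :=
            div_le_div_of_nonneg_right hi2 (by positivity)
        _ ≤ _ := div_le_div_of_nonneg_left (Nat.cast_nonneg _) (by positivity) (pow_le_pow_left₀ (by linarith) hl1 _)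
    · refine hK.trans ?_
      calc Real.sqrt H0 / Real.log (J * H0 : ℕ) ^ B ≤ Real.sqrt (i * H0 : ℕ) / Real.log (J * H0 : ℕ) ^ B := by
            apply div_le_div_of_nonneg_right (Real.sqrt_le_sqrt hi1r)
            have : 0 ≤ Real.log (J * H0 : ℕ) := by linarith
            positivity
        _ ≤ _ := by
            apply div_le_div_of_nonneg_left (Real.sqrt_nonneg _)
            · have : 0 < Real.log (i * H0 : ℕ) := by linarith
              positivity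
            · exact pow_le_pow_left₀ (by linarith) hl2 _
  unfold mxE
  rw [sum_add_distrib, sum_comm, sum_add_distrib]
  have h2 : ∑ i ∈ Icc 1 J, ∑ k ∈ Icc 1 K, |cs lio (i * H0) k (wc lio (i * H0) k)| ≤ J * ((J * H0 : ℕ) / Real.log H0 ^ U) := by
    refine (sum_le_sum h1).trans (le_of_eq ?_)
    rw [sum_const, Nat.card_Icc, nsmul_eq_mul, Nat.add_sub_cancel]
  have h3 : ∑ k ∈ Icc 1 K, (H0 : ℝ) / k ≤ H0 * (1 + Real.log K) := by
    have h4 := harm_le K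
    calc ∑ k ∈ Icc 1 K, (H0 : ℝ) / k = H0 * ∑ k ∈ Icc 1 K, 1 / (k : ℝ) := by
          rw [mul_sum]
          exact sum_congr rfl fun k _ => by ring
      _ ≤ _ := mul_le_mul_of_nonneg_left h4 hH0.le
  have h4 : ∑ _k ∈ Icc 1 K, (1 : ℝ) = K := by simp
  rw [h4]
  linarith

end Pool.Agent.Y868.TF
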