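import Pool.Agent.Y868.TF.A3

/-! Pairs of points: counting, and the bound for a good pair. -/

set_option autoImplicit false

namespace Pool.Agent.Y868.TF

open Finset Filter
open Pool.Agent.H373R2.T7
open Pool.Agent.Y868.TA Pool.Agent.Y868.TE Pool.Agent.Y868.TD

/-- the square of points -/
noncomputable def sqr (X : ℕ) : Finset (ℤ × ℤ) := Icc (-(X : ℤ)) X ×ˢ Icc (-(X : ℤ)) X

lemma mem_sqr (X : ℕ) (P : ℤ × ℤ) : P ∈ sqr X ↔ |P.1| ≤ X ∧ |P.2| ≤ X := by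
  unfold sqr
  rw [mem_product, mem_Icc, mem_Icc, abs_le, abs_le]

lemma sqr_card (X : ℕ) : #(sqr X) = (2 * X + 1) ^ 2 := by
  unfold sqr
  rw [card_product, Int.card_Icc]
  have : ((X : ℤ) + 1 - -(X : ℤ)).toNat = 2 * X + 1 := by omega
  rw [this, sq]

/-- the determinant -/
def det (P Q : ℤ × ℤ) : ℤ := P.1 * Q.2 - Q.1 * P.2

lemma det_le (X : ℕ) (P Q : ℤ × ℤ) (hP : P ∈ sqr X) (hQ : Q ∈ sqr X) : (det P Q).natAbs ≤ 2 * X ^ 2 := by
  rw [mem_sqr] at hP hQ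
  have h1 : |det P Q| ≤ 2 * (X : ℤ) ^ 2 := by
    unfold det
    refine (abs_sub _ _).trans ?_
    rw [abs_mul, abs_mul]
    have hX : (0 : ℤ) ≤ X := Int.natCast_nonneg _
    have e1 := mul_le_mul hP.1 hQ.2 (abs_nonneg _) hX
    have e2 := mul_le_mul hQ.1 hP.2 (abs_nonneg _) hX
    nlinarith
  have h2 : (((det P Q).natAbs : ℕ) : ℤ) ≤ ((2 * X ^ 2 : ℕ) : ℤ) := by
    rw [Int.natCast_natAbs]
    push_cast
    exact h1
  exact_mod_cast h2

/-- the points at a given determinant -/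
lemma det_count (X T0 : ℕ) (P : ℤ × ℤ) (hc : IsCoprime P.1 P.2) (h0 : P.1 ≠ 0) (hT : (X : ℤ) ≤ T0 * |P.1|) (κ : ℤ) :
    #((sqr X).filter (fun Q => det P Q = κ)) ≤ 2 * T0 + 1 := by
  classical
  set S := (sqr X).filter (fun Q => det P Q = κ) with hS
  rcases S.eq_empty_or_nonempty with he | hne
  · rw [he]; simp
  obtain ⟨Q0, hQ0, hmin⟩ := exists_min_image S (fun Q => Q.1) hne
  have hPpos : 0 < |P.1| := abs_pos.2 h0
  have key : ∀ Q ∈ S, |P.1| ∣ Q.1 - Q0.1 := by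
    intro Q hQ
    rw [hS, mem_filter] at hQ hQ0
    rw [abs_dvd]
    have h1 : P.1 * (Q.2 - Q0.2) = (Q.1 - Q0.1) * P.2 := by
      have h2 := hQ.2
      have h3 := hQ0.2
      unfold det at h2 h3
      linarith
    have h2 : P.1 ∣ (Q.1 - Q0.1) * P.2 := ⟨_, h1.symm⟩
    exact hc.dvd_of_dvd_mul_right h2
  have hcard : #S ≤ #(range (2 * T0 + 1)) := by
    apply card_le_card_of_injOn (fun Q => ((Q.1 - Q0.1) / |P.1|).toNat)
    · intro Q hQ
      rw [mem_coe] at hQ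
      have h1 := key Q hQ
      have h2 := hmin Q hQ
      have hQ' := hQ
      rw [hS, mem_filter, mem_sqr] at hQ' 
      have hQ0' := hQ0
      rw [hS, mem_filter, mem_sqr] at hQ0'
      have h3 : Q.1 - Q0.1 ≤ 2 * X := by
        have := (abs_le.1 hQ'.1.1).2
        have := (abs_le.1 hQ0'.1.1).1
        linarith
      rw [coe_range, Set.mem_Iio]
      have h4 : (Q.1 - Q0.1) / |P.1| ≤ 2 * T0 := by
        apply Int.ediv_le_of_le_mul hPpos
        nlinarith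
      show ((Q.1 - Q0.1) / |P.1|).toNat < 2 * T0 + 1
      omega
    · intro Q hQ Q' hQ' heq
      rw [mem_coe] at hQ hQ'
      simp only at heq
      have h1 := key Q hQ
      have h1' := key Q' hQ'
      have h2 := hmin Q hQ
      have h2' := hmin Q' hQ'
      have h3 : 0 ≤ (Q.1 - Q0.1) / |P.1| := Int.ediv_nonneg (by linarith) hPpos.le
      have h3' : 0 ≤ (Q'.1 - Q0.1) / |P.1| := Int.ediv_nonneg (by linarith) hPpos.le
      have h4 : (Q.1 - Q0.1) / |P.1| = (Q'.1 - Q0.1) / |P.1| := by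
        have e1 := Int.toNat_of_nonneg h3
        have e2 := Int.toNat_of_nonneg h3'
        rw [← e1, ← e2, heq]
      have h5 : Q.1 - Q0.1 = Q'.1 - Q0.1 := by
        rw [← Int.ediv_mul_cancel h1, ← Int.ediv_mul_cancel h1', h4]
      have h6 : Q.1 = Q'.1 := by linarith
      rw [hS, mem_filter] at hQ hQ'
      have h7 := hQ.2
      have h8 := hQ'.2
      unfold det at h7 h8
      rw [h6] at h7
      have h9 : P.1 * Q.2 = P.1 * Q'.2 := by linarith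
      exact Prod.ext h6 (mul_left_cancel₀ h0 h9)
  rwa [card_range] at hcard

/-- grouping by the determinant -/
lemma det_sum (X T0 : ℕ) (P : ℤ × ℤ) (hP : P ∈ sqr X) (hc : IsCoprime P.1 P.2) (h0 : P.1 ≠ 0) (hT : (X : ℤ) ≤ T0 * |P.1|)
    (f : ℕ → ℝ) (hf : ∀ k, 0 ≤ f k) :
    ∑ Q ∈ sqr X, f (det P Q).natAbs ≤ (2 * T0 + 1) * (f 0 + 2 * ∑ k ∈ Icc 1 (2 * X ^ 2), f k) := by
  classical
  have h1 : ∑ Q ∈ sqr X, f (det P Q).natAbs = ∑ k ∈ range (2 * X ^ 2 + 1), ∑ Q ∈ (sqr X).filter (fun Q => (det P Q).natAbs = k), f (det P Q).natAbs := by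
    symm
    apply sum_fiberwise_of_maps_to
    intro Q hQ
    rw [mem_range]
    have := det_le X P Q hP hQ
    omega
  rw [h1]
  have h2 : ∀ k : ℕ, (#((sqr X).filter (fun Q => (det P Q).natAbs = k)) : ℝ) ≤ 2 * (2 * T0 + 1) := by
    intro k
    have h3 : (sqr X).filter (fun Q => (det P Q).natAbs = k) ⊆
        (sqr X).filter (fun Q => det P Q = k) ∪ (sqr X).filter (fun Q => det P Q = -(k : ℤ)) := by
      intro Q hQ
      rw [mem_filter] at hQ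
      rw [mem_union, mem_filter, mem_filter]
      rcases Int.natAbs_eq (det P Q) with h | h
      · left; exact ⟨hQ.1, by rw [h, hQ.2]⟩
      · right; exact ⟨hQ.1, by rw [h, hQ.2]⟩
    have h4 := (card_le_card h3).trans (card_union_le _ _)
    have h5 := det_count X T0 P hc h0 hT k
    have h6 := det_count X T0 P hc h0 hT (-(k : ℤ))
    have h7 : #((sqr X).filter (fun Q => (det P Q).natAbs = k)) ≤ 2 * (2 * T0 + 1) := by omega
    exact_mod_cast h7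
  have h3 : (#((sqr X).filter (fun Q => (det P Q).natAbs = 0)) : ℝ) ≤ 2 * T0 + 1 := by
    have h4 : (sqr X).filter (fun Q => (det P Q).natAbs = 0) = (sqr X).filter (fun Q => det P Q = 0) := by
      apply filter_congr
      intro Q _
      exact Int.natAbs_eq_zero
    rw [h4]
    exact_mod_cast det_count X T0 P hc h0 hT 0
  have h4 : ∀ k, ∑ Q ∈ (sqr X).filter (fun Q => (det P Q).natAbs = k), f (det P Q).natAbs =
      (#((sqr X).filter (fun Q => (det P Q).natAbs = k)) : ℝ) * f k := by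
    intro k
    rw [← nsmul_eq_mul, ← sum_const]
    refine sum_congr rfl fun Q hQ => ?_
    rw [(mem_filter.1 hQ).2]
  simp_rw [h4]
  have h5 : range (2 * X ^ 2 + 1) = insert 0 (Icc 1 (2 * X ^ 2)) := by
    ext n; simp only [mem_range, mem_insert, mem_Icc]; omega
  rw [h5, sum_insert (by simp)]
  have h6 : ∑ k ∈ Icc 1 (2 * X ^ 2), (#((sqr X).filter (fun Q => (det P Q).natAbs = k)) : ℝ) * f k ≤
      2 * (2 * T0 + 1) * ∑ k ∈ Icc 1 (2 * X ^ 2), f k := by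
    rw [mul_sum]
    exact sum_le_sum fun k _ => mul_le_mul_of_nonneg_right (h2 k) (hf k)
  have h7 := mul_le_mul_of_nonneg_right h3 (hf 0)
  linarith

/-- **A good pair.** -/
lemma pair_good (d : ℕ) (hd : 1 ≤ d) (A : Fin (d + 1) → ℤ) (H η Y X J H0 : ℕ) (hX : 1 ≤ X) (hH0 : 1 ≤ H0) (M T : ℝ) (hT : 1 ≤ T)
    (hM : ∀ c ∈ bxA d A H, ∀ i, |(c i : ℝ)| ≤ M) (hM0 : 0 ≤ M)
    (hN : (d + 1) * M * X ^ d + Y ≤ ((J * H0 : ℕ) : ℝ))
    (hη : (X : ℝ) ^ 2 + 2 * T ^ d * (Y + d * X ^ 2 * X ^ d) / X ^ d ≤ η)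
    (P Q : ℤ × ℤ) (hP : P ∈ sqr X) (hQ : Q ∈ sqr X) (hPc : IsCoprime P.1 P.2) (hQc : IsCoprime Q.1 Q.2)
    (hP2 : X / T ≤ |(P.2 : ℝ)|) (hQ2 : X / T ≤ |(Q.2 : ℝ)|) (hk : (X : ℝ) ^ 2 / T ≤ (det P Q).natAbs)
    (hY : 2 * (det P Q).natAbs ≤ Y) :
    |∑ c ∈ bxA d A H, lam (evf d c P.1 P.2) * lam (evf d c Q.1 Q.2)| ≤ 2 * ((d + 1) * (η * H ^ d) : ℕ) +
      H ^ (d + 1) * (2 * (det P Q).natAbs * (4 * mxE J H0 (det P Q).natAbs) / Y) := by
  have hX0 : (0 : ℝ) < X := by exact_mod_cast hX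
  have hT0 : 0 < T := by linarith
  have hk0 : (0 : ℝ) < ((det P Q).natAbs : ℕ) := lt_of_lt_of_le (by positivity) hk
  have hk1 : 1 ≤ (det P Q).natAbs := by
    have : 0 < (det P Q).natAbs := by exact_mod_cast hk0
    omega
  rw [mem_sqr] at hP hQ
  have b1 : |(P.1 : ℝ)| ≤ X := by exact_mod_cast hP.1
  have b2 : |(P.2 : ℝ)| ≤ X := by exact_mod_cast hP.2
  have b3 : |(Q.1 : ℝ)| ≤ X := by exact_mod_cast hQ.1
  have b4 : |(Q.2 : ℝ)| ≤ X := by exact_mod_cast hQ.2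
  have hk' : (X : ℝ) ^ 2 / T ≤ |(P.1 : ℝ) * Q.2 - Q.1 * P.2| := by
    have h1 : (((det P Q).natAbs : ℕ) : ℝ) = |(P.1 : ℝ) * Q.2 - Q.1 * P.2| := by
      rw [Nat.cast_natAbs]
      unfold det
      push_cast
      rfl
    rw [← h1]
    exact hk
  have h1 := fun δ : ℤ => small_form d hd P.1 P.2 Q.1 Q.2 hPc hQc X T hX0 hT b1 b2 b3 b4 hP2 hQ2 hk' δ
  choose c0 hc0 using h1
  refine pair d A H η Y (det P Q).natAbs hk1 hY P.1 P.2 Q.1 Q.2 lam lam lam_abs lam_abs c0 ?_ (4 * mxE J H0 (det P Q).natAbs) ?_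
  · intro δ hδ δ' hδ' hdvd
    rw [mem_Icc] at hδ hδ'
    have hdvd' : (P.1 * Q.2 - Q.1 * P.2) ∣ (δ' : ℤ) - c0 δ := by
      have h2 := Int.natAbs_dvd.1 hdvd
      exact h2
    have h2 : |((δ : ℤ) : ℝ)| ≤ Y := by
      rw [abs_of_nonneg (by positivity)]
      exact_mod_cast hδ.2
    have h3 : |((δ' : ℤ) : ℝ)| ≤ Y := by
      rw [abs_of_nonneg (by positivity)]
      exact_mod_cast hδ'.2
    obtain ⟨h, e1, e2, e3⟩ := hc0 δ δ' hdvd' Y h2 h3
    refine ⟨h, e1, e2, fun i hi => ?_⟩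
    have h4 := (e3 i hi).trans hη
    exact_mod_cast h4
  · intro c hc r
    apply lam_class J H0 _ Y hk1 hH0
    have h2 := evf_abs d c Q.1 Q.2 M X (hM c hc) hM0 b3 b4
    have h3 : ((|evf d c Q.1 Q.2| + (Y : ℤ) : ℤ) : ℝ) ≤ (((J * H0 : ℕ) : ℤ) : ℝ) := by
      push_cast
      push_cast at hN
      linarith
    exact_mod_cast h3

end Pool.Agent.Y868.TF
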