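import Pool.Agent.Y868.TF.A4

/-! The second moment over the box, for the points with coprime coordinates. -/

set_option autoImplicit false

namespace Pool.Agent.Y868.TF

open Finset Filter
open Pool.Agent.H373R2.T7
open Pool.Agent.Y868.TA Pool.Agent.Y868.TE Pool.Agent.Y868.TD

open Classical in
/-- the points with coprime coordinates -/
noncomputable def prm (X : ℕ) : Finset (ℤ × ℤ) := (sqr X).filter (fun P => IsCoprime P.1 P.2)

/-- points away from the axes -/
def gd (X T0 : ℕ) (P : ℤ × ℤ) : Prop := (X : ℤ) ≤ T0 * |P.1| ∧ (X : ℤ) ≤ T0 * |P.2|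

open Classical in
lemma bad_points (X T0 : ℕ) (hT : 1 ≤ T0) : #((sqr X).filter (fun P => ¬ gd X T0 P)) ≤ 2 * ((2 * X + 1) * (2 * (X / T0) + 1)) := by
  set m : ℤ := ((X / T0 : ℕ) : ℤ) with hm
  have h0 : ∀ z : ℤ, ¬ (X : ℤ) ≤ T0 * |z| → |z| ≤ m := by
    intro z hz
    push Not at hz
    have h1 : z.natAbs ≤ X / T0 := by
      rw [Nat.le_div_iff_mul_le (by omega)]
      have h2 : ((z.natAbs : ℕ) : ℤ) = |z| := Int.natCast_natAbs z
      have h3 : ((z.natAbs * T0 : ℕ) : ℤ) ≤ (X : ℤ) := by push_cast; linarith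
      exact_mod_cast h3
    rw [hm, Int.abs_eq_natAbs]
    exact_mod_cast h1
  have h1 : (sqr X).filter (fun P => ¬ gd X T0 P) ⊆ (Icc (-m) m ×ˢ Icc (-(X : ℤ)) X) ∪ (Icc (-(X : ℤ)) X ×ˢ Icc (-m) m) := by
    intro P hP
    rw [mem_filter, mem_sqr] at hP
    obtain ⟨⟨h2, h3⟩, h4⟩ := hP
    unfold gd at h4
    rw [mem_union, mem_product, mem_product, mem_Icc, mem_Icc, mem_Icc, mem_Icc]
    rw [abs_le] at h2 h3
    by_cases h5 : (X : ℤ) ≤ T0 * |P.1|
    · right
      have h6 := abs_le.1 (h0 P.2 (fun h7 => h4 ⟨h5, h7⟩))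
      exact ⟨h2, h6⟩
    · left
      have h6 := abs_le.1 (h0 P.1 h5)
      exact ⟨h6, h3⟩
  refine (card_le_card h1).trans ((card_union_le _ _).trans ?_)
  rw [card_product, card_product, Int.card_Icc, Int.card_Icc]
  have e1 : (m + 1 - -m).toNat = 2 * (X / T0) + 1 := by rw [hm]; omega
  have e2 : ((X : ℤ) + 1 - -(X : ℤ)).toNat = 2 * X + 1 := by omega
  rw [e1, e2]
  apply le_of_eq
  ring

lemma sq_expand {α β : Type*} (B : Finset α) (S : Finset β) (w : β → ℝ) (hw : ∀ P, |w P| ≤ 1) (g : α → β → ℝ) :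
    ∑ c ∈ B, (∑ P ∈ S, w P * g c P) ^ 2 ≤ ∑ P ∈ S, ∑ Q ∈ S, |∑ c ∈ B, g c P * g c Q| := by
  have h1 : ∑ c ∈ B, (∑ P ∈ S, w P * g c P) ^ 2 = ∑ P ∈ S, ∑ Q ∈ S, w P * w Q * ∑ c ∈ B, g c P * g c Q := by
    simp_rw [sq, sum_mul_sum, mul_sum]
    rw [sum_comm]
    refine sum_congr rfl fun P _ => ?_
    rw [sum_comm]
    refine sum_congr rfl fun Q _ => sum_congr rfl fun c _ => ?_
    ring
  rw [h1]
  refine sum_le_sum fun P _ => sum_le_sum fun Q _ => ?_
  refine (le_abs_self _).trans ?_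
  rw [abs_mul, abs_mul]
  have h2 : |w P| * |w Q| ≤ 1 := mul_le_one₀ (hw P) (abs_nonneg _) (hw Q)
  calc |w P| * |w Q| * |∑ c ∈ B, g c P * g c Q| ≤ 1 * |∑ c ∈ B, g c P * g c Q| := mul_le_mul_of_nonneg_right h2 (abs_nonneg _)
    _ = _ := one_mul _

/-- **The second moment.** -/
theorem moment (d : ℕ) (hd : 1 ≤ d) (A : Fin (d + 1) → ℤ) (H η Y X J H0 T0 : ℕ) (hX : 1 ≤ X) (hH0 : 1 ≤ H0) (hT : 1 ≤ T0) (hTX : T0 ≤ X)
    (M : ℝ) (hM : ∀ c ∈ bxA d A H, ∀ i, |(c i : ℝ)| ≤ M) (hM0 : 0 ≤ M)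
    (hN : (d + 1) * M * X ^ d + Y ≤ ((J * H0 : ℕ) : ℝ))
    (hη : (X : ℝ) ^ 2 + 2 * ((T0 : ℝ) ^ 2) ^ d * (Y + d * X ^ 2 * X ^ d) / X ^ d ≤ η) (hY : 4 * X ^ 2 ≤ Y)
    (w : ℤ × ℤ → ℝ) (hw : ∀ P, |w P| ≤ 1) :
    ∑ c ∈ bxA d A H, (∑ P ∈ prm X, w P * lam (evf d c P.1 P.2)) ^ 2 ≤
      H ^ (d + 1) * X ^ 4 * (405 / T0 + 864 * T0 * (∑ k ∈ Icc 1 (2 * X ^ 2), mxE J H0 k) / Y) + 162 * (d + 1) * η * H ^ d * X ^ 4 := by
  classical
  refine (sq_expand (bxA d A H) (prm X) w hw (fun c P => lam (evf d c P.1 P.2))).trans ?_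
  have hX0 : (0 : ℝ) < X := by exact_mod_cast hX
  have hX1 : (1 : ℝ) ≤ X := by exact_mod_cast hX
  have hT0 : (0 : ℝ) < T0 := by exact_mod_cast hT
  have hT1 : (1 : ℝ) ≤ T0 := by exact_mod_cast hT
  have hTXr : (T0 : ℝ) ≤ X := by exact_mod_cast hTX
  have hYn : 1 ≤ Y := by nlinarith
  have hY0 : (0 : ℝ) < Y := by exact_mod_cast hYn
  set S1 := ∑ k ∈ Icc 1 (2 * X ^ 2), mxE J H0 k with hS1
  have hS10 : 0 ≤ S1 := sum_nonneg fun _ _ => mxE_nonneg _ _ _
  set f : ℕ → ℝ := fun k => (if T0 ^ 2 * k < X ^ 2 then 1 else 0) + 2 * k * (4 * mxE J H0 k) / Y with hf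
  have hf0 : ∀ k, 0 ≤ f k := by
    intro k
    rw [hf]
    simp only
    have := mxE_nonneg J H0 k
    split_ifs <;> positivity
  set τ : ℝ := 2 * ((d + 1) * (η * H ^ d) : ℕ) with hτ
  have hτ0 : 0 ≤ τ := by positivity
  have hCard : (#(bxA d A H) : ℝ) = (H : ℝ) ^ (d + 1) := by rw [bxA_card]; push_cast; rfl
  have triv : ∀ P Q : ℤ × ℤ, |∑ c ∈ bxA d A H, lam (evf d c P.1 P.2) * lam (evf d c Q.1 Q.2)| ≤ (H : ℝ) ^ (d + 1) := by
    intro P Q
    refine (abs_sum_le_sum_abs _ _).trans ?_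
    calc ∑ c ∈ bxA d A H, |lam (evf d c P.1 P.2) * lam (evf d c Q.1 Q.2)| ≤ ∑ _c ∈ bxA d A H, (1 : ℝ) := by
          refine sum_le_sum fun c _ => ?_
          rw [abs_mul]
          exact mul_le_one₀ (lam_abs _) (abs_nonneg _) (lam_abs _)
      _ = _ := by rw [sum_const, nsmul_eq_mul, hCard, mul_one]
  -- the bound for every pair
  have hpair : ∀ P ∈ prm X, ∀ Q ∈ prm X, |∑ c ∈ bxA d A H, lam (evf d c P.1 P.2) * lam (evf d c Q.1 Q.2)| ≤
      (H : ℝ) ^ (d + 1) * ((if ¬ gd X T0 P then 1 else 0) + (if ¬ gd X T0 Q then 1 else 0)) +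
      (if gd X T0 P then (H : ℝ) ^ (d + 1) * f (det P Q).natAbs else 0) + τ := by
    intro P hP Q hQ
    unfold prm at hP hQ
    rw [mem_filter] at hP hQ
    have hHp : (0 : ℝ) ≤ (H : ℝ) ^ (d + 1) := by positivity
    by_cases hgP : gd X T0 P
    · by_cases hgQ : gd X T0 Q
      · rw [if_neg (not_not.2 hgP), if_neg (not_not.2 hgQ), if_pos hgP]
        rw [add_zero, mul_zero, zero_add]
        by_cases hk : T0 ^ 2 * (det P Q).natAbs < X ^ 2
        · have h1 : (1 : ℝ) ≤ f (det P Q).natAbs := by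
            rw [hf]
            simp only
            rw [if_pos hk]
            have := mxE_nonneg J H0 (det P Q).natAbs
            have : 0 ≤ 2 * ((det P Q).natAbs : ℝ) * (4 * mxE J H0 (det P Q).natAbs) / Y := by positivity
            linarith
          have h2 := triv P Q
          have h3 := mul_le_mul_of_nonneg_left h1 hHp
          linarith
        · push Not at hk
          have hkr : (X : ℝ) ^ 2 ≤ (T0 : ℝ) ^ 2 * (det P Q).natAbs := by exact_mod_cast hk
          have h1 : X / (T0 : ℝ) ^ 2 ≤ |(P.2 : ℝ)| := by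
            rw [div_le_iff₀ (by positivity)]
            have h2 : (X : ℝ) ≤ T0 * |(P.2 : ℝ)| := by exact_mod_cast hgP.2
            have h3 : (T0 : ℝ) * |(P.2 : ℝ)| ≤ T0 ^ 2 * |(P.2 : ℝ)| := by
              apply mul_le_mul_of_nonneg_right _ (abs_nonneg _)
              nlinarith
            linarith
          have h1' : X / (T0 : ℝ) ^ 2 ≤ |(Q.2 : ℝ)| := by
            rw [div_le_iff₀ (by positivity)]
            have h2 : (X : ℝ) ≤ T0 * |(Q.2 : ℝ)| := by exact_mod_cast hgQ.2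
            have h3 : (T0 : ℝ) * |(Q.2 : ℝ)| ≤ T0 ^ 2 * |(Q.2 : ℝ)| := by
              apply mul_le_mul_of_nonneg_right _ (abs_nonneg _)
              nlinarith
            linarith
          have h2 : (X : ℝ) ^ 2 / (T0 : ℝ) ^ 2 ≤ (det P Q).natAbs := by
            rw [div_le_iff₀ (by positivity)]
            linarith
          have h3 := det_le X P Q hP.1 hQ.1
          have h4 := pair_good d hd A H η Y X J H0 hX hH0 M ((T0 : ℝ) ^ 2) (one_le_pow₀ hT1) hM hM0 hN hη P Q hP.1 hQ.1 hP.2 hQ.2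
            h1 h1' h2 (by omega)
          have h5 : 2 * ((det P Q).natAbs : ℝ) * (4 * mxE J H0 (det P Q).natAbs) / Y ≤ f (det P Q).natAbs := by
            rw [hf]
            simp only
            split_ifs <;> linarith
          have h6 := mul_le_mul_of_nonneg_left h5 hHp
          linarith
      · rw [if_pos hgQ]
        have h1 := triv P Q
        have h2 : 0 ≤ (H : ℝ) ^ (d + 1) * f (det P Q).natAbs := mul_nonneg hHp (hf0 _)
        have h3 : (H : ℝ) ^ (d + 1) * 1 ≤ (H : ℝ) ^ (d + 1) * ((if ¬ gd X T0 P then 1 else 0) + 1) := by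
          apply mul_le_mul_of_nonneg_left _ hHp
          split_ifs <;> norm_num
        have h4 : 0 ≤ (if gd X T0 P then (H : ℝ) ^ (d + 1) * f (det P Q).natAbs else 0) := by
          split_ifs
          · exact h2
        linarith
    · rw [if_pos hgP, if_neg hgP]
      have h1 := triv P Q
      have h3 : (H : ℝ) ^ (d + 1) * 1 ≤ (H : ℝ) ^ (d + 1) * (1 + (if ¬ gd X T0 Q then 1 else 0)) := by
        apply mul_le_mul_of_nonneg_left _ hHp
        split_ifs <;> norm_num
      linarith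
  have hsub : prm X ⊆ sqr X := filter_subset _ _
  have hN2 : (#(prm X) : ℝ) ≤ (2 * X + 1) ^ 2 := by
    have h1 := card_le_card hsub
    rw [sqr_card] at h1
    exact_mod_cast h1
  have hN2' : ((2 : ℝ) * X + 1) ^ 2 ≤ 9 * X ^ 2 := by nlinarith
  -- the sum of the indicator
  have hbad : ∑ P ∈ prm X, (if ¬ gd X T0 P then (1 : ℝ) else 0) ≤ 18 * X ^ 2 / T0 := by
    have h1 : ∑ P ∈ prm X, (if ¬ gd X T0 P then (1 : ℝ) else 0) ≤ ∑ P ∈ sqr X, (if ¬ gd X T0 P then (1 : ℝ) else 0) :=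
      sum_le_sum_of_subset_of_nonneg hsub (fun _ _ _ => by split_ifs <;> norm_num)
    refine h1.trans ?_
    have h2 : ∑ P ∈ sqr X, (if ¬ gd X T0 P then (1 : ℝ) else 0) = (#((sqr X).filter (fun P => ¬ gd X T0 P)) : ℝ) := by
      rw [card_filter]; push_cast; rfl
    rw [h2]
    have h3 := bad_points X T0 hT
    have h4 : (#((sqr X).filter (fun P => ¬ gd X T0 P)) : ℝ) ≤ 2 * ((2 * X + 1) * (2 * ((X / T0 : ℕ) : ℝ) + 1)) := by exact_mod_cast h3
    refine h4.trans ?_
    have h5 : ((X / T0 : ℕ) : ℝ) ≤ X / T0 := Nat.cast_div_le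
    have h6 : (1 : ℝ) ≤ X / T0 := by rw [le_div_iff₀ hT0]; linarith
    have h7 : 2 * ((X / T0 : ℕ) : ℝ) + 1 ≤ 3 * (X / T0) := by linarith
    calc 2 * ((2 * (X : ℝ) + 1) * (2 * ((X / T0 : ℕ) : ℝ) + 1)) ≤ 2 * ((3 * X) * (3 * (X / T0))) := by
          apply mul_le_mul_of_nonneg_left _ (by norm_num)
          exact mul_le_mul (by linarith) h7 (by positivity) (by positivity)
      _ = _ := by ring
  -- the grouped sum
  have hgroup : ∀ P ∈ prm X, ∑ Q ∈ prm X, (if gd X T0 P then (H : ℝ) ^ (d + 1) * f (det P Q).natAbs else 0) ≤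
      (H : ℝ) ^ (d + 1) * (9 * (X ^ 2 / T0) + 96 * T0 * X ^ 2 * S1 / Y) := by
    intro P hP
    have hRHS : 0 ≤ (H : ℝ) ^ (d + 1) * (9 * (X ^ 2 / T0) + 96 * T0 * X ^ 2 * S1 / Y) := by positivity
    by_cases hgP : gd X T0 P
    · simp_rw [if_pos hgP]
      rw [← mul_sum]
      apply mul_le_mul_of_nonneg_left _ (by positivity)
      have hP' := hP
      unfold prm at hP'
      rw [mem_filter] at hP'
      have hP1 : P.1 ≠ 0 := by
        intro h1
        have h2 := hgP.1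
        rw [h1] at h2
        simp at h2
        omega
      calc ∑ Q ∈ prm X, f (det P Q).natAbs ≤ ∑ Q ∈ sqr X, f (det P Q).natAbs :=
            sum_le_sum_of_subset_of_nonneg hsub (fun _ _ _ => hf0 _)
        _ ≤ (2 * T0 + 1) * (f 0 + 2 * ∑ k ∈ Icc 1 (2 * X ^ 2), f k) := det_sum X T0 P hP'.1 hP'.2 hP1 hgP.1 f hf0
        _ ≤ (3 * T0) * (1 + 2 * (X ^ 2 / T0 ^ 2 + 16 * X ^ 2 * S1 / Y)) := by
            have e1 : f 0 = 1 := by
              rw [hf]
              simp only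
              rw [if_pos (by rw [mul_zero]; positivity)]
              simp
            have e2 : ∑ k ∈ Icc 1 (2 * X ^ 2), f k ≤ X ^ 2 / T0 ^ 2 + 16 * X ^ 2 * S1 / Y := by
              rw [hf, sum_add_distrib]
              apply add_le_add
              · have e3 : ∑ k ∈ Icc 1 (2 * X ^ 2), (if T0 ^ 2 * k < X ^ 2 then (1 : ℝ) else 0) =
                    (#((Icc 1 (2 * X ^ 2)).filter (fun k => T0 ^ 2 * k < X ^ 2)) : ℝ) := by
                  rw [card_filter]; push_cast; rfl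
                rw [e3]
                have e4 : (Icc 1 (2 * X ^ 2)).filter (fun k => T0 ^ 2 * k < X ^ 2) ⊆ Icc 1 (X ^ 2 / T0 ^ 2) := by
                  intro k hk
                  rw [mem_filter, mem_Icc] at hk
                  rw [mem_Icc]
                  refine ⟨hk.1.1, ?_⟩
                  rw [Nat.le_div_iff_mul_le (by positivity)]
                  have := hk.2
                  rw [mul_comm] at this
                  exact this.le
                have e5 := card_le_card e4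
                rw [Nat.card_Icc, Nat.add_sub_cancel] at e5
                have e6 : (#((Icc 1 (2 * X ^ 2)).filter (fun k => T0 ^ 2 * k < X ^ 2)) : ℝ) ≤ ((X ^ 2 / T0 ^ 2 : ℕ) : ℝ) := by exact_mod_cast e5
                refine e6.trans (Nat.cast_div_le.trans ?_)
                push_cast
                exact le_rfl
              · rw [hS1, mul_sum, sum_div]
                refine sum_le_sum fun k hk => ?_
                rw [mem_Icc] at hk
                apply div_le_div_of_nonneg_right _ hY0.le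
                have e3 : (k : ℝ) ≤ 2 * X ^ 2 := by exact_mod_cast hk.2
                have e4 := mxE_nonneg J H0 k
                nlinarith
            rw [e1]
            apply mul_le_mul _ _ (by
              have : 0 ≤ ∑ k ∈ Icc 1 (2 * X ^ 2), f k := sum_nonneg fun _ _ => hf0 _
              linarith) (by positivity)
            · linarith
            · linarith
        _ = 3 * T0 + 6 * (X ^ 2 / T0) + 96 * T0 * X ^ 2 * S1 / Y := by
            field_simp
            ring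
        _ ≤ 9 * (X ^ 2 / T0) + 96 * T0 * X ^ 2 * S1 / Y := by
            have e1 : (T0 : ℝ) ≤ X ^ 2 / T0 := by
              rw [le_div_iff₀ hT0]
              nlinarith
            linarith
    · simp_rw [if_neg hgP]
      rw [sum_const_zero]
      exact hRHS
  have hHp : (0 : ℝ) ≤ (H : ℝ) ^ (d + 1) := by positivity
  calc ∑ P ∈ prm X, ∑ Q ∈ prm X, |∑ c ∈ bxA d A H, lam (evf d c P.1 P.2) * lam (evf d c Q.1 Q.2)|
      ≤ ∑ P ∈ prm X, ∑ Q ∈ prm X, ((H : ℝ) ^ (d + 1) * ((if ¬ gd X T0 P then 1 else 0) + (if ¬ gd X T0 Q then 1 else 0)) +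
          (if gd X T0 P then (H : ℝ) ^ (d + 1) * f (det P Q).natAbs else 0) + τ) :=
        sum_le_sum fun P hP => sum_le_sum fun Q hQ => hpair P hP Q hQ
    _ = (H : ℝ) ^ (d + 1) * (∑ P ∈ prm X, (if ¬ gd X T0 P then (1 : ℝ) else 0) * (#(prm X) : ℝ) +
          #(prm X) * ∑ Q ∈ prm X, (if ¬ gd X T0 Q then (1 : ℝ) else 0)) +
          ∑ P ∈ prm X, ∑ Q ∈ prm X, (if gd X T0 P then (H : ℝ) ^ (d + 1) * f (det P Q).natAbs else 0) + #(prm X) * (#(prm X) * τ) := by
        simp_rw [sum_add_distrib]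
        congr 1
        · congr 1
          simp_rw [← mul_sum, sum_add_distrib, sum_const, nsmul_eq_mul]
          congr 2
          exact sum_congr rfl fun P _ => by ring
        · simp_rw [sum_const, nsmul_eq_mul]
    _ ≤ (H : ℝ) ^ (d + 1) * ((18 * X ^ 2 / T0) * (9 * X ^ 2) + (9 * X ^ 2) * (18 * X ^ 2 / T0)) +
          (9 * X ^ 2) * ((H : ℝ) ^ (d + 1) * (9 * (X ^ 2 / T0) + 96 * T0 * X ^ 2 * S1 / Y)) + (9 * X ^ 2) * ((9 * X ^ 2) * τ) := by
        have hb0 : 0 ≤ ∑ P ∈ prm X, (if ¬ gd X T0 P then (1 : ℝ) else 0) := sum_nonneg fun _ _ => by split_ifs <;> norm_num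
        have hpr : (#(prm X) : ℝ) ≤ 9 * X ^ 2 := hN2.trans hN2'
        apply add_le_add
        · apply add_le_add
          · apply mul_le_mul_of_nonneg_left _ hHp
            apply add_le_add
            · rw [← sum_mul]
              exact mul_le_mul hbad hpr (by positivity) (by positivity)
            · exact mul_le_mul hpr hbad hb0 (by positivity)
          · calc ∑ P ∈ prm X, ∑ Q ∈ prm X, (if gd X T0 P then (H : ℝ) ^ (d + 1) * f (det P Q).natAbs else 0) ≤
                ∑ _P ∈ prm X, (H : ℝ) ^ (d + 1) * (9 * (X ^ 2 / T0) + 96 * T0 * X ^ 2 * S1 / Y) := sum_le_sum hgroup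
              _ = #(prm X) * ((H : ℝ) ^ (d + 1) * (9 * (X ^ 2 / T0) + 96 * T0 * X ^ 2 * S1 / Y)) := by rw [sum_const, nsmul_eq_mul]
              _ ≤ _ := mul_le_mul_of_nonneg_right hpr (by positivity)
        · exact mul_le_mul hpr (mul_le_mul_of_nonneg_right hpr hτ0) (by positivity) (by positivity)
    _ ≤ _ := by
        rw [hτ]
        push_cast
        have e1 : (H : ℝ) ^ (d + 1) * ((18 * X ^ 2 / T0) * (9 * X ^ 2) + (9 * X ^ 2) * (18 * X ^ 2 / T0)) +
          (9 * X ^ 2) * ((H : ℝ) ^ (d + 1) * (9 * (X ^ 2 / T0) + 96 * T0 * X ^ 2 * S1 / Y)) =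
          H ^ (d + 1) * X ^ 4 * (405 / T0 + 864 * T0 * S1 / Y) := by
          field_simp
          ring
        rw [e1]
        apply le_of_eq
        ring

end Pool.Agent.Y868.TF
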