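import Pool.Agent.Y868.TF.A5

/-! The second moment: choice of the parameters. -/

set_option autoImplicit false

namespace Pool.Agent.Y868.TF

open Finset Filter
open Pool.Agent.H373R2.T7
open Pool.Agent.Y868.TA Pool.Agent.Y868.TE Pool.Agent.Y868.TD

/-- numerics for `η` -/
lemma numEta (d cc A1 C : ℕ) (hA1 : A1 = 2 * cc * d + cc + 2) (hC : 2 * cc * d + cc + 3 ≤ C) (L X H Y T0 η : ℝ)
    (hL : 4 + 2 * (d : ℝ) ≤ L) (hX : 1 ≤ X) (hH : X ^ 2 * L ^ C ≤ H) (hT0 : 0 ≤ T0) (hT : T0 ≤ L ^ cc)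
    (hY0 : 0 ≤ Y) (hY : Y ≤ H * X ^ d / L ^ A1) (hη : η ≤ X ^ 2 + 2 * (T0 ^ 2) ^ d * (Y + d * X ^ 2 * X ^ d) / X ^ d + 1) :
    η ≤ H / L ^ (cc + 1) := by
  have hd0 : (0 : ℝ) ≤ d := Nat.cast_nonneg _
  have hL1 : 1 ≤ L := by linarith
  have hL0 : 0 < L := by linarith
  have hX0 : 0 < X := by linarith
  have hLp : ∀ n : ℕ, 0 < L ^ n := fun n => by positivity
  have hH0 : 0 < H := lt_of_lt_of_le (by positivity) hH
  have e1 : (T0 ^ 2) ^ d ≤ L ^ (2 * cc * d) := by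
    calc (T0 ^ 2) ^ d ≤ ((L ^ cc) ^ 2) ^ d := pow_le_pow_left₀ (by positivity) (pow_le_pow_left₀ hT0 hT 2) d
      _ = L ^ (2 * cc * d) := by rw [← pow_mul, ← pow_mul]; congr 1; ring
  have e2 : (Y + d * X ^ 2 * X ^ d) / X ^ d ≤ H / L ^ A1 + d * X ^ 2 := by
    rw [div_le_iff₀ (by positivity)]
    have : (H / L ^ A1 + d * X ^ 2) * X ^ d = H * X ^ d / L ^ A1 + d * X ^ 2 * X ^ d := by ring
    rw [this]
    linarith
  have e3 : X ^ 2 ≤ H / L ^ C := by rw [le_div_iff₀ (hLp _)]; exact hH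
  have e4 : X ^ 2 * L ^ (2 * cc * d) ≤ H / L ^ (cc + 2) := by
    rw [le_div_iff₀ (hLp _)]
    calc X ^ 2 * L ^ (2 * cc * d) * L ^ (cc + 2) = X ^ 2 * L ^ (2 * cc * d + (cc + 2)) := by rw [pow_add]; ring
      _ ≤ X ^ 2 * L ^ C := mul_le_mul_of_nonneg_left (pow_le_pow_right₀ hL1 (by omega)) (by positivity)
      _ ≤ H := hH
  have e5 : X ^ 2 ≤ H / L ^ (cc + 2) := by
    refine le_trans ?_ e4
    exact le_mul_of_one_le_right (by positivity) (one_le_pow₀ hL1)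
  have e6 : L ^ (2 * cc * d) * (H / L ^ A1) = H / L ^ (cc + 2) := by
    rw [hA1, show 2 * cc * d + cc + 2 = 2 * cc * d + (cc + 2) by ring, pow_add]
    field_simp
  have e7 : 2 * (T0 ^ 2) ^ d * (Y + d * X ^ 2 * X ^ d) / X ^ d ≤ 2 * (H / L ^ (cc + 2)) + 2 * d * (H / L ^ (cc + 2)) := by
    calc 2 * (T0 ^ 2) ^ d * (Y + d * X ^ 2 * X ^ d) / X ^ d = 2 * (T0 ^ 2) ^ d * ((Y + d * X ^ 2 * X ^ d) / X ^ d) := by ring
      _ ≤ 2 * L ^ (2 * cc * d) * (H / L ^ A1 + d * X ^ 2) := by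
          apply mul_le_mul (by linarith) e2 (by positivity) (by positivity)
      _ = 2 * (L ^ (2 * cc * d) * (H / L ^ A1)) + 2 * d * (X ^ 2 * L ^ (2 * cc * d)) := by ring
      _ ≤ _ := by
          rw [e6]
          have := mul_le_mul_of_nonneg_left e4 (by positivity : (0 : ℝ) ≤ 2 * d)
          linarith
  have e8 : (1 : ℝ) ≤ X ^ 2 := one_le_pow₀ hX
  have e9 : η ≤ (4 + 2 * d) * (H / L ^ (cc + 2)) := by
    have : (4 + 2 * (d : ℝ)) * (H / L ^ (cc + 2)) = 2 * (H / L ^ (cc + 2)) + (2 * (H / L ^ (cc + 2)) + 2 * d * (H / L ^ (cc + 2))) := by ring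
    rw [this]
    linarith
  refine e9.trans ?_
  calc (4 + 2 * (d : ℝ)) * (H / L ^ (cc + 2)) ≤ L * (H / L ^ (cc + 2)) := mul_le_mul_of_nonneg_right hL (by positivity)
    _ = H / L ^ (cc + 1) := by
        rw [pow_succ L (cc + 1)]
        field_simp

/-- numerics for the average -/
lemma numS1 (d cc A1 K K3 U1 C : ℕ) (hK3 : K3 = 2 * cc + K + A1 + 6) (hU1 : U1 = K3 + K + A1 + 2 * cc + 3)
    (hC : 2 * cc + A1 + 3 ≤ C) (L X H W Z Y T0 S1 JH H0 J lH lX : ℝ) (hL : 30000 * ((2 * (d : ℝ)) + 3) ≤ L) (hX : 1 ≤ X)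
    (hH : L ^ C ≤ H) (hZ : Z = H * X ^ d) (hX2 : X ^ 2 ≤ X ^ d) (hW : W = (2 * d + 3) * L ^ K * Z) (hT0 : 0 ≤ T0) (hT : T0 ≤ L ^ cc)
    (hY : Z / (2 * L ^ A1) ≤ Y) (hJ0 : 0 ≤ J) (hJ : J ≤ L ^ K3) (hJH : JH ≤ 2 * W) (hH0' : 0 ≤ H0) (hH0 : H0 ≤ 3 * W / L ^ K3)
    (hlH : L ≤ lH) (hlX : 1 + lX ≤ 4 * L) (hS : S1 ≤ J * (JH / lH ^ U1) + H0 * (1 + lX) + 2 * X ^ 2) :
    864 * T0 * S1 / Y ≤ 1 / L ^ (cc + 1) := by
  have hd0 : (0 : ℝ) ≤ d := Nat.cast_nonneg _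
  have hL1 : 1 ≤ L := by linarith
  have hL0 : 0 < L := by linarith
  have hX0 : 0 < X := by linarith
  have hLp : ∀ n : ℕ, 0 < L ^ n := fun n => by positivity
  have hHp : 0 < H := (hLp C).trans_le hH
  have hZ0 : 0 < Z := by rw [hZ]; positivity
  have hW0 : 0 < W := by rw [hW]; positivity
  have hY0 : 0 < Y := lt_of_lt_of_le (by positivity) hY
  have hlU : L ^ U1 ≤ lH ^ U1 := pow_le_pow_left₀ hL0.le hlH _
  have s1 : J * (JH / lH ^ U1) ≤ L ^ K3 * (2 * W / L ^ U1) := by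
    have e1 : JH / lH ^ U1 ≤ 2 * W / L ^ U1 := by
      calc JH / lH ^ U1 ≤ 2 * W / lH ^ U1 := div_le_div_of_nonneg_right hJH (by
            have : 0 ≤ lH := by linarith
            positivity)
        _ ≤ _ := div_le_div_of_nonneg_left (by positivity) (hLp _) hlU
    calc J * (JH / lH ^ U1) ≤ J * (2 * W / L ^ U1) := mul_le_mul_of_nonneg_left e1 hJ0
      _ ≤ _ := mul_le_mul_of_nonneg_right hJ (by positivity)
  have s2 : H0 * (1 + lX) ≤ (3 * W / L ^ K3) * (4 * L) := by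
    calc H0 * (1 + lX) ≤ H0 * (4 * L) := mul_le_mul_of_nonneg_left hlX hH0'
      _ ≤ _ := mul_le_mul_of_nonneg_right hH0 (by positivity)
  have s3 : 2 * X ^ 2 ≤ 2 * (Z / L ^ C) := by
    have e1 : X ^ 2 * L ^ C ≤ Z := by
      rw [hZ, mul_comm H]
      exact mul_le_mul hX2 hH (hLp _).le (by positivity)
    have e2 : X ^ 2 ≤ Z / L ^ C := by rw [le_div_iff₀ (hLp _)]; exact e1
    linarith
  have p1 : L ^ K3 * (2 * W / L ^ U1) = 2 * (2 * d + 3) * Z / L ^ (A1 + 2 * cc + 3) := by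
    rw [hW, hU1, show K3 + K + A1 + 2 * cc + 3 = K3 + (K + (A1 + 2 * cc + 3)) by ring, pow_add L K3, pow_add L K]
    have := (hLp K3).ne'
    have := (hLp K).ne'
    field_simp
  have p2 : (3 * W / L ^ K3) * (4 * L) = 12 * (2 * d + 3) * Z / L ^ (A1 + 2 * cc + 5) := by
    rw [hW, hK3, show 2 * cc + K + A1 + 6 = K + ((A1 + 2 * cc + 5) + 1) by ring, pow_add L K, pow_succ L (A1 + 2 * cc + 5)]
    have := (hLp K).ne'
    field_simp
    ring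
  have p3 : 12 * (2 * d + 3) * Z / L ^ (A1 + 2 * cc + 5) ≤ 12 * (2 * d + 3) * Z / L ^ (A1 + 2 * cc + 3) :=
    div_le_div_of_nonneg_left (by positivity) (hLp _) (pow_le_pow_right₀ hL1 (by omega))
  have p4 : 2 * (Z / L ^ C) ≤ 2 * (Z / L ^ (A1 + 2 * cc + 3)) := by
    apply mul_le_mul_of_nonneg_left _ (by norm_num)
    exact div_le_div_of_nonneg_left hZ0.le (hLp _) (pow_le_pow_right₀ hL1 (by omega))
  have s4 : S1 ≤ 17 * (2 * d + 3) * Z / L ^ (A1 + 2 * cc + 3) := by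
    have e1 : 17 * (2 * (d : ℝ) + 3) * Z / L ^ (A1 + 2 * cc + 3) = 2 * (2 * d + 3) * Z / L ^ (A1 + 2 * cc + 3) +
        12 * (2 * d + 3) * Z / L ^ (A1 + 2 * cc + 3) + (2 * d + 3) * (3 * (Z / L ^ (A1 + 2 * cc + 3))) := by ring
    rw [e1]
    have e2 : 2 * (Z / L ^ (A1 + 2 * cc + 3)) ≤ (2 * d + 3) * (3 * (Z / L ^ (A1 + 2 * cc + 3))) := by
      have e3 : 0 ≤ Z / L ^ (A1 + 2 * cc + 3) := by positivity
      have e4 : 0 ≤ (d : ℝ) * (Z / L ^ (A1 + 2 * cc + 3)) := mul_nonneg hd0 e3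
      nlinarith
    rw [p1] at s1
    rw [p2] at s2
    linarith
  rw [div_le_iff₀ hY0]
  have hRHS : 1 / L ^ (cc + 1) * (Z / (2 * L ^ A1)) ≤ 1 / L ^ (cc + 1) * Y := mul_le_mul_of_nonneg_left hY (by positivity)
  refine le_trans ?_ hRHS
  calc 864 * T0 * S1 ≤ 864 * T0 * (17 * (2 * d + 3) * Z / L ^ (A1 + 2 * cc + 3)) := mul_le_mul_of_nonneg_left s4 (by positivity)
    _ ≤ 864 * L ^ cc * (17 * (2 * d + 3) * Z / L ^ (A1 + 2 * cc + 3)) := mul_le_mul_of_nonneg_right (by linarith) (by positivity)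
    _ = (29376 * (2 * d + 3) / L ^ 2) * (1 / L ^ (cc + 1) * (Z / (2 * L ^ A1))) := by
        rw [show A1 + 2 * cc + 3 = A1 + cc + cc + 1 + 2 by ring]
        simp only [pow_add, pow_one]
        field_simp
        ring
    _ ≤ 1 * (1 / L ^ (cc + 1) * (Z / (2 * L ^ A1))) := by
        apply mul_le_mul_of_nonneg_right _ (by positivity)
        rw [div_le_one (by positivity)]
        nlinarith
    _ = _ := one_mul _

/-- **The second moment over the box.** -/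
theorem primF (d : ℕ) (hd : 2 ≤ d) (U K : ℕ) : ∃ C X0 : ℕ, ∀ X : ℕ, X0 ≤ X → ∀ H : ℕ, (X : ℝ) ^ 2 * Real.log X ^ C ≤ H →
    (H : ℝ) ≤ (X : ℝ) ^ K → ∀ A : Fin (d + 1) → ℤ, (∀ i, |(A i : ℝ)| ≤ H * Real.log X ^ K) → ∀ w : ℤ × ℤ → ℝ, (∀ P, |w P| ≤ 1) →
    ∑ c ∈ bxA d A H, (∑ P ∈ prm X, w P * lam (evf d c P.1 P.2)) ^ 2 ≤ H ^ (d + 1) * X ^ 4 / Real.log X ^ U := by
  obtain ⟨cc, hcc⟩ : ∃ cc, cc = U + 2 := ⟨_, rfl⟩
  obtain ⟨A1, hA1⟩ : ∃ A1, A1 = 2 * cc * d + cc + 2 := ⟨_, rfl⟩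
  obtain ⟨K3, hK3⟩ : ∃ K3, K3 = 2 * cc + K + A1 + 6 := ⟨_, rfl⟩
  obtain ⟨U1, hU1⟩ : ∃ U1, U1 = K3 + K + A1 + 2 * cc + 3 := ⟨_, rfl⟩
  obtain ⟨B, Y0, hBV⟩ := mxE_sum U1
  obtain ⟨C, hCd⟩ : ∃ C, C = 2 * cc * d + 2 * cc + A1 + K3 + 2 * B + K + 20 := ⟨_, rfl⟩
  obtain ⟨n1, h1⟩ := ev_L' (30000 * ((2 * (d : ℝ)) + K + 10) ^ (2 * B + 2))
  obtain ⟨n2, h2⟩ := evp C
  refine ⟨C, max n1 (max n2 (max Y0 3)), fun X hX H hH1 hH2 A hA w hw => ?_⟩
  have a1 := h1 X ((le_max_left _ _).trans hX)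
  have a2 := h2 X (((le_max_left _ _).trans (le_max_right _ _)).trans hX)
  have hXY : Y0 ≤ X := (((le_max_left _ _).trans (le_max_right _ _)).trans (le_max_right _ _)).trans hX
  have hX3 : 3 ≤ X := (((le_max_right _ _).trans (le_max_right _ _)).trans (le_max_right _ _)).trans hX
  set L := Real.log X with hLd
  have hd0 : (0 : ℝ) ≤ d := Nat.cast_nonneg _
  have hK0 : (0 : ℝ) ≤ K := Nat.cast_nonneg _
  have hb1 : (1 : ℝ) ≤ 2 * (d : ℝ) + K + 10 := by linarith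
  have hKp : ∀ n : ℕ, n ≤ 2 * B + 2 → 30000 * ((2 * (d : ℝ)) + K + 10) ^ n ≤ L := by
    intro n hn
    refine le_trans ?_ a1
    have := pow_le_pow_right₀ hb1 hn
    linarith
  have hLd1 : 30000 * ((2 * (d : ℝ)) + K + 10) ≤ L := by simpa using hKp 1 (by omega)
  have hL1 : 1 ≤ L := by nlinarith
  have hL0 : 0 < L := by linarith
  have hLbig : 30000 * ((2 * (d : ℝ)) + 3) ≤ L := by nlinarith
  have hLp : ∀ n : ℕ, 0 < L ^ n := fun n => by positivity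
  have hLp1 : ∀ n : ℕ, 1 ≤ L ^ n := fun n => one_le_pow₀ hL1
  have hLX : ∀ n : ℕ, n ≤ C → L ^ n ≤ X := fun n hn => (pow_le_pow_right₀ hL1 hn).trans a2
  have hX1r : (1 : ℝ) ≤ X := by exact_mod_cast (by omega : 1 ≤ X)
  have hX0 : (0 : ℝ) < X := by linarith
  have hX2 : (X : ℝ) ^ 2 ≤ (X : ℝ) ^ d := pow_le_pow_right₀ hX1r hd
  have hHC : L ^ C ≤ H := by
    refine le_trans ?_ hH1
    exact le_mul_of_one_le_left (hLp _).le (one_le_pow₀ hX1r)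
  have hHX : (X : ℝ) ^ 2 ≤ H := by
    refine le_trans ?_ hH1
    exact le_mul_of_one_le_right (by positivity) (hLp1 _)
  have hH0 : (0 : ℝ) < H := (hLp C).trans_le hHC
  have hH1r : (1 : ℝ) ≤ H := (hLp1 C).trans hHC
  -- T0
  obtain ⟨T0, hT0d⟩ : ∃ T0 : ℕ, T0 = ⌊L ^ cc⌋₊ := ⟨_, rfl⟩
  have hccL : L ≤ L ^ cc := le_self_pow₀ hL1 (by omega)
  have hT1 : (T0 : ℝ) ≤ L ^ cc := by rw [hT0d]; exact Nat.floor_le (by positivity)
  have hT2 : L ^ cc / 2 ≤ T0 := by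
    have := Nat.lt_floor_add_one (L ^ cc)
    rw [← hT0d] at this
    linarith
  have hT3 : 1 ≤ T0 := by
    have : (1 : ℝ) ≤ T0 := by linarith
    exact_mod_cast this
  have hT4 : T0 ≤ X := by
    have : (T0 : ℝ) ≤ X := hT1.trans (hLX _ (by omega))
    exact_mod_cast this
  have hTr : (0 : ℝ) < T0 := by exact_mod_cast hT3
  -- Z, Y
  obtain ⟨Z, hZ⟩ : ∃ Z : ℝ, Z = H * X ^ d := ⟨_, rfl⟩
  have hZ0 : 0 < Z := by rw [hZ]; positivity
  have hZbig : X ^ 2 * (X ^ 2 * L ^ C) ≤ Z := by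
    rw [hZ, mul_comm (H : ℝ)]
    exact mul_le_mul hX2 hH1 (by positivity) (by positivity)
  obtain ⟨Y, hYd⟩ : ∃ Y : ℕ, Y = ⌊Z / L ^ A1⌋₊ := ⟨_, rfl⟩
  have hY1 : (Y : ℝ) ≤ Z / L ^ A1 := by rw [hYd]; exact Nat.floor_le (by positivity)
  have hZA : 8 * (X : ℝ) ^ 2 ≤ Z / L ^ A1 := by
    rw [le_div_iff₀ (hLp _)]
    refine le_trans ?_ hZbig
    have e1 : L ^ A1 * 8 ≤ L ^ C := by
      calc L ^ A1 * 8 ≤ L ^ A1 * L := mul_le_mul_of_nonneg_left (by linarith) (hLp _).le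
        _ = L ^ (A1 + 1) := (pow_succ _ _).symm
        _ ≤ L ^ C := pow_le_pow_right₀ hL1 (by omega)
    calc 8 * (X : ℝ) ^ 2 * L ^ A1 = X ^ 2 * (1 * (L ^ A1 * 8)) := by ring
      _ ≤ X ^ 2 * (X ^ 2 * L ^ C) := by
          apply mul_le_mul_of_nonneg_left _ (by positivity)
          exact mul_le_mul (one_le_pow₀ hX1r) e1 (by positivity) (by positivity)
  have hY2 : Z / (2 * L ^ A1) ≤ Y := by
    have := Nat.lt_floor_add_one (Z / L ^ A1)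
    rw [← hYd] at this
    have e1 : Z / (2 * L ^ A1) = (Z / L ^ A1) / 2 := by field_simp
    rw [e1]
    have e2 : (1 : ℝ) ≤ (X : ℝ) ^ 2 := one_le_pow₀ hX1r
    linarith
  have hY4 : 4 * X ^ 2 ≤ Y := by
    have e1 : Z / (2 * L ^ A1) = (Z / L ^ A1) / 2 := by field_simp
    have : 4 * (X : ℝ) ^ 2 ≤ Y := by rw [e1] at hY2; linarith
    exact_mod_cast this
  -- J, W, H0
  obtain ⟨J, hJd⟩ : ∃ J : ℕ, J = ⌊L ^ K3⌋₊ := ⟨_, rfl⟩
  have hK3L : L ≤ L ^ K3 := le_self_pow₀ hL1 (by omega)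
  have hJ1 : (J : ℝ) ≤ L ^ K3 := by rw [hJd]; exact Nat.floor_le (by positivity)
  have hJ2 : L ^ K3 / 2 ≤ J := by
    have := Nat.lt_floor_add_one (L ^ K3)
    rw [← hJd] at this
    linarith
  have hJr : (1 : ℝ) ≤ J := by linarith
  have hJ3 : 1 ≤ J := by exact_mod_cast hJr
  have hJ0 : (0 : ℝ) < J := by linarith
  obtain ⟨W, hW⟩ : ∃ W : ℝ, W = (2 * d + 3) * L ^ K * Z := ⟨_, rfl⟩
  have hW0 : 0 < W := by rw [hW]; positivity
  have hWZ : Z ≤ W := by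
    rw [hW]
    apply le_mul_of_one_le_left hZ0.le
    have := hLp1 K
    nlinarith
  have hZK3 : X * L ^ K3 ≤ Z := by
    refine le_trans ?_ hZbig
    have e1 : L ^ K3 ≤ L ^ C := pow_le_pow_right₀ hL1 (by omega)
    calc (X : ℝ) * L ^ K3 ≤ X ^ 2 * (1 * L ^ C) := by
          rw [one_mul]
          exact mul_le_mul (by nlinarith) e1 (by positivity) (by positivity)
      _ ≤ _ := by
          apply mul_le_mul_of_nonneg_left _ (by positivity)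
          exact mul_le_mul_of_nonneg_right (one_le_pow₀ hX1r) (hLp _).le
  obtain ⟨H0, hH0d⟩ : ∃ H0 : ℕ, H0 = ⌈W / J⌉₊ := ⟨_, rfl⟩
  have hc1 : W / J ≤ H0 := by rw [hH0d]; exact Nat.le_ceil _
  have hc2 : (H0 : ℝ) ≤ W / J + 1 := by rw [hH0d]; exact (Nat.ceil_lt_add_one (by positivity)).le
  have hc3 : W ≤ ((J * H0 : ℕ) : ℝ) := by
    rw [div_le_iff₀ hJ0] at hc1
    push_cast
    linarith
  have hc4 : ((J * H0 : ℕ) : ℝ) ≤ 2 * W := by
    push_cast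
    have e1 : (J : ℝ) * H0 ≤ J * (W / J + 1) := mul_le_mul_of_nonneg_left hc2 hJ0.le
    have e2 : (J : ℝ) * (W / J + 1) = W + J := by field_simp
    have e3 : (J : ℝ) ≤ W := by
      refine hJ1.trans (le_trans ?_ (hZK3.trans hWZ))
      exact le_mul_of_one_le_left (hLp _).le hX1r
    linarith
  have hc5 : (H0 : ℝ) ≤ 3 * W / L ^ K3 := by
    refine hc2.trans ?_
    have e1 : W / J ≤ W / (L ^ K3 / 2) := div_le_div_of_nonneg_left hW0.le (by positivity) hJ2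
    have e2 : W / (L ^ K3 / 2) = 2 * (W / L ^ K3) := by field_simp
    have e3 : 1 ≤ W / L ^ K3 := by
      rw [le_div_iff₀ (hLp _), one_mul]
      refine le_trans ?_ (hZK3.trans hWZ)
      exact le_mul_of_one_le_left (hLp _).le hX1r
    have e4 : 3 * W / L ^ K3 = 3 * (W / L ^ K3) := by ring
    rw [e4]
    linarith
  have hc6 : W / L ^ K3 ≤ H0 := by
    refine le_trans ?_ hc1
    exact div_le_div_of_nonneg_left hW0.le hJ0 hJ1
  have hXH0 : (X : ℝ) ≤ H0 := by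
    refine le_trans ?_ hc6
    rw [le_div_iff₀ (hLp _)]
    exact hZK3.trans hWZ
  have hXH0n : X ≤ H0 := by exact_mod_cast hXH0
  have hH0n : 1 ≤ H0 := by omega
  -- the level of distribution
  have hJHr : (1 : ℝ) ≤ ((J * H0 : ℕ) : ℝ) := by
    have : 1 ≤ J * H0 := Nat.mul_pos hJ3 hH0n
    exact_mod_cast this
  have hΛ : Real.log (J * H0 : ℕ) ≤ (2 * d + K + 10) * L := by
    have e1 : ((J * H0 : ℕ) : ℝ) ≤ (X : ℝ) ^ (K + d + 1) := by
      refine hc4.trans ?_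
      rw [hW, hZ]
      have e2 : 2 * (2 * (d : ℝ) + 3) * L ^ K ≤ X := by
        refine le_trans ?_ (hLX (K + 1) (by omega))
        rw [pow_succ, mul_comm (L ^ K)]
        exact mul_le_mul_of_nonneg_right (by linarith) (hLp _).le
      calc 2 * ((2 * (d : ℝ) + 3) * L ^ K * (H * X ^ d)) = (2 * (2 * (d : ℝ) + 3) * L ^ K) * (H * X ^ d) := by ring
        _ ≤ X * ((X : ℝ) ^ K * X ^ d) := by
            apply mul_le_mul e2 _ (by positivity) hX0.le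
            exact mul_le_mul_of_nonneg_right hH2 (by positivity)
        _ = _ := by rw [pow_succ, pow_add]; ring
    have e3 := Real.log_le_log (by linarith) e1
    rw [Real.log_pow] at e3
    refine e3.trans ?_
    apply mul_le_mul_of_nonneg_right _ hL0.le
    push_cast
    linarith
  have hΛ0 : 0 < Real.log (J * H0 : ℕ) := by
    have e1 : L ≤ Real.log (J * H0 : ℕ) := by
      apply Real.log_le_log hX0
      have : X ≤ J * H0 := hXH0n.trans (Nat.le_mul_of_pos_left _ hJ3)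
      exact_mod_cast this
    linarith
  have hKc : ((2 * X ^ 2 : ℕ) : ℝ) ≤ Real.sqrt H0 / Real.log (J * H0 : ℕ) ^ B := by
    rw [le_div_iff₀ (by positivity)]
    apply Real.le_sqrt_of_sq_le
    refine le_trans ?_ hc6
    rw [le_div_iff₀ (hLp _)]
    refine le_trans ?_ (hZbig.trans hWZ)
    push_cast
    have e1 : (Real.log (J * H0 : ℕ) ^ B) ^ 2 ≤ (2 * d + K + 10) ^ (2 * B) * L ^ (2 * B) := by
      rw [← pow_mul, mul_comm B 2, ← mul_pow]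
      exact pow_le_pow_left₀ hΛ0.le hΛ _
    push_cast at e1
    have e2 : 4 * ((2 * (d : ℝ) + K + 10) ^ (2 * B) * L ^ (2 * B)) * L ^ K3 ≤ L ^ C := by
      have e3 : 4 * (2 * (d : ℝ) + K + 10) ^ (2 * B) ≤ L := by
        have := hKp (2 * B) (by omega)
        have : 0 ≤ (2 * (d : ℝ) + K + 10) ^ (2 * B) := by positivity
        linarith
      calc 4 * ((2 * (d : ℝ) + K + 10) ^ (2 * B) * L ^ (2 * B)) * L ^ K3 = (4 * (2 * (d : ℝ) + K + 10) ^ (2 * B)) * (L ^ (2 * B) * L ^ K3) := by ring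
        _ ≤ L * (L ^ (2 * B) * L ^ K3) := mul_le_mul_of_nonneg_right e3 (by positivity)
        _ = L ^ (2 * B + K3 + 1) := by rw [pow_succ, pow_add]; ring
        _ ≤ L ^ C := pow_le_pow_right₀ hL1 (by omega)
    calc (2 * (X : ℝ) ^ 2 * Real.log (↑J * ↑H0) ^ B) ^ 2 * L ^ K3 = (X ^ 2 * X ^ 2) * (4 * (Real.log (↑J * ↑H0) ^ B) ^ 2 * L ^ K3) := by ring
      _ ≤ (X ^ 2 * X ^ 2) * (4 * ((2 * (d : ℝ) + K + 10) ^ (2 * B) * L ^ (2 * B)) * L ^ K3) := by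
          apply mul_le_mul_of_nonneg_left _ (by positivity)
          apply mul_le_mul_of_nonneg_right _ (hLp _).le
          exact mul_le_mul_of_nonneg_left e1 (by norm_num)
      _ ≤ (X ^ 2 * X ^ 2) * L ^ C := mul_le_mul_of_nonneg_left e2 (by positivity)
      _ = _ := by ring
  have hS := hBV J H0 (2 * X ^ 2) (hXY.trans hXH0n) hJ3 hKc
  -- η
  obtain ⟨η, hηd⟩ : ∃ η : ℕ, η = ⌈(X : ℝ) ^ 2 + 2 * ((T0 : ℝ) ^ 2) ^ d * (Y + d * X ^ 2 * X ^ d) / X ^ d⌉₊ := ⟨_, rfl⟩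
  have hη1 : (X : ℝ) ^ 2 + 2 * ((T0 : ℝ) ^ 2) ^ d * (Y + d * X ^ 2 * X ^ d) / X ^ d ≤ η := by rw [hηd]; exact Nat.le_ceil _
  have hη2 : (η : ℝ) ≤ (X : ℝ) ^ 2 + 2 * ((T0 : ℝ) ^ 2) ^ d * (Y + d * X ^ 2 * X ^ d) / X ^ d + 1 := by
    rw [hηd]; exact (Nat.ceil_lt_add_one (by positivity)).le
  have hη3 := numEta d cc A1 C hA1 (by omega) L X H Y T0 η (by nlinarith) hX1r hH1 hTr.le hT1 (Nat.cast_nonneg _)
    (by rw [← hZ]; exact hY1) hη2
  -- M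
  have hM : ∀ c ∈ bxA d A H, ∀ i, |(c i : ℝ)| ≤ 2 * H * L ^ K := by
    intro c hc i
    rw [mem_bxA] at hc
    have e1 := hA i
    have e2 := abs_le.1 e1
    have e3 : (A i : ℝ) < c i := by exact_mod_cast (hc i).1
    have e4 : (c i : ℝ) ≤ A i + H := by exact_mod_cast (hc i).2
    have e5 : (H : ℝ) ≤ H * L ^ K := le_mul_of_one_le_right hH0.le (hLp1 _)
    rw [abs_le]
    constructor <;> linarith
  have hN : (d + 1) * (2 * H * L ^ K) * X ^ d + Y ≤ ((J * H0 : ℕ) : ℝ) := by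
    refine le_trans ?_ hc3
    have e1 : (Y : ℝ) ≤ L ^ K * Z := by
      refine hY1.trans ?_
      calc Z / L ^ A1 ≤ Z := div_le_self hZ0.le (hLp1 _)
        _ ≤ L ^ K * Z := le_mul_of_one_le_left hZ0.le (hLp1 _)
    have e2 : ((d : ℝ) + 1) * (2 * H * L ^ K) * X ^ d = (2 * d + 2) * (L ^ K * Z) := by rw [hZ]; ring
    rw [e2, hW]
    have e3 : (2 * (d : ℝ) + 3) * L ^ K * Z = (2 * d + 2) * (L ^ K * Z) + L ^ K * Z := by ring
    rw [e3]
    linarith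
  have hmom := moment d (by omega) A H η Y X J H0 T0 (by omega) hH0n hT3 hT4 (2 * H * L ^ K) hM (by positivity) hN hη1 hY4 w hw
  refine hmom.trans ?_
  have hlogX : 1 + Real.log ((2 * X ^ 2 : ℕ) : ℝ) ≤ 4 * L := by
    push_cast
    rw [Real.log_mul (by norm_num) (by positivity), Real.log_pow]
    have e1 : Real.log 2 ≤ 1 := by have := Real.log_two_lt_d9; linarith
    push_cast
    rw [← hLd]
    linarith
  have hlH0 : L ≤ Real.log H0 := Real.log_le_log hX0 hXH0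
  have t2 := numS1 d cc A1 K K3 U1 C hK3 hU1 (by omega) L X H W Z Y T0 (∑ k ∈ Icc 1 (2 * X ^ 2), mxE J H0 k) (J * H0 : ℕ) H0 J
    (Real.log H0) (Real.log ((2 * X ^ 2 : ℕ) : ℝ)) hLbig hX1r hHC hZ hX2 hW hTr.le hT1 hY2 hJ0.le hJ1 hc4 (Nat.cast_nonneg _) hc5
    hlH0 hlogX (by refine hS.trans (le_of_eq ?_); push_cast; ring)
  have t1 : 405 / (T0 : ℝ) ≤ 1 / L ^ (U + 1) := by
    rw [div_le_div_iff₀ hTr (hLp _)]
    have e1 : L ^ cc = L ^ (U + 1) * L := by rw [hcc]; exact pow_succ _ _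
    rw [e1] at hT2
    have e2 : 810 * L ^ (U + 1) ≤ L ^ (U + 1) * L := by
      rw [mul_comm]
      exact mul_le_mul_of_nonneg_left (by nlinarith) (hLp _).le
    linarith
  have t3 : (1 : ℝ) / L ^ (cc + 1) ≤ 1 / L ^ (U + 1) := one_div_le_one_div_of_le (hLp _) (pow_le_pow_right₀ hL1 (by omega))
  have hHX4 : (0 : ℝ) < (H : ℝ) ^ (d + 1) * X ^ 4 := by positivity
  have t4 : 162 * ((d : ℝ) + 1) * η * H ^ d * X ^ 4 ≤ (H ^ (d + 1) * X ^ 4) * (1 / L ^ (U + 1)) := by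
    calc 162 * ((d : ℝ) + 1) * η * H ^ d * X ^ 4 ≤ 162 * ((d : ℝ) + 1) * (H / L ^ (cc + 1)) * H ^ d * X ^ 4 := by gcongr
      _ = (H ^ (d + 1) * X ^ 4) * (162 * ((d : ℝ) + 1) / L ^ (cc + 1)) := by rw [pow_succ (H : ℝ) d]; ring
      _ ≤ (H ^ (d + 1) * X ^ 4) * (1 / L ^ (U + 1)) := by
          apply mul_le_mul_of_nonneg_left _ hHX4.le
          rw [div_le_div_iff₀ (hLp _) (hLp _), one_mul]
          have e1 : L ^ (cc + 1) = L * (L * L ^ (U + 1)) := by rw [hcc]; ring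
          rw [e1]
          have e2 : 162 * ((d : ℝ) + 1) ≤ L := by nlinarith
          have e3 : L ^ (U + 1) ≤ L * L ^ (U + 1) := le_mul_of_one_le_left (hLp _).le hL1
          exact mul_le_mul e2 e3 (hLp _).le hL0.le
  have t5 : (H : ℝ) ^ (d + 1) * X ^ 4 * (405 / T0 + 864 * T0 * (∑ k ∈ Icc 1 (2 * X ^ 2), mxE J H0 k) / Y) ≤
      (H ^ (d + 1) * X ^ 4) * (2 * (1 / L ^ (U + 1))) := by
    apply mul_le_mul_of_nonneg_left _ hHX4.le
    linarith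
  have t6 : (H : ℝ) ^ (d + 1) * X ^ 4 / L ^ U = (H ^ (d + 1) * X ^ 4) * (L * (1 / L ^ (U + 1))) := by
    rw [pow_succ L U]
    field_simp
  rw [t6]
  have t7 : (H ^ (d + 1) * X ^ 4) * (2 * (1 / L ^ (U + 1))) + (H ^ (d + 1) * X ^ 4) * (1 / L ^ (U + 1)) ≤
      ((H : ℝ) ^ (d + 1) * X ^ 4) * (L * (1 / L ^ (U + 1))) := by
    rw [← mul_add]
    apply mul_le_mul_of_nonneg_left _ hHX4.le
    have e1 : 0 < 1 / L ^ (U + 1) := by positivity
    nlinarith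
  linarith

end Pool.Agent.Y868.TF
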