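import Pool.Agent.Y868.TF.A6

/-! From the second moment to all points; fibres; zeros. -/

set_option autoImplicit false

namespace Pool.Agent.Y868.TF

open Finset Filter
open Pool.Agent.H373R2.T7
open Pool.Agent.Y868.TA Pool.Agent.Y868.TE Pool.Agent.Y868.TD

/-- counting in the fibres of one coordinate -/
lemma fiberG {α : Type*} [DecidableEq α] (k : ℕ) (Bx : Fin k → Finset α) (j : Fin k) (S : Finset (Fin k → α))
    (hS : S ⊆ Fintype.piFinset Bx) (M : ℕ)
    (h : ∀ e ∈ Fintype.piFinset Bx, #((Bx j).filter (fun q => Function.update e j q ∈ S)) ≤ M) :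
    #S * #(Bx j) ≤ M * #(Fintype.piFinset Bx) := by
  classical
  have h1 : #(S ×ˢ Bx j) ≤ #((Fintype.piFinset Bx ×ˢ Bx j).filter (fun p : (Fin k → α) × α => Function.update p.1 j p.2 ∈ S)) := by
    apply card_le_card_of_injOn (fun p => (Function.update p.1 j p.2, p.1 j))
    · intro p hp
      rw [mem_coe, mem_product] at hp
      rw [mem_coe, mem_filter, mem_product]
      refine ⟨⟨?_, ?_⟩, ?_⟩
      · rw [Fintype.mem_piFinset]
        intro i
        by_cases hi : i = j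
        · subst hi
          simp only [Function.update_self]
          exact hp.2
        · simp only [Function.update_of_ne hi]
          exact Fintype.mem_piFinset.1 (hS hp.1) i
      · exact Fintype.mem_piFinset.1 (hS hp.1) j
      · simp only [Function.update_idem, Function.update_eq_self]
        exact hp.1
    · intro p _ q _ heq
      simp only [Prod.mk.injEq] at heq
      have h2 := congrFun heq.1 j
      rw [Function.update_self, Function.update_self] at h2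
      have h3 : p.1 = q.1 := by
        funext i
        by_cases hi : i = j
        · subst hi; exact heq.2
        · have := congrFun heq.1 i
          rwa [Function.update_of_ne hi, Function.update_of_ne hi] at this
      exact Prod.ext h3 h2
  rw [card_product] at h1
  refine h1.trans ?_
  rw [card_filter, sum_product]
  calc ∑ e ∈ Fintype.piFinset Bx, ∑ q ∈ Bx j, (if Function.update e j q ∈ S then 1 else 0) ≤
      ∑ _e ∈ Fintype.piFinset Bx, M := by
        refine sum_le_sum fun e he => ?_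
        have := h e he
        rw [card_filter] at this
        exact this
    _ = _ := by rw [sum_const, smul_eq_mul, mul_comm]

/-- the forms vanishing at a given point -/
lemma zero_count (d : ℕ) (A : Fin (d + 1) → ℤ) (H : ℕ) (hH : 1 ≤ H) (P : ℤ × ℤ) (hP : P ≠ 0) :
    #((bxA d A H).filter (fun c => evf d c P.1 P.2 = 0)) ≤ H ^ d := by
  classical
  -- a coefficient with a nonzero monomial
  obtain ⟨j, hj⟩ : ∃ j : Fin (d + 1), P.1 ^ (j : ℕ) * P.2 ^ (d - (j : ℕ)) ≠ 0 := by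
    by_cases h : P.2 = 0
    · have h1 : P.1 ≠ 0 := fun h1 => hP (Prod.ext h1 h)
      refine ⟨Fin.last d, ?_⟩
      rw [Fin.val_last, Nat.sub_self, pow_zero, mul_one]
      exact pow_ne_zero _ h1
    · refine ⟨0, ?_⟩
      rw [Fin.val_zero, pow_zero, one_mul]
      exact pow_ne_zero _ h
  have h1 := fiberG (d + 1) (fun i => Ioc (A i) (A i + (H : ℤ))) j ((bxA d A H).filter (fun c => evf d c P.1 P.2 = 0))
    (filter_subset _ _) 1 ?_
  · have h2 : #(Fintype.piFinset (fun i => Ioc (A i) (A i + (H : ℤ)))) = H ^ (d + 1) := bxA_card d A H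
    rw [h2] at h1
    have h3 : #(Ioc (A j) (A j + (H : ℤ))) = H := by simp
    rw [h3, one_mul, pow_succ] at h1
    exact Nat.le_of_mul_le_mul_right h1 (by omega)
  · intro e _
    rw [card_le_one]
    intro a ha b hb
    rw [mem_filter, mem_filter] at ha hb
    have h2 := ha.2.2
    have h3 := hb.2.2
    have h4 : ∀ q : ℤ, evf d (Function.update e j q) P.1 P.2 = q * (P.1 ^ (j : ℕ) * P.2 ^ (d - (j : ℕ))) +
        ∑ i ∈ univ.erase j, e i * P.1 ^ (i : ℕ) * P.2 ^ (d - (i : ℕ)) := by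
      intro q
      unfold evf
      rw [← add_sum_erase univ _ (mem_univ j)]
      congr 1
      · rw [Function.update_self]; ring
      · refine sum_congr rfl fun i hi => ?_
        rw [Function.update_of_ne (mem_erase.1 hi).1]
    rw [h4] at h2 h3
    have h5 : a * (P.1 ^ (j : ℕ) * P.2 ^ (d - (j : ℕ))) = b * (P.1 ^ (j : ℕ) * P.2 ^ (d - (j : ℕ))) := by linarith
    exact mul_right_cancel₀ hj h5

lemma lam_mul (m n : ℤ) : lam (m * n) = lam m * lam n := by
  unfold lam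
  by_cases hm : m = 0
  · simp [hm]
  · by_cases hn : n = 0
    · simp [hn]
    · rw [if_neg hm, if_neg hn, if_neg (mul_ne_zero hm hn), Int.natAbs_mul,
        ArithmeticFunction.cardFactors_mul (Int.natAbs_ne_zero.2 hm) (Int.natAbs_ne_zero.2 hn), pow_add]

lemma lam_pow (m : ℤ) (n : ℕ) (hm : m ≠ 0) : lam (m ^ n) = lam m ^ n := by
  induction n with
  | zero => simp [lam]
  | succ n ih => rw [pow_succ, pow_succ, lam_mul, ih]

lemma evf_homog (d : ℕ) (c : Fin (d + 1) → ℤ) (g u v : ℤ) : evf d c (g * u) (g * v) = g ^ d * evf d c u v := by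
  unfold evf
  rw [mul_sum]
  refine sum_congr rfl fun i _ => ?_
  have h : g ^ d = g ^ (i : ℕ) * g ^ (d - (i : ℕ)) := by rw [← pow_add]; congr 1; omega
  rw [h, mul_pow, mul_pow]
  ring

open Classical in
/-- the points with a small greatest common divisor -/
lemma split_gcd (X G : ℕ) (F : ℤ × ℤ → ℝ) :
    ∑ P ∈ (sqr X).filter (fun P => P ≠ 0 ∧ Int.gcd P.1 P.2 ≤ G), F P =
      ∑ P0 ∈ prm X, ∑ g ∈ (Icc 1 G).filter (fun g : ℕ => ((g : ℤ) * P0.1, (g : ℤ) * P0.2) ∈ sqr X), F ((g : ℤ) * P0.1, (g : ℤ) * P0.2) := by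
  rw [sum_sigma']
  symm
  apply sum_nbij' (fun p : (_ : ℤ × ℤ) × ℕ => (((p.2 : ℤ) * p.1.1, (p.2 : ℤ) * p.1.2) : ℤ × ℤ))
    (fun P : ℤ × ℤ => (⟨(P.1 / (Int.gcd P.1 P.2 : ℤ), P.2 / (Int.gcd P.1 P.2 : ℤ)), Int.gcd P.1 P.2⟩ : (_ : ℤ × ℤ) × ℕ))
  · rintro ⟨P0, g⟩ hp
    rw [mem_sigma, mem_filter, mem_Icc] at hp
    obtain ⟨h1, ⟨h2, h3⟩, h4⟩ := hp
    simp only at h1 h2 h3 h4
    unfold prm at h1
    rw [mem_filter] at h1
    have hco := Int.isCoprime_iff_gcd_eq_one.1 h1.2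
    rw [mem_filter]
    have hg : Int.gcd ((g : ℤ) * P0.1) ((g : ℤ) * P0.2) = g := by
      rw [Int.gcd_mul_left, hco]
      simp
    refine ⟨h4, ?_, ?_⟩
    · intro h5
      have h6 := congrArg Prod.fst h5
      have h7 := congrArg Prod.snd h5
      simp only [Prod.fst_zero, Prod.snd_zero] at h6 h7
      rw [h6, h7] at hg
      simp at hg
      omega
    · simp only
      rw [hg]
      exact h3
  · intro P hP
    rw [mem_filter] at hP
    obtain ⟨h1, h2, h3⟩ := hP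
    have hg0 : Int.gcd P.1 P.2 ≠ 0 := by
      intro h4
      rw [Int.gcd_eq_zero_iff] at h4
      exact h2 (Prod.ext h4.1 h4.2)
    have hg1 : 1 ≤ Int.gcd P.1 P.2 := Nat.one_le_iff_ne_zero.2 hg0
    have e1 : ((Int.gcd P.1 P.2 : ℕ) : ℤ) * (P.1 / (Int.gcd P.1 P.2 : ℤ)) = P.1 := Int.mul_ediv_cancel' (Int.gcd_dvd_left _ _)
    have e2 : ((Int.gcd P.1 P.2 : ℕ) : ℤ) * (P.2 / (Int.gcd P.1 P.2 : ℤ)) = P.2 := Int.mul_ediv_cancel' (Int.gcd_dvd_right _ _)
    rw [mem_sigma, mem_filter, mem_Icc]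
    simp only
    rw [e1, e2]
    refine ⟨?_, ⟨hg1, h3⟩, h1⟩
    unfold prm
    rw [mem_filter]
    have hgp : (1 : ℤ) ≤ ((Int.gcd P.1 P.2 : ℕ) : ℤ) := by exact_mod_cast hg1
    constructor
    · rw [mem_sqr] at h1 ⊢
      simp only
      have f1 : |P.1 / ((Int.gcd P.1 P.2 : ℕ) : ℤ)| ≤ |P.1| := by
        conv_rhs => rw [← e1]
        rw [abs_mul, abs_of_nonneg (by linarith : (0 : ℤ) ≤ ((Int.gcd P.1 P.2 : ℕ) : ℤ))]
        nlinarith [abs_nonneg (P.1 / ((Int.gcd P.1 P.2 : ℕ) : ℤ))]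
      have f2 : |P.2 / ((Int.gcd P.1 P.2 : ℕ) : ℤ)| ≤ |P.2| := by
        conv_rhs => rw [← e2]
        rw [abs_mul, abs_of_nonneg (by linarith : (0 : ℤ) ≤ ((Int.gcd P.1 P.2 : ℕ) : ℤ))]
        nlinarith [abs_nonneg (P.2 / ((Int.gcd P.1 P.2 : ℕ) : ℤ))]
      exact ⟨f1.trans h1.1, f2.trans h1.2⟩
    · rw [Int.isCoprime_iff_gcd_eq_one]
      exact Int.gcd_ediv_gcd_ediv_gcd (Nat.pos_of_ne_zero hg0)
  · rintro ⟨P0, g⟩ hp
    rw [mem_sigma, mem_filter, mem_Icc] at hp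
    obtain ⟨h1, ⟨h2, h3⟩, h4⟩ := hp
    simp only at h1 h2 h3 h4
    unfold prm at h1
    rw [mem_filter] at h1
    have hco := Int.isCoprime_iff_gcd_eq_one.1 h1.2
    have hg : Int.gcd ((g : ℤ) * P0.1) ((g : ℤ) * P0.2) = g := by
      rw [Int.gcd_mul_left, hco]
      simp
    simp only [hg]
    have hg0 : (g : ℤ) ≠ 0 := by exact_mod_cast (by omega : g ≠ 0)
    rw [Int.mul_ediv_cancel_left _ hg0, Int.mul_ediv_cancel_left _ hg0]
  · intro P _
    have e1 : ((Int.gcd P.1 P.2 : ℕ) : ℤ) * (P.1 / (Int.gcd P.1 P.2 : ℤ)) = P.1 := Int.mul_ediv_cancel' (Int.gcd_dvd_left _ _)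
    have e2 : ((Int.gcd P.1 P.2 : ℕ) : ℤ) * (P.2 / (Int.gcd P.1 P.2 : ℤ)) = P.2 := Int.mul_ediv_cancel' (Int.gcd_dvd_right _ _)
    simp only
    rw [e1, e2]
  · rintro ⟨P0, g⟩ _
    rfl

open Classical in
/-- the points with a large greatest common divisor -/
lemma large_gcd (X G : ℕ) (hG : 1 ≤ G) :
    (#((sqr X).filter (fun P => ¬ (P ≠ 0 ∧ Int.gcd P.1 P.2 ≤ G))) : ℝ) ≤ 1 + 9 * X ^ 2 / G := by
  have hGr : (0 : ℝ) < G := by exact_mod_cast hG
  have h1 : (sqr X).filter (fun P => ¬ (P ≠ 0 ∧ Int.gcd P.1 P.2 ≤ G)) ⊆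
      {(0 : ℤ × ℤ)} ∪ (Ioc G X).biUnion (fun g => (sqr (X / g)).image (fun Q => ((g : ℤ) * Q.1, (g : ℤ) * Q.2))) := by
    intro P hP
    rw [mem_filter] at hP
    obtain ⟨h2, h3⟩ := hP
    rw [mem_union, mem_singleton]
    by_cases h0 : P = 0
    · exact Or.inl h0
    · right
      have h4 : G < Int.gcd P.1 P.2 := by
        by_contra h5
        exact h3 ⟨h0, by omega⟩
      set g := Int.gcd P.1 P.2 with hg
      have e1 : (g : ℤ) * (P.1 / (g : ℤ)) = P.1 := Int.mul_ediv_cancel' (Int.gcd_dvd_left _ _)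
      have e2 : (g : ℤ) * (P.2 / (g : ℤ)) = P.2 := Int.mul_ediv_cancel' (Int.gcd_dvd_right _ _)
      have hgp : (0 : ℤ) < g := by exact_mod_cast (by omega : 0 < g)
      rw [mem_sqr] at h2
      have b : ∀ z : ℤ, |(g : ℤ) * z| ≤ X → |z| ≤ ((X / g : ℕ) : ℤ) := by
        intro z hz
        rw [abs_mul, abs_of_pos hgp] at hz
        push_cast
        rw [Int.le_ediv_iff_mul_le hgp]
        linarith
      have b1 := b (P.1 / g) (by rw [e1]; exact h2.1)
      have b2 := b (P.2 / g) (by rw [e2]; exact h2.2)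
      rw [mem_biUnion]
      refine ⟨g, ?_, ?_⟩
      · rw [mem_Ioc]
        refine ⟨h4, ?_⟩
        have h5 : (g : ℤ) ≤ X := by
          rcases Classical.em (P.1 = 0) with h6 | h6
          · have h7 : P.2 ≠ 0 := fun h7 => h0 (Prod.ext h6 h7)
            have h8 : (g : ℤ) ∣ |P.2| := (dvd_abs _ _).2 (Int.gcd_dvd_right _ _)
            exact (Int.le_of_dvd (abs_pos.2 h7) h8).trans h2.2
          · have h8 : (g : ℤ) ∣ |P.1| := (dvd_abs _ _).2 (Int.gcd_dvd_left _ _)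
            exact (Int.le_of_dvd (abs_pos.2 h6) h8).trans h2.1
        exact_mod_cast h5
      · rw [mem_image]
        exact ⟨(P.1 / g, P.2 / g), by rw [mem_sqr]; exact ⟨b1, b2⟩, by simp only; rw [e1, e2]⟩
  have h2 : (#((sqr X).filter (fun P => ¬ (P ≠ 0 ∧ Int.gcd P.1 P.2 ≤ G))) : ℝ) ≤ 1 + ∑ g ∈ Ioc G X, ((2 * (X / g) + 1 : ℕ) : ℝ) ^ 2 := by
    have h3 := (card_le_card h1).trans (card_union_le _ _)
    have h4 : #((Ioc G X).biUnion (fun g => (sqr (X / g)).image (fun Q => (((g : ℤ) * Q.1, (g : ℤ) * Q.2) : ℤ × ℤ)))) ≤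
        ∑ g ∈ Ioc G X, (2 * (X / g) + 1) ^ 2 := by
      refine card_biUnion_le.trans (sum_le_sum fun g _ => ?_)
      exact card_image_le.trans (le_of_eq (sqr_card _))
    rw [card_singleton] at h3
    exact_mod_cast h3.trans (Nat.add_le_add_left h4 1)
  refine h2.trans ?_
  have h3 : ∑ g ∈ Ioc G X, ((2 * (X / g) + 1 : ℕ) : ℝ) ^ 2 ≤ ∑ g ∈ Ioc G X, 9 * X ^ 2 * (((g : ℝ) ^ 2)⁻¹) := by
    refine sum_le_sum fun g hg => ?_
    rw [mem_Ioc] at hg
    have hg0 : (0 : ℝ) < g := by exact_mod_cast (by omega : 0 < g)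
    have e1 : ((X / g : ℕ) : ℝ) ≤ X / g := Nat.cast_div_le
    have e2 : (1 : ℝ) ≤ X / g := by rw [le_div_iff₀ hg0, one_mul]; exact_mod_cast hg.2
    have e3 : ((2 * (X / g) + 1 : ℕ) : ℝ) ≤ 3 * (X / g) := by push_cast; linarith
    calc ((2 * (X / g) + 1 : ℕ) : ℝ) ^ 2 ≤ (3 * ((X : ℝ) / g)) ^ 2 := pow_le_pow_left₀ (Nat.cast_nonneg _) e3 2
      _ = _ := by field_simp; ring
  rcases Nat.lt_or_ge X G with hXG | hXG
  · rw [Ioc_eq_empty (by omega), sum_empty] at h3 ⊢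
    have : 0 ≤ 9 * (X : ℝ) ^ 2 / G := by positivity
    linarith
  · have h4 := sum_Ioc_inv_sq_le_sub (α := ℝ) (by omega : G ≠ 0) hXG
    rw [← mul_sum] at h3
    have h5 : 9 * (X : ℝ) ^ 2 * ∑ g ∈ Ioc G X, ((g : ℝ) ^ 2)⁻¹ ≤ 9 * X ^ 2 / G := by
      rw [div_eq_mul_inv]
      apply mul_le_mul_of_nonneg_left _ (by positivity)
      have : (0 : ℝ) ≤ (X : ℝ)⁻¹ := by positivity
      linarith
    linarith

end Pool.Agent.Y868.TF
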