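import Pool.Agent.Y868.TF.A7

/-! All points; systems of forms. -/

set_option autoImplicit false

namespace Pool.Agent.Y868.TF

open Finset Filter
open Pool.Agent.H373R2.T7
open Pool.Agent.Y868.TA Pool.Agent.Y868.TE Pool.Agent.Y868.TD

open Classical in
/-- the weights on the points with coprime coordinates -/
noncomputable def wp (X G d : ℕ) (w : ℤ × ℤ → ℝ) (P0 : ℤ × ℤ) : ℝ :=
  ∑ g ∈ (Icc 1 G).filter (fun g : ℕ => ((g : ℤ) * P0.1, (g : ℤ) * P0.2) ∈ sqr X), w ((g : ℤ) * P0.1, (g : ℤ) * P0.2) * lam g ^ d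

lemma wp_abs (X G d : ℕ) (w : ℤ × ℤ → ℝ) (hw : ∀ P, |w P| ≤ 1) (P0 : ℤ × ℤ) : |wp X G d w P0| ≤ G := by
  classical
  unfold wp
  refine (abs_sum_le_sum_abs _ _).trans ?_
  calc ∑ g ∈ (Icc 1 G).filter (fun g : ℕ => ((g : ℤ) * P0.1, (g : ℤ) * P0.2) ∈ sqr X),
        |w ((g : ℤ) * P0.1, (g : ℤ) * P0.2) * lam g ^ d| ≤
      ∑ _g ∈ (Icc 1 G).filter (fun g : ℕ => ((g : ℤ) * P0.1, (g : ℤ) * P0.2) ∈ sqr X), (1 : ℝ) := by
        refine sum_le_sum fun g _ => ?_
        rw [abs_mul, abs_pow]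
        exact mul_le_one₀ (hw _) (by positivity) (pow_le_one₀ (abs_nonneg _) (lam_abs _))
    _ = (#((Icc 1 G).filter (fun g : ℕ => ((g : ℤ) * P0.1, (g : ℤ) * P0.2) ∈ sqr X)) : ℝ) := by simp
    _ ≤ G := by
        have h := card_filter_le (Icc 1 G) (fun g : ℕ => ((g : ℤ) * P0.1, (g : ℤ) * P0.2) ∈ sqr X)
        rw [Nat.card_Icc, Nat.add_sub_cancel] at h
        exact_mod_cast h

lemma all_points (d : ℕ) (c : Fin (d + 1) → ℤ) (w : ℤ × ℤ → ℝ) (hw : ∀ P, |w P| ≤ 1) (X G : ℕ) (hG : 1 ≤ G) :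
    |∑ P ∈ sqr X, w P * lam (evf d c P.1 P.2)| ≤ |∑ P0 ∈ prm X, wp X G d w P0 * lam (evf d c P0.1 P0.2)| + (1 + 9 * X ^ 2 / G) := by
  classical
  rw [← sum_filter_add_sum_filter_not (sqr X) (fun P => P ≠ 0 ∧ Int.gcd P.1 P.2 ≤ G)]
  refine (abs_add_le _ _).trans ?_
  apply add_le_add
  · rw [split_gcd X G (fun P => w P * lam (evf d c P.1 P.2))]
    apply le_of_eq
    congr 1
    refine sum_congr rfl fun P0 _ => ?_
    unfold wp
    rw [sum_mul]
    refine sum_congr rfl fun g hg => ?_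
    rw [mem_filter, mem_Icc] at hg
    simp only
    rw [evf_homog, lam_mul, lam_pow _ _ (by exact_mod_cast (by omega : g ≠ 0))]
    ring
  · refine le_trans ?_ (large_gcd X G hG)
    refine (abs_sum_le_sum_abs _ _).trans ?_
    calc ∑ P ∈ (sqr X).filter (fun P => ¬ (P ≠ 0 ∧ Int.gcd P.1 P.2 ≤ G)), |w P * lam (evf d c P.1 P.2)| ≤
        ∑ _P ∈ (sqr X).filter (fun P => ¬ (P ≠ 0 ∧ Int.gcd P.1 P.2 ≤ G)), (1 : ℝ) := by
          refine sum_le_sum fun P _ => ?_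
          rw [abs_mul]
          exact mul_le_one₀ (hw _) (abs_nonneg _) (lam_abs _)
      _ = _ := by simp

/-- **One form.** -/
theorem oneF (d : ℕ) (hd : 2 ≤ d) (U K : ℕ) : ∃ C X0 : ℕ, ∀ X : ℕ, X0 ≤ X → ∀ H : ℕ, (X : ℝ) ^ 2 * Real.log X ^ C ≤ H →
    (H : ℝ) ≤ (X : ℝ) ^ K → ∀ A : Fin (d + 1) → ℤ, (∀ i, |(A i : ℝ)| ≤ H * Real.log X ^ K) → ∀ w : ℤ × ℤ → ℝ, (∀ P, |w P| ≤ 1) →
    (#((bxA d A H).filter (fun c => (X : ℝ) ^ 2 / Real.log X ^ U < |∑ P ∈ sqr X, w P * lam (evf d c P.1 P.2)|)) : ℝ) ≤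
      H ^ (d + 1) / Real.log X ^ U := by
  classical
  obtain ⟨C, X1, h0⟩ := primF d hd (5 * U + 3) K
  obtain ⟨n1, h1⟩ := ev_L' 100
  obtain ⟨n2, h2⟩ := evp (U + 2)
  refine ⟨C, max X1 (max n1 (max n2 1)), fun X hX H hH1 hH2 A hA w hw => ?_⟩
  have hX1 : X1 ≤ X := (le_max_left _ _).trans hX
  have a1 := h1 X (((le_max_left _ _).trans (le_max_right _ _)).trans hX)
  have a2 := h2 X (((le_max_left _ _).trans ((le_max_right _ _).trans (le_max_right _ _))).trans hX)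
  have hXn : 1 ≤ X := (((le_max_right _ _).trans ((le_max_right _ _).trans (le_max_right _ _)))).trans hX
  set L := Real.log X with hL
  have hL1 : 1 ≤ L := by linarith
  have hL0 : 0 < L := by linarith
  have hLp : ∀ n : ℕ, 0 < L ^ n := fun n => by positivity
  have hLp1 : ∀ n : ℕ, 1 ≤ L ^ n := fun n => one_le_pow₀ hL1
  have hXr : (1 : ℝ) ≤ X := by exact_mod_cast hXn
  have hX0 : (0 : ℝ) < X := by linarith
  obtain ⟨G, hGd⟩ : ∃ G : ℕ, G = ⌈L ^ (U + 1)⌉₊ := ⟨_, rfl⟩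
  have hG1 : L ^ (U + 1) ≤ G := by rw [hGd]; exact Nat.le_ceil _
  have hG2 : (G : ℝ) ≤ 2 * L ^ (U + 1) := by
    have : (G : ℝ) ≤ L ^ (U + 1) + 1 := by rw [hGd]; exact (Nat.ceil_lt_add_one (by positivity)).le
    have := hLp1 (U + 1)
    linarith
  have hGr : (1 : ℝ) ≤ G := (hLp1 _).trans hG1
  have hGn : 1 ≤ G := by exact_mod_cast hGr
  have hG0 : (0 : ℝ) < G := by linarith
  have hmom := h0 X hX1 H hH1 hH2 A hA (fun P => wp X G d w P / G) (fun P => by
    rw [abs_div, abs_of_pos hG0, div_le_one hG0]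
    exact wp_abs X G d w hw P)
  set S := (bxA d A H).filter (fun c => (X : ℝ) ^ 2 / L ^ U < |∑ P ∈ sqr X, w P * lam (evf d c P.1 P.2)|) with hS
  have hlow : ∀ c ∈ S, (X ^ 2 / (4 * L ^ (2 * U + 1)) : ℝ) ^ 2 ≤ (∑ P ∈ prm X, wp X G d w P / G * lam (evf d c P.1 P.2)) ^ 2 := by
    intro c hc
    rw [hS, mem_filter] at hc
    have h3 := all_points d c w hw X G hGn
    have h4 : ∑ P ∈ prm X, wp X G d w P / G * lam (evf d c P.1 P.2) = (∑ P ∈ prm X, wp X G d w P * lam (evf d c P.1 P.2)) / G := by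
      rw [sum_div]
      exact sum_congr rfl fun P _ => by ring
    rw [h4]
    set V := ∑ P ∈ prm X, wp X G d w P * lam (evf d c P.1 P.2) with hV
    have h5 : 1 + 9 * (X : ℝ) ^ 2 / G ≤ X ^ 2 / (2 * L ^ U) := by
      have e1 : 9 * (X : ℝ) ^ 2 / G ≤ 9 * X ^ 2 / L ^ (U + 1) := div_le_div_of_nonneg_left (by positivity) (hLp _) hG1
      have e2 : (1 : ℝ) ≤ X ^ 2 / L ^ (U + 1) := by
        rw [le_div_iff₀ (hLp _), one_mul]
        calc L ^ (U + 1) ≤ L ^ (U + 2) := pow_le_pow_right₀ hL1 (by omega)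
          _ ≤ X := a2
          _ ≤ X ^ 2 := by nlinarith
      have e3 : (X : ℝ) ^ 2 / (2 * L ^ U) = (L / 2) * (X ^ 2 / L ^ (U + 1)) := by
        rw [pow_succ L U]; field_simp
      have e4 : 9 * (X : ℝ) ^ 2 / L ^ (U + 1) = 9 * (X ^ 2 / L ^ (U + 1)) := by ring
      rw [e3]
      have e5 : (10 : ℝ) * (X ^ 2 / L ^ (U + 1)) ≤ (L / 2) * (X ^ 2 / L ^ (U + 1)) :=
        mul_le_mul_of_nonneg_right (by linarith) (by positivity)
      linarith
    have h6 : X ^ 2 / (2 * L ^ U) ≤ |V| := by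
      have e1 : (X : ℝ) ^ 2 / L ^ U = 2 * (X ^ 2 / (2 * L ^ U)) := by field_simp
      have := hc.2
      linarith
    rw [← sq_abs (V / G), abs_div, abs_of_pos hG0]
    apply pow_le_pow_left₀ (by positivity)
    rw [div_le_div_iff₀ (by positivity) hG0]
    have e1 : (X : ℝ) ^ 2 * G ≤ X ^ 2 * (2 * L ^ (U + 1)) := mul_le_mul_of_nonneg_left hG2 (by positivity)
    have e2 : (X : ℝ) ^ 2 * (2 * L ^ (U + 1)) = (X ^ 2 / (2 * L ^ U)) * (4 * L ^ (2 * U + 1)) := by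
      rw [show 2 * U + 1 = U + (U + 1) by ring, pow_add]
      field_simp
      ring
    have e3 : (X ^ 2 / (2 * L ^ U)) * (4 * L ^ (2 * U + 1)) ≤ |V| * (4 * L ^ (2 * U + 1)) := mul_le_mul_of_nonneg_right h6 (by positivity)
    linarith
  have h3 : (#S : ℝ) * (X ^ 2 / (4 * L ^ (2 * U + 1)) : ℝ) ^ 2 ≤ H ^ (d + 1) * X ^ 4 / L ^ (5 * U + 3) := by
    refine le_trans ?_ hmom
    calc (#S : ℝ) * (X ^ 2 / (4 * L ^ (2 * U + 1)) : ℝ) ^ 2 = ∑ _c ∈ S, (X ^ 2 / (4 * L ^ (2 * U + 1)) : ℝ) ^ 2 := by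
          rw [sum_const, nsmul_eq_mul]
      _ ≤ ∑ c ∈ S, (∑ P ∈ prm X, wp X G d w P / G * lam (evf d c P.1 P.2)) ^ 2 := sum_le_sum hlow
      _ ≤ _ := sum_le_sum_of_subset_of_nonneg (filter_subset _ _) (fun _ _ _ => sq_nonneg _)
  have h4 : (X ^ 2 / (4 * L ^ (2 * U + 1)) : ℝ) ^ 2 = X ^ 4 / (16 * L ^ (4 * U + 2)) := by
    rw [div_pow, mul_pow, ← pow_mul, ← pow_mul]
    norm_num
    congr 2
    ring
  rw [h4] at h3
  have h5 : (H : ℝ) ^ (d + 1) * X ^ 4 / L ^ (5 * U + 3) = (H ^ (d + 1) * (16 / L) / L ^ U) * (X ^ 4 / (16 * L ^ (4 * U + 2))) := by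
    rw [show 5 * U + 3 = U + (4 * U + 2) + 1 by ring, pow_succ L (U + (4 * U + 2)), pow_add L U (4 * U + 2)]
    field_simp
  rw [h5] at h3
  have h6 := le_of_mul_le_mul_right h3 (by positivity)
  refine h6.trans ?_
  apply div_le_div_of_nonneg_right _ (hLp _).le
  have h7 : (16 : ℝ) / L ≤ 1 := by rw [div_le_one hL0]; linarith
  have h8 := mul_le_mul_of_nonneg_left h7 (by positivity : (0 : ℝ) ≤ (H : ℝ) ^ (d + 1))
  linarith

/-- the product box -/
noncomputable def bk (d k : ℕ) (A : Fin k → Fin (d + 1) → ℤ) (H : ℕ) : Finset (Fin k → Fin (d + 1) → ℤ) :=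
  Fintype.piFinset (fun i => bxA d (A i) H)

lemma bk_card (d k : ℕ) (A : Fin k → Fin (d + 1) → ℤ) (H : ℕ) : #(bk d k A H) = (H ^ (d + 1)) ^ k := by
  unfold bk
  rw [Fintype.card_piFinset]
  simp [bxA_card]

/-- **Systems of forms.** -/
theorem sysF (d : ℕ) (hd : 2 ≤ d) (k U K : ℕ) : ∃ C X0 : ℕ, ∀ X : ℕ, X0 ≤ X → ∀ H : ℕ, (X : ℝ) ^ 2 * Real.log X ^ C ≤ H →
    (H : ℝ) ≤ (X : ℝ) ^ K → ∀ A : Fin k → Fin (d + 1) → ℤ, (∀ i j, |(A i j : ℝ)| ≤ H * Real.log X ^ K) →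
    ∀ (ι : Type) (T : Finset ι), (#T : ℝ) ≤ Real.log X ^ K → ∀ w : ι → ℤ × ℤ → ℝ, (∀ t P, |w t P| ≤ 1) →
    ∃ Bad ⊆ bk d k A H, (#Bad : ℝ) ≤ ((H : ℝ) ^ (d + 1)) ^ k / Real.log X ^ U ∧
      ∀ e ∈ bk d k A H, e ∉ Bad → ∀ t ∈ T, ∀ I : Finset (Fin k), I.Nonempty →
        |∑ P ∈ sqr X, w t P * ∏ i ∈ I, lam (evf d (e i) P.1 P.2)| ≤ X ^ 2 / Real.log X ^ U := by
  classical
  obtain ⟨C, X1, h0⟩ := oneF d hd (U + K + 1) K
  obtain ⟨n1, h1⟩ := ev_L' (2 ^ k + 10)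
  refine ⟨C, max X1 (max n1 1), fun X hX H hH1 hH2 A hA ι T hT w hw => ?_⟩
  have hX1 : X1 ≤ X := (le_max_left _ _).trans hX
  have a1 := h1 X (((le_max_left _ _).trans (le_max_right _ _)).trans hX)
  have hXn : 1 ≤ X := ((le_max_right _ _).trans (le_max_right _ _)).trans hX
  set L := Real.log X with hL
  have h2k : (0 : ℝ) < 2 ^ k := by positivity
  have hL1 : 1 ≤ L := by linarith
  have hL0 : 0 < L := by linarith
  have hLp : ∀ n : ℕ, 0 < L ^ n := fun n => by positivity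
  have hLp1 : ∀ n : ℕ, 1 ≤ L ^ n := fun n => one_le_pow₀ hL1
  have hXr : (1 : ℝ) ≤ X := by exact_mod_cast hXn
  have hX0 : (0 : ℝ) < X := by linarith
  have hHr : (1 : ℝ) ≤ H := by
    refine le_trans ?_ hH1
    exact one_le_mul_of_one_le_of_one_le (one_le_pow₀ hXr) (hLp1 _)
  have hHn : 1 ≤ H := by exact_mod_cast hHr
  have hH0 : (0 : ℝ) < H := by linarith
  set G : ι → Finset (Fin k) → (Fin k → Fin (d + 1) → ℤ) → Prop := fun t I e =>
      |∑ P ∈ sqr X, w t P * ∏ i ∈ I, lam (evf d (e i) P.1 P.2)| ≤ X ^ 2 / L ^ (U + K + 1) with hG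
  set BadJ : ι → Finset (Fin k) → Finset (Fin k → Fin (d + 1) → ℤ) := fun t I => (bk d k A H).filter (fun e => ¬ G t I e) with hBadJ
  have hcount : ∀ t : ι, ∀ I : Finset (Fin k), I.Nonempty → (#(BadJ t I) : ℝ) ≤ ((H : ℝ) ^ (d + 1)) ^ k / L ^ (U + K + 1) := by
    intro t I hI
    obtain ⟨j, hj⟩ := hI
    obtain ⟨M, hM⟩ : ∃ M : ℕ, M = ⌊(H : ℝ) ^ (d + 1) / L ^ (U + K + 1)⌋₊ := ⟨_, rfl⟩
    have hM1 : (M : ℝ) ≤ (H : ℝ) ^ (d + 1) / L ^ (U + K + 1) := by rw [hM]; exact Nat.floor_le (by positivity)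
    have h5 := fiberG k (fun i => bxA d (A i) H) j (BadJ t I) (filter_subset _ _) M ?_
    · have hc : #(Fintype.piFinset (fun i => bxA d (A i) H)) = (H ^ (d + 1)) ^ k := bk_card d k A H
      rw [hc, bxA_card] at h5
      have h6 : (#(BadJ t I) : ℝ) * (H : ℝ) ^ (d + 1) ≤ M * ((H : ℝ) ^ (d + 1)) ^ k := by exact_mod_cast h5
      have h7 : (#(BadJ t I) : ℝ) * (H : ℝ) ^ (d + 1) ≤ (((H : ℝ) ^ (d + 1)) ^ k / L ^ (U + K + 1)) * (H : ℝ) ^ (d + 1) := by
        calc (#(BadJ t I) : ℝ) * (H : ℝ) ^ (d + 1) ≤ M * ((H : ℝ) ^ (d + 1)) ^ k := h6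
          _ ≤ ((H : ℝ) ^ (d + 1) / L ^ (U + K + 1)) * ((H : ℝ) ^ (d + 1)) ^ k := mul_le_mul_of_nonneg_right hM1 (by positivity)
          _ = _ := by ring
      exact le_of_mul_le_mul_right h7 (by positivity)
    · intro e _
      have h6 := h0 X hX1 H hH1 hH2 (A j) (hA j) (fun P => w t P * ∏ i ∈ I.erase j, lam (evf d (e i) P.1 P.2)) (by
          intro P
          rw [abs_mul, abs_prod]
          exact mul_le_one₀ (hw t P) (prod_nonneg fun _ _ => abs_nonneg _)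
            (prod_le_one (fun _ _ => abs_nonneg _) (fun i _ => lam_abs _)))
      rw [hM]
      apply Nat.le_floor
      refine le_trans ?_ h6
      have h7 : (bxA d (A j) H).filter (fun q => Function.update e j q ∈ BadJ t I) ⊆
          (bxA d (A j) H).filter (fun c => (X : ℝ) ^ 2 / L ^ (U + K + 1) <
            |∑ P ∈ sqr X, (w t P * ∏ i ∈ I.erase j, lam (evf d (e i) P.1 P.2)) * lam (evf d c P.1 P.2)|) := by
        intro q hq
        rw [mem_filter] at hq ⊢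
        refine ⟨hq.1, ?_⟩
        have h8 := hq.2
        rw [hBadJ, mem_filter] at h8
        have h9 := h8.2
        rw [hG] at h9
        simp only [not_le] at h9
        have h10 : ∑ P ∈ sqr X, w t P * ∏ i ∈ I, lam (evf d (Function.update e j q i) P.1 P.2) =
            ∑ P ∈ sqr X, (w t P * ∏ i ∈ I.erase j, lam (evf d (e i) P.1 P.2)) * lam (evf d q P.1 P.2) := by
          refine sum_congr rfl fun P _ => ?_
          rw [← mul_prod_erase I _ hj, Function.update_self]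
          have h11 : ∏ i ∈ I.erase j, lam (evf d (Function.update e j q i) P.1 P.2) = ∏ i ∈ I.erase j, lam (evf d (e i) P.1 P.2) := by
            refine prod_congr rfl fun i hi => ?_
            rw [Function.update_of_ne (mem_erase.1 hi).1]
          rw [h11]
          ring
        rw [h10] at h9
        exact h9
      exact_mod_cast card_le_card h7
  refine ⟨T.biUnion (fun t => ((univ : Finset (Finset (Fin k))).filter (fun I => I.Nonempty)).biUnion (BadJ t)), ?_, ?_, ?_⟩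
  · intro e he
    rw [mem_biUnion] at he
    obtain ⟨t, _, he⟩ := he
    rw [mem_biUnion] at he
    obtain ⟨I, _, he⟩ := he
    exact (mem_filter.1 he).1
  · have h3 : ∀ t, (#(((univ : Finset (Finset (Fin k))).filter (fun I => I.Nonempty)).biUnion (BadJ t)) : ℝ) ≤
        2 ^ k * (((H : ℝ) ^ (d + 1)) ^ k / L ^ (U + K + 1)) := by
      intro t
      calc (#(((univ : Finset (Finset (Fin k))).filter (fun I => I.Nonempty)).biUnion (BadJ t)) : ℝ) ≤
          ∑ I ∈ (univ : Finset (Finset (Fin k))).filter (fun I => I.Nonempty), (#(BadJ t I) : ℝ) := by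
            exact_mod_cast card_biUnion_le
        _ ≤ ∑ I ∈ (univ : Finset (Finset (Fin k))).filter (fun I => I.Nonempty), ((H : ℝ) ^ (d + 1)) ^ k / L ^ (U + K + 1) :=
            sum_le_sum fun I hI => hcount t I (mem_filter.1 hI).2
        _ = (#((univ : Finset (Finset (Fin k))).filter (fun I => I.Nonempty)) : ℝ) * (((H : ℝ) ^ (d + 1)) ^ k / L ^ (U + K + 1)) := by
            rw [sum_const, nsmul_eq_mul]
        _ ≤ _ := by
            apply mul_le_mul_of_nonneg_right _ (by positivity)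
            have h4 := card_filter_le (univ : Finset (Finset (Fin k))) (fun I => I.Nonempty)
            rw [card_univ, Fintype.card_finset, Fintype.card_fin] at h4
            exact_mod_cast h4
    calc (#(T.biUnion (fun t => ((univ : Finset (Finset (Fin k))).filter (fun I => I.Nonempty)).biUnion (BadJ t))) : ℝ) ≤
        ∑ t ∈ T, (#(((univ : Finset (Finset (Fin k))).filter (fun I => I.Nonempty)).biUnion (BadJ t)) : ℝ) := by
          exact_mod_cast card_biUnion_le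
      _ ≤ ∑ _t ∈ T, 2 ^ k * (((H : ℝ) ^ (d + 1)) ^ k / L ^ (U + K + 1)) := sum_le_sum fun t _ => h3 t
      _ = #T * (2 ^ k * (((H : ℝ) ^ (d + 1)) ^ k / L ^ (U + K + 1))) := by rw [sum_const, nsmul_eq_mul]
      _ ≤ L ^ K * (2 ^ k * (((H : ℝ) ^ (d + 1)) ^ k / L ^ (U + K + 1))) := mul_le_mul_of_nonneg_right hT (by positivity)
      _ = (2 ^ k / L) * (((H : ℝ) ^ (d + 1)) ^ k / L ^ U) := by
          rw [pow_succ L (U + K), pow_add L U K]
          have := (hLp K).ne'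
          have := (hLp U).ne'
          field_simp
      _ ≤ 1 * (((H : ℝ) ^ (d + 1)) ^ k / L ^ U) := by
          apply mul_le_mul_of_nonneg_right _ (by positivity)
          rw [div_le_one hL0]
          linarith
      _ = _ := one_mul _
  · intro e he hbad t ht I hI
    have h3 : G t I e := by
      by_contra hcon
      apply hbad
      rw [mem_biUnion]
      refine ⟨t, ht, ?_⟩
      rw [mem_biUnion]
      exact ⟨I, mem_filter.2 ⟨mem_univ _, hI⟩, mem_filter.2 ⟨he, hcon⟩⟩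
    refine h3.trans ?_
    apply div_le_div_of_nonneg_left (by positivity) (hLp _)
    exact pow_le_pow_right₀ hL1 (by omega)

/-- **Few zeros.** -/
theorem zeroF (d : ℕ) (k U : ℕ) : ∃ C X0 : ℕ, ∀ X : ℕ, X0 ≤ X → ∀ H : ℕ, (X : ℝ) ^ 2 * Real.log X ^ C ≤ H →
    ∀ A : Fin k → Fin (d + 1) → ℤ,
    ∃ Bad ⊆ bk d k A H, (#Bad : ℝ) ≤ ((H : ℝ) ^ (d + 1)) ^ k / Real.log X ^ U ∧
      ∀ e ∈ bk d k A H, e ∉ Bad → (#((sqr X).filter (fun P => ∃ i, evf d (e i) P.1 P.2 = 0)) : ℝ) ≤ X ^ 2 / Real.log X ^ U := by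
  classical
  obtain ⟨n1, h1⟩ := ev_L' (k + 100)
  obtain ⟨n2, h2⟩ := evp (U + 4)
  refine ⟨2 * U + 10, max n1 (max n2 1), fun X hX H hH A => ?_⟩
  have a1 := h1 X ((le_max_left _ _).trans hX)
  have a2 := h2 X (((le_max_left _ _).trans (le_max_right _ _)).trans hX)
  have hXn : 1 ≤ X := ((le_max_right _ _).trans (le_max_right _ _)).trans hX
  set L := Real.log X with hL
  have hk0 : (0 : ℝ) ≤ k := Nat.cast_nonneg _
  have hL1 : 1 ≤ L := by linarith
  have hL0 : 0 < L := by linarith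
  have hLp : ∀ n : ℕ, 0 < L ^ n := fun n => by positivity
  have hLp1 : ∀ n : ℕ, 1 ≤ L ^ n := fun n => one_le_pow₀ hL1
  have hXr : (1 : ℝ) ≤ X := by exact_mod_cast hXn
  have hX0 : (0 : ℝ) < X := by linarith
  have hHC : L ^ (2 * U + 10) ≤ H := by
    refine le_trans ?_ hH
    exact le_mul_of_one_le_left (hLp _).le (one_le_pow₀ hXr)
  have hHr : (1 : ℝ) ≤ H := (hLp1 _).trans hHC
  have hHn : 1 ≤ H := by exact_mod_cast hHr
  have hH0 : (0 : ℝ) < H := by linarith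
  set Tr : ℝ := X ^ 2 / L ^ (U + 2) with hTr
  have hTr0 : 0 < Tr := by positivity
  -- one form
  have hone : ∀ A' : Fin (d + 1) → ℤ, (#((bxA d A' H).filter (fun c =>
      Tr < (#((sqr X).filter (fun P => P ≠ 0 ∧ evf d c P.1 P.2 = 0)) : ℝ))) : ℝ) ≤ (H : ℝ) ^ (d + 1) / L ^ (U + 2) := by
    intro A'
    set S := (bxA d A' H).filter (fun c => Tr < (#((sqr X).filter (fun P => P ≠ 0 ∧ evf d c P.1 P.2 = 0)) : ℝ)) with hS
    have h3 : (#S : ℝ) * Tr ≤ 9 * X ^ 2 * H ^ d := by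
      calc (#S : ℝ) * Tr = ∑ _c ∈ S, Tr := by rw [sum_const, nsmul_eq_mul]
        _ ≤ ∑ c ∈ S, (#((sqr X).filter (fun P => P ≠ 0 ∧ evf d c P.1 P.2 = 0)) : ℝ) :=
            sum_le_sum fun c hc => (mem_filter.1 hc).2.le
        _ ≤ ∑ c ∈ bxA d A' H, (#((sqr X).filter (fun P => P ≠ 0 ∧ evf d c P.1 P.2 = 0)) : ℝ) :=
            sum_le_sum_of_subset_of_nonneg (filter_subset _ _) (fun _ _ _ => Nat.cast_nonneg _)
        _ = ∑ P ∈ sqr X, (#((bxA d A' H).filter (fun c => P ≠ 0 ∧ evf d c P.1 P.2 = 0)) : ℝ) := by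
            simp_rw [card_filter]
            push_cast
            exact sum_comm
        _ ≤ ∑ _P ∈ sqr X, (H : ℝ) ^ d := by
            refine sum_le_sum fun P _ => ?_
            by_cases hP : P = 0
            · have h4 : (bxA d A' H).filter (fun c => P ≠ 0 ∧ evf d c P.1 P.2 = 0) = ∅ := by
                rw [filter_eq_empty_iff]
                intro c _ h5
                exact h5.1 hP
              rw [h4, card_empty, Nat.cast_zero]
              positivity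
            · have h4 : (bxA d A' H).filter (fun c => P ≠ 0 ∧ evf d c P.1 P.2 = 0) ⊆ (bxA d A' H).filter (fun c => evf d c P.1 P.2 = 0) := by
                intro c hc
                rw [mem_filter] at hc ⊢
                exact ⟨hc.1, hc.2.2⟩
              have h5 := (card_le_card h4).trans (zero_count d A' H hHn P hP)
              exact_mod_cast h5
        _ = (2 * X + 1) ^ 2 * H ^ d := by rw [sum_const, sqr_card, nsmul_eq_mul]; push_cast; ring
        _ ≤ 9 * X ^ 2 * H ^ d := by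
            apply mul_le_mul_of_nonneg_right _ (by positivity)
            nlinarith
    have h4 : 9 * (X : ℝ) ^ 2 * H ^ d ≤ (H ^ (d + 1) / L ^ (U + 2)) * Tr := by
      rw [hTr, div_mul_div_comm, le_div_iff₀ (by positivity)]
      have e1 : 9 * (L ^ (U + 2) * L ^ (U + 2)) ≤ H := by
        refine le_trans ?_ hHC
        calc 9 * (L ^ (U + 2) * L ^ (U + 2)) ≤ L * (L ^ (U + 2) * L ^ (U + 2)) := mul_le_mul_of_nonneg_right (by linarith) (by positivity)
          _ = L ^ (2 * U + 5) := by ring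
          _ ≤ _ := pow_le_pow_right₀ hL1 (by omega)
      calc 9 * (X : ℝ) ^ 2 * (H : ℝ) ^ d * (L ^ (U + 2) * L ^ (U + 2)) = (9 * (L ^ (U + 2) * L ^ (U + 2))) * ((X : ℝ) ^ 2 * (H : ℝ) ^ d) := by ring
        _ ≤ (H : ℝ) * ((X : ℝ) ^ 2 * (H : ℝ) ^ d) := mul_le_mul_of_nonneg_right e1 (by positivity)
        _ = _ := by ring
    exact le_of_mul_le_mul_right (h3.trans h4) hTr0
  set Zj : Fin k → Finset (Fin k → Fin (d + 1) → ℤ) := fun j => (bk d k A H).filter (fun e =>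
    Tr < (#((sqr X).filter (fun P => P ≠ 0 ∧ evf d (e j) P.1 P.2 = 0)) : ℝ)) with hZj
  have hcount : ∀ j, (#(Zj j) : ℝ) ≤ ((H : ℝ) ^ (d + 1)) ^ k / L ^ (U + 2) := by
    intro j
    obtain ⟨M, hM⟩ : ∃ M : ℕ, M = ⌊(H : ℝ) ^ (d + 1) / L ^ (U + 2)⌋₊ := ⟨_, rfl⟩
    have hM1 : (M : ℝ) ≤ (H : ℝ) ^ (d + 1) / L ^ (U + 2) := by rw [hM]; exact Nat.floor_le (by positivity)
    have h5 := fiberG k (fun i => bxA d (A i) H) j (Zj j) (filter_subset _ _) M ?_
    · have hc : #(Fintype.piFinset (fun i => bxA d (A i) H)) = (H ^ (d + 1)) ^ k := bk_card d k A H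
      rw [hc, bxA_card] at h5
      have h6 : (#(Zj j) : ℝ) * (H : ℝ) ^ (d + 1) ≤ M * ((H : ℝ) ^ (d + 1)) ^ k := by exact_mod_cast h5
      have h7 : (#(Zj j) : ℝ) * (H : ℝ) ^ (d + 1) ≤ (((H : ℝ) ^ (d + 1)) ^ k / L ^ (U + 2)) * (H : ℝ) ^ (d + 1) := by
        calc (#(Zj j) : ℝ) * (H : ℝ) ^ (d + 1) ≤ M * ((H : ℝ) ^ (d + 1)) ^ k := h6
          _ ≤ ((H : ℝ) ^ (d + 1) / L ^ (U + 2)) * ((H : ℝ) ^ (d + 1)) ^ k := mul_le_mul_of_nonneg_right hM1 (by positivity)
          _ = _ := by ring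
      exact le_of_mul_le_mul_right h7 (by positivity)
    · intro e _
      rw [hM]
      apply Nat.le_floor
      refine le_trans ?_ (hone (A j))
      have h7 : (bxA d (A j) H).filter (fun q => Function.update e j q ∈ Zj j) ⊆
          (bxA d (A j) H).filter (fun c => Tr < (#((sqr X).filter (fun P => P ≠ 0 ∧ evf d c P.1 P.2 = 0)) : ℝ)) := by
        intro q hq
        rw [mem_filter] at hq ⊢
        refine ⟨hq.1, ?_⟩
        have h8 := hq.2
        rw [hZj, mem_filter] at h8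
        have h9 := h8.2
        rw [Function.update_self] at h9
        exact h9
      exact_mod_cast card_le_card h7
  refine ⟨univ.biUnion Zj, ?_, ?_, ?_⟩
  · intro e he
    rw [mem_biUnion] at he
    obtain ⟨j, _, he⟩ := he
    exact (mem_filter.1 he).1
  · have h4 : ((#(univ.biUnion Zj) : ℕ) : ℝ) ≤ ∑ j, (#(Zj j) : ℝ) := by exact_mod_cast card_biUnion_le
    refine h4.trans ?_
    calc ∑ j, (#(Zj j) : ℝ) ≤ ∑ _j : Fin k, ((H : ℝ) ^ (d + 1)) ^ k / L ^ (U + 2) := sum_le_sum fun j _ => hcount j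
      _ = k * (((H : ℝ) ^ (d + 1)) ^ k / L ^ (U + 2)) := by rw [sum_const, card_univ, Fintype.card_fin, nsmul_eq_mul]
      _ = (k / L ^ 2) * (((H : ℝ) ^ (d + 1)) ^ k / L ^ U) := by
          rw [pow_add L U 2]
          have := (hLp U).ne'
          field_simp
      _ ≤ 1 * (((H : ℝ) ^ (d + 1)) ^ k / L ^ U) := by
          apply mul_le_mul_of_nonneg_right _ (by positivity)
          rw [div_le_one (by positivity)]
          nlinarith
      _ = _ := one_mul _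
  · intro e he hbad
    rw [mem_biUnion] at hbad
    have hz : ∀ j, (#((sqr X).filter (fun P => P ≠ 0 ∧ evf d (e j) P.1 P.2 = 0)) : ℝ) ≤ Tr := by
      intro j
      by_contra hcon
      push Not at hcon
      exact hbad ⟨j, mem_univ _, mem_filter.2 ⟨he, hcon⟩⟩
    have e1 : (sqr X).filter (fun P => ∃ i, evf d (e i) P.1 P.2 = 0) ⊆
        {(0 : ℤ × ℤ)} ∪ univ.biUnion (fun j => (sqr X).filter (fun P => P ≠ 0 ∧ evf d (e j) P.1 P.2 = 0)) := by
      intro P hP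
      rw [mem_filter] at hP
      obtain ⟨h3, i, hi⟩ := hP
      rw [mem_union, mem_singleton, mem_biUnion]
      by_cases h0 : P = 0
      · exact Or.inl h0
      · exact Or.inr ⟨i, mem_univ _, mem_filter.2 ⟨h3, h0, hi⟩⟩
    have e2 : #((sqr X).filter (fun P => ∃ i, evf d (e i) P.1 P.2 = 0)) ≤
        1 + ∑ j, #((sqr X).filter (fun P => P ≠ 0 ∧ evf d (e j) P.1 P.2 = 0)) :=
      (card_le_card e1).trans ((card_union_le _ _).trans (Nat.add_le_add_left card_biUnion_le 1))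
    calc (#((sqr X).filter (fun P => ∃ i, evf d (e i) P.1 P.2 = 0)) : ℝ) ≤
        1 + ∑ j, (#((sqr X).filter (fun P => P ≠ 0 ∧ evf d (e j) P.1 P.2 = 0)) : ℝ) := by exact_mod_cast e2
      _ ≤ 1 + ∑ _j : Fin k, Tr := add_le_add le_rfl (sum_le_sum fun j _ => hz j)
      _ = 1 + k * Tr := by rw [sum_const, card_univ, Fintype.card_fin, nsmul_eq_mul]
      _ ≤ Tr + k * Tr := by
          have e3 : 1 ≤ Tr := by
            rw [hTr, le_div_iff₀ (hLp _), one_mul]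
            calc L ^ (U + 2) ≤ L ^ (U + 4) := pow_le_pow_right₀ hL1 (by omega)
              _ ≤ X := a2
              _ ≤ X ^ 2 := by nlinarith
          linarith
      _ = ((1 + k) / L ^ 2) * (X ^ 2 / L ^ U) := by
          rw [hTr, pow_add L U 2]
          have := (hLp U).ne'
          field_simp
      _ ≤ 1 * (X ^ 2 / L ^ U) := by
          apply mul_le_mul_of_nonneg_right _ (by positivity)
          rw [div_le_one (by positivity)]
          nlinarith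
      _ = _ := one_mul _

end Pool.Agent.Y868.TF
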